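import Pool.Agent.Helper20.HD.Defs

/-!
# Contraction of a handle: balanced sets with few neighbours (helper95)
-/

set_option autoImplicit false

namespace Pool.Agent.Helper20.HD

open SimpleGraph Pool.Agent.Helper57.TOK Pool.Agent.Helper57.TD Pool.Agent.Helper57.TOP
  Pool.Agent.Helper82.TK

variable {V : Type*} {G : SimpleGraph V} {U : Set V} {h p q : V}

section base

variable {Y : Set V} {κ : V → ZMod 2}

open Classical in
/-- The colouring with `q` coloured like `p`. -/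
noncomputable def colQ (p q : V) (κ : V → ZMod 2) : V → ZMod 2 :=
  fun v => if v = q then κ p else κ v

lemma colQ_q : colQ p q κ q = κ p := by
  unfold colQ; rw [if_pos rfl]

lemma colQ_ne {v : V} (hv : v ≠ q) : colQ p q κ v = κ v := by
  unfold colQ; rw [if_neg hv]

lemma Ctr.hp (c : Ctr G U h p q) : h ≠ p := c.hand.hp.ne

lemma Ctr.hq (c : Ctr G U h p q) : h ≠ q := c.hand.hq.ne

lemma fold_of_adj {u v : V} (h1 : G.Adj u v) (hu : u ≠ h) (hv : v ≠ h) (hu' : u ≠ q)
    (hv' : v ≠ q) : (foldG G h p q).Adj u v :=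
  foldG_adj.2 ⟨h1.ne, hu, hv, hu', hv', Or.inl h1⟩

lemma Ctr.fold_p (c : Ctr G U h p q) {v : V} (h1 : G.Adj q v) (hv : v ≠ h) :
    (foldG G h p q).Adj p v := by
  have hvp : v ≠ p := fun h2 => c.npq (h2 ▸ h1.symm)
  exact foldG_adj.2 ⟨hvp.symm, c.hp.symm, hv, c.hand.ne, h1.ne.symm, Or.inr (Or.inl ⟨rfl, h1⟩)⟩

lemma Ctr.notMem (c : Ctr G U h p q) [Finite V] (hY : Y ⊆ U \ {h, q})
    (hb : PB (foldG G h p q) κ Y) (h3 : (Nb (foldG G h p q) Y).ncard ≤ 3) : p ∉ Y := by
  classical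
  intro hp
  have hnh : h ∉ Y := fun h1 => (hY h1).2 (Or.inl rfl)
  have hnq : q ∉ Y := fun h1 => (hY h1).2 (Or.inr rfl)
  have hne : ∀ u ∈ Y, u ≠ h ∧ u ≠ q := fun u hu => ⟨fun h1 => hnh (h1 ▸ hu), fun h1 => hnq (h1 ▸ hu)⟩
  set κ' : V → ZMod 2 := fun v => if v = h then κ p + 1 else colQ p q κ v with hκ'
  have k1 : κ' h = κ p + 1 := by rw [hκ']; simp
  have k2 : ∀ v, v ≠ h → κ' v = colQ p q κ v := fun v hv => by rw [hκ']; simp [hv]
  have one : ∀ x : ZMod 2, x ≠ x + 1 := by decide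
  have hY' : insert h (insert q Y) ⊆ U := by
    rintro v (hv | hv | hv)
    · rw [hv]; exact c.hU
    · rw [hv]; exact c.gmin.ex.edge_mem q h c.hand.hq.symm
    · exact (hY hv).1
  have hb' : PB G κ' (insert h (insert q Y)) := by
    rintro u v (hu | hu | hu) huv
    · rw [hu] at huv ⊢
      rw [k1]
      rcases c.hand.adj.1 huv with h4 | h4
      · rw [h4, k2 p c.hp.symm, colQ_ne c.hand.ne]; exact (one _).symm
      · rw [h4, k2 q c.hq.symm, colQ_q]; exact (one _).symm
    · rw [hu] at huv ⊢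
      rw [k2 q c.hq.symm, colQ_q]
      by_cases hv : v = h
      · rw [hv, k1]; exact one _
      · rw [k2 v hv, colQ_ne huv.ne.symm]
        exact hb p v hp (c.fold_p huv hv)
    · rw [k2 u (hne u hu).1, colQ_ne (hne u hu).2]
      by_cases hv : v = h
      · rw [hv] at huv ⊢
        rw [k1]
        rcases c.hand.adj.1 huv.symm with h4 | h4
        · rw [h4]; exact one _
        · exact absurd h4 (hne u hu).2
      · rw [k2 v hv]
        by_cases hvq : v = q
        · rw [hvq] at huv ⊢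
          rw [colQ_q]
          exact fun h5 => hb p u hp (c.fold_p huv.symm (hne u hu).1) h5.symm
        · rw [colQ_ne hvq]
          exact hb u v hu (fold_of_adj huv (hne u hu).1 hv (hne u hu).2 hvq)
  have hN : Nb G (insert h (insert q Y)) ⊆ Nb (foldG G h p q) Y := by
    rintro v ⟨hv, u, hu, huv⟩
    have hvh : v ≠ h := fun h4 => hv (Or.inl h4)
    have hvq : v ≠ q := fun h4 => hv (Or.inr (Or.inl h4))
    have hvY : v ∉ Y := fun h4 => hv (Or.inr (Or.inr h4))
    rcases hu with hu | hu | hu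
    · rw [hu] at huv
      rcases c.hand.adj.1 huv with h4 | h4
      · exact absurd (h4 ▸ hp) hvY
      · exact absurd h4 hvq
    · rw [hu] at huv
      exact ⟨hvY, p, hp, c.fold_p huv hvh⟩
    · exact ⟨hvY, u, hu, fold_of_adj huv (hne u hu).1 hvh (hne u hu).2 hvq⟩
  have h4 := Set.ncard_le_ncard hN (Set.toFinite _)
  exact gmin_no_two_real c.gmin hY' hb' (h4.trans h3) (Or.inr (Or.inr hp)) (Or.inr (Or.inl rfl))
    c.hand.ne (gmin_hand_real c.gmin c.hU c.hand) (gmin_hand_real c.gmin c.hU c.hand.symm)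

lemma Ctr.bal (c : Ctr G U h p q) (hY : Y ⊆ U \ {h, q}) (hb : PB (foldG G h p q) κ Y)
    (hp : p ∉ Y) : PB G (colQ p q κ) Y := by
  intro u v hu huv
  have hnh : u ≠ h := fun h1 => (hY hu).2 (Or.inl h1)
  have hnq : u ≠ q := fun h1 => (hY hu).2 (Or.inr h1)
  have hnp : u ≠ p := fun h1 => hp (h1 ▸ hu)
  have hvh : v ≠ h := by
    intro h1
    rw [h1] at huv
    rcases c.hand.adj.1 huv.symm with h4 | h4
    · exact hnp h4
    · exact hnq h4
  rw [colQ_ne hnq]
  by_cases hvq : v = q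
  · rw [hvq] at huv ⊢
    rw [colQ_q]
    exact hb u p hu (c.fold_p huv.symm hnh).symm
  · rw [colQ_ne hvq]
    exact hb u v hu (fold_of_adj huv hnh hvh hnq hvq)

lemma Ctr.hN (c : Ctr G U h p q) (hY : Y ⊆ U \ {h, q}) (hp : p ∉ Y) : h ∉ Nb G Y := by
  rintro ⟨-, u, hu, huh⟩
  rcases c.hand.adj.1 huh.symm with h4 | h4
  · exact hp (h4 ▸ hu)
  · exact (hY hu).2 (Or.inr h4)

lemma Ctr.rho (c : Ctr G U h p q) [Finite V] (hY : Y ⊆ U \ {h, q}) (hp : p ∉ Y) :
    fden (foldG G h p q) Y + (({w | w ∈ Y ∧ G.Adj p w ∧ G.Adj q w} : Set V).ncard : ℤ) =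
      fden G Y := by
  have h1 := rho_foldG_of_notMem (G := G) (y := h) (a := p) (b := q) (Y := Y) c.hand.ne
    c.hp.symm c.hq.symm hp (fun h2 => (hY h2).2 (Or.inr rfl)) (fun h2 => (hY h2).2 (Or.inl rfl))
  have h2 : ({w | w ∈ Y ∧ G.Adj h w} : Set V) = ∅ := by
    rw [Set.eq_empty_iff_forall_notMem]
    rintro w ⟨hw, hw'⟩
    rcases c.hand.adj.1 hw' with h4 | h4
    · exact hp (h4 ▸ hw)
    · exact (hY hw).2 (Or.inr h4)
  rw [h2, Set.ncard_empty] at h1
  unfold fden
  omega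

/-- `q` is not a neighbour: nothing changes. -/
lemma Ctr.nb_of_not (c : Ctr G U h p q) (hY : Y ⊆ U \ {h, q}) (hp : p ∉ Y)
    (hq : q ∉ Nb G Y) : Nb (foldG G h p q) Y = Nb G Y := by
  have hqY : q ∉ Y := fun h2 => (hY h2).2 (Or.inr rfl)
  ext v
  constructor
  · rintro ⟨hv, u, hu, huv⟩
    rw [foldG_adj] at huv
    rcases huv.2.2.2.2.2 with h4 | ⟨h4, -⟩ | ⟨-, h4⟩
    · exact ⟨hv, u, hu, h4⟩
    · exact absurd (h4 ▸ hu) hp
    · exact absurd ⟨hqY, u, hu, h4.symm⟩ hq
  · intro hv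
    have hvq : v ≠ q := fun h4 => hq (h4 ▸ hv)
    have hvh : v ≠ h := fun h4 => c.hN hY hp (h4 ▸ hv)
    obtain ⟨hv1, u, hu, huv⟩ := hv
    exact ⟨hv1, u, hu, fold_of_adj huv (fun h1 => (hY hu).2 (Or.inl h1)) hvh
      (fun h1 => (hY hu).2 (Or.inr h1)) hvq⟩

/-- `q` is a neighbour. -/
lemma Ctr.nb_of_mem (c : Ctr G U h p q) (hY : Y ⊆ U \ {h, q}) (hp : p ∉ Y)
    (hq : q ∈ Nb G Y) : p ∈ Nb (foldG G h p q) Y ∧
      ∀ v, v ≠ q → v ≠ p → (v ∈ Nb (foldG G h p q) Y ↔ v ∈ Nb G Y) := by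
  obtain ⟨hqY, u0, hu0, hu0q⟩ := hq
  refine ⟨⟨hp, u0, hu0, (c.fold_p hu0q.symm (fun h1 => (hY hu0).2 (Or.inl h1))).symm⟩, ?_⟩
  intro v hvq hvp
  constructor
  · rintro ⟨hv, u, hu, huv⟩
    rw [foldG_adj] at huv
    rcases huv.2.2.2.2.2 with h4 | ⟨h4, -⟩ | ⟨h4, -⟩
    · exact ⟨hv, u, hu, h4⟩
    · exact absurd (h4 ▸ hu) hp
    · exact absurd h4 hvp
  · intro hv
    have hvh : v ≠ h := fun h4 => c.hN hY hp (h4 ▸ hv)
    obtain ⟨hv1, u, hu, huv⟩ := hv
    exact ⟨hv1, u, hu, fold_of_adj huv (fun h1 => (hY hu).2 (Or.inl h1)) hvh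
      (fun h1 => (hY hu).2 (Or.inr h1)) hvq⟩

lemma q_notMem_nb1 : q ∉ Nb (foldG G h p q) Y := by
  rintro ⟨-, u, -, huv⟩
  exact (foldG_adj.1 huv).2.2.2.2.1 rfl

/-- The three cases. -/
lemma Ctr.cases (c : Ctr G U h p q) [Finite V] (hY : Y ⊆ U \ {h, q})
    (hb : PB (foldG G h p q) κ Y) (hp : p ∉ Y) (h3 : (Nb (foldG G h p q) Y).ncard = 3) :
    fden G Y ≤ beta κ (Nb (foldG G h p q) Y) ∨
      (p ∈ Nb (foldG G h p q) Y ∧ Nb G Y = insert q (Nb (foldG G h p q) Y) ∧
        fden G Y ≤ beta κ (Nb (foldG G h p q) Y) + 1) := by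
  classical
  have hYU : Y ⊆ U := fun v hv => (hY hv).1
  have hb' := c.bal hY hb hp
  by_cases hq : q ∈ Nb G Y
  · obtain ⟨h4, h5⟩ := c.nb_of_mem hY hp hq
    by_cases hpN : p ∈ Nb G Y
    · right
      have e : Nb G Y = insert q (Nb (foldG G h p q) Y) := by
        ext v
        rw [Set.mem_insert_iff]
        by_cases hvq : v = q
        · rw [hvq]; exact ⟨fun _ => Or.inl rfl, fun _ => hq⟩
        · by_cases hvp : v = p
          · rw [hvp]; exact ⟨fun _ => Or.inr h4, fun _ => hpN⟩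
          · rw [h5 v hvq hvp]
            exact ⟨fun h6 => Or.inr h6, fun h6 => h6.resolve_left hvq⟩
      refine ⟨h4, e, ?_⟩
      have hc : (Nb G Y).ncard = 4 := by
        rw [e, Set.ncard_insert_of_notMem q_notMem_nb1 (Set.toFinite _), h3]
      have h6 := gmin_P2 c.gmin hYU hb' hc
      rw [e] at h6
      have h7 := beta_insert_le (κ := colQ p q κ) (N := Nb (foldG G h p q) Y) (x := q)
      have h8 : beta (colQ p q κ) (Nb (foldG G h p q) Y) = beta κ (Nb (foldG G h p q) Y) :=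
        beta_congr (fun x hx => colQ_ne (fun h9 => q_notMem_nb1 (h9 ▸ hx)))
      rw [h8] at h7
      exact h6.trans h7
    · left
      have e : Nb G Y = insert q (Nb (foldG G h p q) Y \ {p}) := by
        ext v
        rw [Set.mem_insert_iff]
        by_cases hvq : v = q
        · rw [hvq]; exact ⟨fun _ => Or.inl rfl, fun _ => hq⟩
        · by_cases hvp : v = p
          · rw [hvp]
            refine ⟨fun h6 => absurd h6 hpN, ?_⟩
            rintro (h6 | h6)
            · exact absurd h6 c.hand.ne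
            · exact absurd rfl h6.2
          · constructor
            · exact fun h6 => Or.inr ⟨(h5 v hvq hvp).2 h6, hvp⟩
            · rintro (h6 | h6)
              · exact absurd h6 hvq
              · exact (h5 v hvq hvp).1 h6.1
      have hc1 : (Nb (foldG G h p q) Y \ {p}).ncard = 2 := by
        rw [Set.ncard_sdiff_singleton_of_mem h4, h3]
      have hc : (Nb G Y).ncard = 3 := by
        rw [e, Set.ncard_insert_of_notMem (fun h6 => q_notMem_nb1 h6.1) (Set.toFinite _), hc1]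
      have h6 := gmin_P1 c.gmin hYU hb' hc
      have h7 : beta (colQ p q κ) (Nb G Y) = beta κ (Nb (foldG G h p q) Y) := by
        have hm : Mono (colQ p q κ) (Nb G Y) ↔ Mono κ (Nb (foldG G h p q) Y) := by
          constructor
          · intro hm
            have key : ∀ x ∈ Nb (foldG G h p q) Y, κ x = κ p := by
              intro x hx
              by_cases hxp : x = p
              · rw [hxp]
              · have hxq : x ≠ q := fun h9 => q_notMem_nb1 (h9 ▸ hx)
                have h8 : x ∈ Nb G Y := (h5 x hxq hxp).1 hx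
                have h9 := hm x h8 q hq
                rwa [colQ_q, colQ_ne hxq] at h9
            intro x hx y hy
            rw [key x hx, key y hy]
          · intro hm
            have key : ∀ x ∈ Nb G Y, colQ p q κ x = κ p := by
              intro x hx
              by_cases hxq : x = q
              · rw [hxq, colQ_q]
              · have hxp : x ≠ p := fun h9 => hpN (h9 ▸ hx)
                rw [colQ_ne hxq]
                exact hm x ((h5 x hxq hxp).2 hx) p h4
            intro x hx y hy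
            rw [key x hx, key y hy]
        by_cases hm1 : Mono κ (Nb (foldG G h p q) Y)
        · rw [beta_of_mono hm1, beta_of_mono (hm.2 hm1), hc, h3]
        · rw [beta_of_not_mono hm1, beta_of_not_mono (fun h9 => hm1 (hm.1 h9)), hc, h3]
      rw [h7] at h6
      exact h6
  · left
    have e := c.nb_of_not hY hp hq
    have h6 := gmin_P1 c.gmin hYU hb' (by rw [← e]; exact h3)
    rw [← e, beta_congr (κ' := κ) (fun x hx => colQ_ne (fun h9 => q_notMem_nb1 (h9 ▸ hx)))] at h6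
    exact h6

end base

/-- T1 and P2 in the contraction. -/
theorem Ctr.exc1 [Finite V] (c : Ctr G U h p q) : Exc1 (foldG G h p q) (U \ {h, q}) p where
  notMem := fun Y hY κ hb h3 => c.notMem hY hb h3
  exc := by
    intro Y hY κ hb h3
    have hp := c.notMem hY hb h3.le
    have h4 := c.rho hY hp
    rcases c.cases hY hb hp h3 with h5 | ⟨-, -, h5⟩
    · omega
    · omega
  off := by
    intro Y hY κ hb hp hpN h3 h4
    have hYU : Y ⊆ U := fun v hv => (hY hv).1
    have hq : q ∉ Nb G Y := fun h5 => hpN (c.nb_of_mem hY hp h5).1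
    have e := c.nb_of_not hY hp hq
    have h5 := c.rho hY hp
    have h6 := gmin_P12 c.gmin hYU (c.bal hY hb hp) (by rw [← e]; exact h3) (by rw [← e]; exact h4)
    rw [← e, beta_congr (κ' := κ) (fun x hx => colQ_ne (fun h9 => q_notMem_nb1 (h9 ▸ hx)))] at h6
    omega

/-- What is known about a dense set of the contraction. -/
structure DInfo (G : SimpleGraph V) (h p q : V) (Y : Set V) (κ κ' : V → ZMod 2) : Prop where
  pY : p ∉ Y
  pN : p ∈ Nb (foldG G h p q) Y
  nb : Nb G Y = insert q (Nb (foldG G h p q) Y)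
  hN : h ∉ Nb G Y
  bal : PB G κ' Y
  kq : κ' q = κ p
  kne : ∀ v, v ≠ q → κ' v = κ v
  fd : fden G Y = fden (foldG G h p q) Y
  exc : fden (foldG G h p q) Y = beta κ (Nb (foldG G h p q) Y) + 1
  ncod : ∀ y ∈ Y, ¬ (G.Adj p y ∧ G.Adj q y)

theorem Ctr.dinfo [Finite V] (c : Ctr G U h p q) {Y : Set V} {κ : V → ZMod 2}
    (hd : Dns (foldG G h p q) (U \ {h, q}) Y κ) : ∃ κ', DInfo G h p q Y κ κ' := by
  have hY := hd.sub
  have hb := hd.bal
  have h3 := hd.three
  have hden := hd.dense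
  have hp := c.notMem hY hb h3.le
  have h4 := c.rho hY hp
  rcases c.cases hY hb hp h3 with h5 | ⟨hpN, hnb, h5⟩
  · omega
  · have h6 : ({w | w ∈ Y ∧ G.Adj p w ∧ G.Adj q w} : Set V).ncard = 0 := by omega
    rw [Set.ncard_eq_zero (Set.toFinite _), Set.eq_empty_iff_forall_notMem] at h6
    refine ⟨colQ p q κ, hp, hpN, hnb, c.hN hY hp, c.bal hY hb hp, colQ_q, fun v hv => colQ_ne hv,
      ?_, ?_, fun y hy h7 => h6 y ⟨hy, h7⟩⟩
    · omega
    · omega

end Pool.Agent.Helper20.HD
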