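import Pool.Agent.Helper20.HD.Defs
import Pool.Agent.Helper51.W2.Dup3
import Pool.Agent.Helper95.HD.Dns

/-!
# Deletion of parallel handles (helpers 51, 95)
-/

set_option autoImplicit false

namespace Pool.Agent.Helper20.HD

open SimpleGraph Pool.Agent.Helper57.TOK Pool.Agent.Helper57.TD Pool.Agent.Helper57.TOP
  Pool.Agent.Helper82.TK

variable {V : Type*} {G : SimpleGraph V} {U : Set V} {p : V}

theorem PreD.exists_dup [Finite V] (hp : PreD G U p) : ∃ D : Set V, DupOK G U p D :=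
  Pool.Agent.Helper51.W2.exists_dup hp

theorem DupOK.notMem [Finite V] {D : Set V} (hD : DupOK G U p D) (_hp : PreD G U p)
    (he : Exc1 G U p) {Y' : Set V} {κ' : V → ZMod 2} (hY : Y' ⊆ U \ D)
    (hb : PB (delS G D) κ' Y') (h3 : (Nb (delS G D) Y').ncard ≤ 3) : p ∉ Y' :=
  Pool.Agent.Helper51.W2.dup_notMem hD he hY hb h3

theorem DupOK.dns [Finite V] {D : Set V} (hD : DupOK G U p D) (hp : PreD G U p)
    (he : Exc1 G U p) {Y' : Set V} {κ' : V → ZMod 2}
    (hd : Dns (delS G D) (U \ D) Y' κ') :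
    p ∈ Nb (delS G D) Y' ∧ ∃ Y κ, DupDns G U p D Y' κ' Y κ :=
  Pool.Agent.Helper95.HD.DupOK.dns_of hD hp he hd (hD.notMem hp he hd.sub hd.bal hd.three.le)

end Pool.Agent.Helper20.HD
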