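import Pool.Agent.Helper20.HD.StubFold
import Pool.Agent.Helper20.HD.StubDense
import Pool.Agent.Helper20.HD.StubDup
import Pool.Agent.Helper82.RP.All

/-!
# Contraction of a handle: the conclusion
-/

set_option autoImplicit false

namespace Pool.Agent.Helper20.HD

open SimpleGraph Pool.Agent.Helper57.TOK Pool.Agent.Helper57.TD Pool.Agent.Helper57.TOP
  Pool.Agent.Helper82.TK

variable {V : Type*} {G : SimpleGraph V} {U : Set V} {h p q : V}

/-- Dense sets touch after the deletion of parallel handles. -/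
lemma touch_dup {G : SimpleGraph V} {U D : Set V} {p : V} (hD : DupOK G U p D)
    {Y1 Y2 Y1' Y2' : Set V} {κ1 κ2 κ1' κ2' : V → ZMod 2}
    (d1 : DupDns G U p D Y1' κ1' Y1 κ1) (d2 : DupDns G U p D Y2' κ2' Y2 κ2)
    (hp1 : p ∉ Y1) (hp2 : p ∉ Y2) (hx1 : ∀ v ∈ Y1', v ∉ D) (hx2 : ∀ v ∈ Y2', v ∉ D)
    (ht : Touch G Y1 Y2) : Touch (delS G D) Y1' Y2' := by
  -- the ends of a deleted handle
  have key : ∀ d x, d ∈ D → Hand G d p x → x ∉ D := by
    intro d x hd hx
    obtain ⟨d', x', -, -, -, hx'D, -, h1, -⟩ := hD.twin d hd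
    have h2 : x' ∈ ({p, x} : Set V) := by rw [← hx.nb, h1.nb]; exact Or.inr rfl
    rcases h2 with h2 | h2
    · exact absurd h2 h1.ne.symm
    · rw [Set.mem_singleton_iff] at h2
      rw [← h2]; exact hx'D
  rcases ht with ⟨v, hv1, hv2⟩ | ⟨u, v, hu, hv, huv⟩
  · by_cases h1 : v ∈ Y1'
    · by_cases h2 : v ∈ Y2'
      · exact Or.inl ⟨v, h1, h2⟩
      · exact absurd (d2.new v hv2 h2).1 (hx1 v h1)
    · obtain ⟨hvD, x, hx, hxh⟩ := d1.new v hv1 h1
      have h2 : v ∉ Y2' := fun h3 => hx2 v h3 hvD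
      obtain ⟨-, x', hx', hxh'⟩ := d2.new v hv2 h2
      have h3 : x' ∈ ({p, x} : Set V) := by rw [← hxh.nb, hxh'.nb]; exact Or.inr rfl
      rcases h3 with h3 | h3
      · exact absurd h3 hxh'.ne.symm
      · rw [Set.mem_singleton_iff] at h3
        exact Or.inl ⟨x, hx, h3 ▸ hx'⟩
  · by_cases h1 : u ∈ Y1'
    · by_cases h2 : v ∈ Y2'
      · exact Or.inr ⟨u, v, h1, h2, huv, hx1 u h1, hx2 v h2⟩
      · obtain ⟨hvD, x, hx, hxh⟩ := d2.new v hv h2
        rcases hxh.adj.1 huv.symm with h3 | h3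
        · exact absurd (h3 ▸ hu) hp1
        · exact Or.inl ⟨u, h1, h3 ▸ hx⟩
    · obtain ⟨huD, x, hx, hxh⟩ := d1.new u hu h1
      rcases hxh.adj.1 huv with h3 | h3
      · exact absurd (h3 ▸ hv) hp2
      · subst h3
        by_cases h2 : v ∈ Y2'
        · exact Or.inl ⟨v, hx, h2⟩
        · exact absurd (d2.new v hv h2).1 (key u v huD hxh)

/-- **The contraction theorem.** -/
theorem Ctr.false [Finite V] (c : Ctr G U h p q) (hcut : HCut G U h p q)
    (htouch : ∀ Y1 κ1 Y2 κ2, Dns (foldG G h p q) (U \ {h, q}) Y1 κ1 →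
      Dns (foldG G h p q) (U \ {h, q}) Y2 κ2 → Touch (foldG G h p q) Y1 Y2)
    (hcod : (cod G h p q).ncard ≤ 1 ∨ ((cod G h p q).ncard ≤ 2 ∧
      ¬ ∃ Y κ, Dns (foldG G h p q) (U \ {h, q}) Y κ)) : False := by
  classical
  have hp := c.preD hcut
  have he := c.exc1
  obtain ⟨D, hD⟩ := hp.exists_dup
  have hcE := c.card_edges
  have hcU := c.card_U
  set G1 := foldG G h p q with hG1
  set U1 : Set V := U \ {h, q} with hU1
  have hcD := hD.card
  have hcU' : (U1 \ D).ncard + D.ncard = U1.ncard :=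
    Set.ncard_sdiff_add_ncard_of_subset hD.sub (Set.toFinite _)
  have hdens := c.gmin.ex.dens
  rw [odG_one] at hdens
  have hdn : ∀ Y' κ', Dense3 (delS G1 D) (U1 \ D) Y' κ' →
      ∃ Y κ, DupDns G1 U1 p D Y' κ' Y κ := fun Y' κ' hd =>
    (hD.dns hp he ⟨hd.sub, hd.bal, hd.three, hd.dense⟩).2
  have hcase : 2 * (U1 \ D).ncard ≤ (delS G1 D).edgeSet.ncard + (cod G h p q).ncard := by omega
  have hcase' : 2 * ((U1 \ D).ncard : ℤ) ≤ ((delS G1 D).edgeSet.ncard : ℤ) +
      ((cod G h p q).ncard : ℤ) := by exact_mod_cast hcase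
  have hInd : Pool.Agent.Helper82.RP.Ind2 (delS G1 D) := by
    intro w κ hκ
    have hw : NB2 (delS G1 D) w w := by
      by_cases h1 : w = p
      · rw [h1]; exact hD.preD.idxp
      · exact hD.preD.idx w w h1 h1
    exact hw κ (fun a b ha _ hb _ hab => hκ a b ha hb hab)
  have hPack : Pool.Agent.Helper82.RP.Pack (delS G1 D) (U1 \ D) := by
    intro L hL hpair
    match L, hL, hpair with
    | [], _, _ =>
      simp only [List.map_nil, List.sum_nil]
      have h1 : ((cod G h p q).ncard : ℤ) ≤ 2 := by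
        rcases hcod with h1 | ⟨h1, -⟩
        · have : (cod G h p q).ncard ≤ 2 := by omega
          exact_mod_cast this
        · exact_mod_cast h1
      linarith
    | [s], hL, _ =>
      simp only [List.map_cons, List.map_nil, List.sum_cons, List.sum_nil]
      have hd := hL s (by simp)
      obtain ⟨Y, κ, h2⟩ := hdn s.1 s.2 hd
      have h1 : ((cod G h p q).ncard : ℤ) ≤ 1 := by
        rcases hcod with h1 | ⟨-, h1⟩
        · exact_mod_cast h1
        · exact absurd ⟨Y, κ, h2.dns⟩ h1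
      have h3 := he.exc Y h2.dns.sub κ h2.dns.bal h2.dns.three
      rw [h2.fd, h2.bt] at h3
      unfold Pool.Agent.Helper82.RP.exc
      linarith
    | s :: t :: L', hL, hpair =>
      exfalso
      have hs := hL s (by simp)
      have ht := hL t (by simp)
      obtain ⟨hn1, hn2⟩ := (List.pairwise_cons.1 hpair).1 t (by simp)
      obtain ⟨Y1, κ1, e1⟩ := hdn s.1 s.2 hs
      obtain ⟨Y2, κ2, e2⟩ := hdn t.1 t.2 ht
      have h1 := touch_dup hD e1 e2 (he.notMem Y1 e1.dns.sub κ1 e1.dns.bal e1.dns.three.le)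
        (he.notMem Y2 e2.dns.sub κ2 e2.dns.bal e2.dns.three.le)
        (fun v hv => (hs.sub hv).2) (fun v hv => (ht.sub hv).2)
        (htouch _ _ _ _ e1.dns e2.dns)
      rw [Set.disjoint_left] at hn1 hn2
      rcases h1 with ⟨v, hv1, hv2⟩ | ⟨u, v, hu, hv, huv⟩
      · exact hn1 hv1 hv2
      · exact hn2 hu ⟨hn1 hu, v, hv, huv.symm⟩
  have hT := Pool.Agent.Helper82.RP.rep_all c.gmin (by omega) hD.pre hInd hPack
  exact c.gmin.bad (c.lift (HasTOK4s.mono (delS_le G1 D) (fun _ _ => rfl) hT))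

end Pool.Agent.Helper20.HD
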