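import Pool.Agent.Helper82.TK.HCases
import Pool.Agent.Helper57.TOK.SubFold

/-!
# Contraction of a handle: definitions

`Ctr G U h p q`: a minimal counterexample with a vertex `h` of degree two, with neighbours `p`, `q`,
which are not adjacent. The contraction is `foldG G h p q` on `U \ {h, q}`.
-/

set_option autoImplicit false

namespace Pool.Agent.Helper20.HD

open SimpleGraph Pool.Agent.Helper57.TOK Pool.Agent.Helper57.TD Pool.Agent.Helper57.TOP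
  Pool.Agent.Helper82.TK

variable {V : Type*}

/-- `G - z1 - z2` is not balanced. -/
def NB2 (G : SimpleGraph V) (z1 z2 : V) : Prop :=
  ∀ κ : V → ZMod 2, ¬ ∀ u v, u ≠ z1 → u ≠ z2 → v ≠ z1 → v ≠ z2 → G.Adj u v → κ u ≠ κ v

/-- The data of a contraction. -/
structure Ctr (G : SimpleGraph V) (U : Set V) (h p q : V) : Prop where
  gmin : GMin G U
  hU : h ∈ U
  hand : Hand G h p q
  npq : ¬ G.Adj p q

/-- Common neighbours of `p` and `q` other than `h`. -/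
def cod (G : SimpleGraph V) (h p q : V) : Set V := {w | w ≠ h ∧ G.Adj p w ∧ G.Adj q w}

/-- A dense balanced set with three neighbours. -/
structure Dns (G : SimpleGraph V) (U Y : Set V) (κ : V → ZMod 2) : Prop where
  sub : Y ⊆ U
  bal : PB G κ Y
  three : (Nb G Y).ncard = 3
  dense : beta κ (Nb G Y) < fden G Y

/-- Two sets meet or touch. -/
def Touch (G : SimpleGraph V) (Y1 Y2 : Set V) : Prop :=
  (∃ v, v ∈ Y1 ∧ v ∈ Y2) ∨ ∃ u v, u ∈ Y1 ∧ v ∈ Y2 ∧ G.Adj u v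

/-- No 3-cut `{p, q, x}` (in `G - h`) has a vertex of degree at least three on both sides. -/
def HCut (G : SimpleGraph V) (U : Set V) (h p q : V) : Prop :=
  ∀ (x : V) (X1 X2 : Set V), X1 ⊆ U → X2 ⊆ U →
    (∀ v ∈ X1, v ≠ h ∧ v ≠ p ∧ v ≠ q ∧ v ≠ x) → (∀ v ∈ X2, v ≠ h ∧ v ≠ p ∧ v ≠ q ∧ v ≠ x) →
    Disjoint X1 X2 → (∀ v ∈ U, v ∈ X1 ∨ v ∈ X2 ∨ v = h ∨ v = p ∨ v = q ∨ v = x) →
    (∀ a ∈ X1, ∀ b ∈ X2, ¬ G.Adj a b) →
    (∃ r ∈ X1, 3 ≤ (G.neighborSet r).ncard) → (∃ r ∈ X2, 3 ≤ (G.neighborSet r).ncard) → False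

/-- Connected up to parallel handles at `p`; index at least three for pairs which avoid `p`. -/
structure PreD (G : SimpleGraph V) (U : Set V) (p : V) : Prop where
  pU : p ∈ U
  edge_mem : ∀ u v, G.Adj u v → u ∈ U
  deg2 : ∀ y ∈ U, 2 ≤ (G.neighborSet y).ncard
  idx : ∀ z1 z2, z1 ≠ p → z2 ≠ p → NB2 G z1 z2
  idxp : NB2 G p p
  conn : ∀ Y ⊆ U, 2 ≤ Y.ncard → (Nb G Y).ncard ≤ 2 → 2 ≤ (U \ (Y ∪ Nb G Y)).ncard →
    ∃ h1 h2 x, h1 ≠ h2 ∧ Hand G h1 p x ∧ Hand G h2 p x ∧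
      (Y = {h1, h2} ∨ U \ (Y ∪ Nb G Y) = {h1, h2})

/-- Delete a set of vertices (they become isolated). -/
def delS (G : SimpleGraph V) (D : Set V) : SimpleGraph V where
  Adj x y := G.Adj x y ∧ x ∉ D ∧ y ∉ D
  symm := ⟨fun _ _ hxy => ⟨hxy.1.symm, hxy.2.2, hxy.2.1⟩⟩
  loopless := ⟨fun _ hx => hx.1.ne rfl⟩

lemma delS_adj {G : SimpleGraph V} {D : Set V} {x y : V} :
    (delS G D).Adj x y ↔ G.Adj x y ∧ x ∉ D ∧ y ∉ D := Iff.rfl

lemma delS_le (G : SimpleGraph V) (D : Set V) : delS G D ≤ G := fun _ _ hxy => hxy.1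

/-- One handle of every pair of parallel handles has been deleted. -/
structure DupOK (G : SimpleGraph V) (U : Set V) (p : V) (D : Set V) : Prop where
  sub : D ⊆ U
  pD : p ∉ D
  twin : ∀ d ∈ D, ∃ d' x, d' ∈ U ∧ d' ∉ D ∧ x ∈ U ∧ x ∉ D ∧ d ≠ d' ∧ Hand G d p x ∧ Hand G d' p x
  card : (delS G D).edgeSet.ncard + 2 * D.ncard = G.edgeSet.ncard
  pre : Pre2 (delS G D) (U \ D)
  preD : PreD (delS G D) (U \ D) p

/-- The facts about balanced sets with few neighbours in a contraction. -/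
structure Exc1 (G : SimpleGraph V) (U : Set V) (p : V) : Prop where
  notMem : ∀ Y ⊆ U, ∀ κ, PB G κ Y → (Nb G Y).ncard ≤ 3 → p ∉ Y
  exc : ∀ Y ⊆ U, ∀ κ, PB G κ Y → (Nb G Y).ncard = 3 → fden G Y ≤ beta κ (Nb G Y) + 1
  off : ∀ Y ⊆ U, ∀ κ, PB G κ Y → p ∉ Y → p ∉ Nb G Y → 3 ≤ (Nb G Y).ncard →
    (Nb G Y).ncard ≤ 4 → fden G Y ≤ beta κ (Nb G Y)

/-- The dense sets after the deletion of parallel handles. -/
structure DupDns (G : SimpleGraph V) (U : Set V) (p : V) (D Y' : Set V) (κ' : V → ZMod 2)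
    (Y : Set V) (κ : V → ZMod 2) : Prop where
  dns : Dns G U Y κ
  sub : Y' ⊆ Y
  new : ∀ d ∈ Y, d ∉ Y' → d ∈ D ∧ ∃ x ∈ Y', Hand G d p x
  nb : Nb G Y = Nb (delS G D) Y'
  fd : fden G Y = fden (delS G D) Y'
  bt : beta κ (Nb G Y) = beta κ' (Nb (delS G D) Y')

/-- The hypotheses of the final replacement. -/
structure RepFin (G : SimpleGraph V) (U : Set V) (p : V) : Prop where
  pre : Pre2 G U
  idx : ∀ z1 z2, z1 ≠ p → z2 ≠ p → NB2 G z1 z2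
  idxp : NB2 G p p
  dens : 2 * U.ncard ≤ G.edgeSet.ncard + 1
  notMem : ∀ Y ⊆ U, ∀ κ, PB G κ Y → (Nb G Y).ncard ≤ 3 → p ∉ Y
  exc : ∀ Y ⊆ U, ∀ κ, PB G κ Y → (Nb G Y).ncard = 3 → fden G Y ≤ beta κ (Nb G Y) + 1
  mem : ∀ Y κ, Dns G U Y κ → p ∈ Nb G Y
  touch : ∀ Y1 κ1 Y2 κ2, Dns G U Y1 κ1 → Dns G U Y2 κ2 → Touch G Y1 Y2

end Pool.Agent.Helper20.HD
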