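import Pool.Agent.Helper20.HD.Mix4b
import Pool.Agent.Helper20.HD.Contract
import Pool.Agent.Helper41.F2.Close

/-!
# Mixed cuts with two vertices of degree at least three on both sides do not exist
-/

set_option autoImplicit false

namespace Pool.Agent.Helper20.HD

open SimpleGraph Pool.Agent.Helper57.TOK Pool.Agent.Helper57.TD Pool.Agent.Helper57.TOP
  Pool.Agent.Helper82.TK

variable {V : Type*} {G : SimpleGraph V} {U : Set V} {h p q a b : V} {A B : Set V}

/-- Dense sets of the contraction, seen in `G`. -/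
theorem Ctr.dg [Finite V] (c : Ctr G U h p q) {Y : Set V} {κ : V → ZMod 2}
    (hd : Dns (foldG G h p q) (U \ {h, q}) Y κ) : ∃ κ' n2 n3, DG G U h p q Y κ' n2 n3 := by
  classical
  obtain ⟨κ', d⟩ := c.dinfo hd
  have h3 := hd.three
  -- the vertices `h`, `q` are isolated in the contraction
  have hiso : ∀ {v : V}, v ∈ Nb (foldG G h p q) Y → v ≠ h ∧ v ≠ q := by
    rintro v ⟨-, u, -, huv⟩
    have h1 := foldG_adj.1 huv
    exact ⟨h1.2.2.1, h1.2.2.2.2.1⟩
  obtain ⟨n2, n3, h23, hN⟩ : ∃ n2 n3, n2 ≠ n3 ∧ Nb (foldG G h p q) Y \ {p} = {n2, n3} := by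
    have h4 := Set.ncard_sdiff_singleton_add_one d.pN (Set.toFinite _)
    exact Set.ncard_eq_two.1 (by omega)
  have hn2 : n2 ∈ Nb (foldG G h p q) Y \ {p} := by rw [hN]; exact Or.inl rfl
  have hn3 : n3 ∈ Nb (foldG G h p q) Y \ {p} := by rw [hN]; exact Or.inr rfl
  have hN1 : Nb (foldG G h p q) Y = {p, n2, n3} := by
    ext v
    constructor
    · intro hv
      by_cases h4 : v = p
      · exact Or.inl h4
      · right
        rw [← hN]
        exact ⟨hv, h4⟩
    · rintro (h4 | h4)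
      · rw [h4]; exact d.pN
      · rw [← hN] at h4
        exact h4.1
  have e2 := hiso hn2.1
  have e3 := hiso hn3.1
  have hpq := c.hand.ne
  have kp : κ' p = κ p := d.kne p hpq
  have k2 : κ' n2 = κ n2 := d.kne n2 e2.2
  have k3 : κ' n3 = κ n3 := d.kne n3 e3.2
  have hfd := d.fd
  have hexc := d.exc
  refine ⟨κ', n2, n3, ?_⟩
  refine ⟨fun v hv => (hd.sub hv).1, fun h4 => (hd.sub h4).2 (Or.inl rfl), d.pY,
    fun h4 => (hd.sub h4).2 (Or.inr rfl), ?_, h23, hn2.2, e2.2, e2.1, hn3.2, e3.2, e3.1, d.bal,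
    ?_, ?_, ?_, d.ncod⟩
  · rw [d.nb, hN1, Set.insert_comm]
  · rw [kp, d.kq]
  · rw [hfd, hexc]
    by_cases hm : Mono κ (Nb (foldG G h p q) Y)
    · rw [beta_of_mono hm, h3]; norm_num
    · rw [beta_of_not_mono hm, h3]; norm_num
  · intro h4 h5
    have hm : Mono κ (Nb (foldG G h p q) Y) := by
      rw [kp, k2] at h4
      rw [kp, k3] at h5
      rw [hN1]
      have key : ∀ v ∈ ({p, n2, n3} : Set V), κ v = κ p := by
        rintro v (h6 | h6 | h6)
        · rw [h6]
        · rw [h6, ← h4]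
        · rw [Set.mem_singleton_iff] at h6
          rw [h6, ← h5]
      intro x hx y hy
      rw [key x hx, key y hy]
    rw [hfd, hexc, beta_of_mono hm, h3]; norm_num

/-- Two dense sets which contain neither `a` nor `b` touch. -/
lemma M4.tn_touch [Finite V] (m : M4 G U h p q a b A B) {Y1 Y2 : Set V} {κ1 κ2 : V → ZMod 2}
    (hb1 : PB G κ1 Y1) (hb2 : PB G κ2 Y2) (t1 : TN G p q a b A B Y1 κ1)
    (t2 : TN G p q a b A B Y2 κ2) : Touch G Y1 Y2 := by
  classical
  by_contra hcon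
  unfold Touch at hcon
  push Not at hcon
  obtain ⟨hdis, hno⟩ := hcon
  set Q1 := Y1 ∩ A with hQ1
  set Q2 := Y2 ∩ A with hQ2
  have hd : Disjoint Q1 Q2 := by
    rw [Set.disjoint_left]
    intro x hx hx'
    exact hdis x hx.1 hx'.1
  have hE : EBet G Q1 Q2 = ∅ := by
    ext e
    constructor
    · rintro ⟨x, hx, y, hy, hxy, -⟩
      exact absurd hxy (hno x y hx.1 hy.1)
    · intro h1
      exact absurd h1 (Set.notMem_empty e)
  have hf := fden_union_of_disjoint G hd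
  rw [hE, Set.ncard_empty, t1.fA, t2.fA] at hf
  -- neighbours
  have hmem : ∀ {v : V}, v ∈ ({p, a, b} : Set V) → v ∉ Q1 ∧ v ∉ Q2 := by
    intro v hv
    constructor
    · rw [← t1.nA] at hv; exact hv.1
    · rw [← t2.nA] at hv; exact hv.1
  have hN : Nb G (Q1 ∪ Q2) = {p, a, b} := by
    ext v
    constructor
    · rintro ⟨hv, u, hu | hu, huv⟩
      · rw [← t1.nA]
        exact ⟨fun h1 => hv (Or.inl h1), u, hu, huv⟩
      · rw [← t2.nA]
        exact ⟨fun h1 => hv (Or.inr h1), u, hu, huv⟩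
    · intro hv
      have h1 := hmem hv
      rw [← t1.nA] at hv
      obtain ⟨-, u, hu, huv⟩ := hv
      exact ⟨fun h2 => h2.elim h1.1 h1.2, u, Or.inl hu, huv⟩
  have hc : (Nb G (Q1 ∪ Q2)).ncard = 3 := by
    rw [hN, Set.ncard_insert_of_notMem, Set.ncard_pair m.m.ab]
    rintro (h1 | h1)
    · exact m.ap h1.symm
    · exact m.bp (Set.mem_singleton_iff.1 h1).symm
  -- colours
  have hcol1 : ∀ v ∈ ({p, a, b} : Set V), κ1 v = κ1 p := by
    rintro v (h1 | h1 | h1)
    · rw [h1]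
    · rw [h1]; exact t1.ka.symm
    · rw [Set.mem_singleton_iff] at h1
      rw [h1]; exact t1.kb.symm
  have hcol2 : ∀ v ∈ ({p, a, b} : Set V), κ2 v = κ2 p := by
    rintro v (h1 | h1 | h1)
    · rw [h1]
    · rw [h1]; exact t2.ka.symm
    · rw [Set.mem_singleton_iff] at h1
      rw [h1]; exact t2.kb.symm
  have hbal : PB G (fun v => if v ∈ Q2 then κ2 v + (κ1 p + κ2 p) else κ1 v) (Q1 ∪ Q2) := by
    rintro u v (hu | hu) huv
    · have h1 : u ∉ Q2 := fun h2 => Set.disjoint_left.1 hd hu h2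
      have h2 : v ∉ Q2 := fun h3 => hno u v hu.1 h3.1 huv
      show (if u ∈ Q2 then _ else _) ≠ (if v ∈ Q2 then _ else _)
      rw [if_neg h1, if_neg h2]
      exact hb1 u v hu.1 huv
    · show (if u ∈ Q2 then _ else _) ≠ (if v ∈ Q2 then _ else _)
      rw [if_pos hu]
      have h1 := hb2 u v hu.1 huv
      by_cases h2 : v ∈ Q2
      · rw [if_pos h2]
        exact fun h3 => h1 (add_right_cancel h3)
      · rw [if_neg h2]
        have h3 : v ∈ Nb G Q2 := ⟨h2, u, hu, huv⟩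
        rw [t2.nA] at h3
        have e1 := hcol1 v h3
        have e2 := hcol2 v h3
        rw [e1]
        rw [e2] at h1
        have key : ∀ x y z : ZMod 2, x ≠ z → x + (y + z) ≠ y := by decide
        exact key _ _ _ h1
  have hsub : Q1 ∪ Q2 ⊆ U := by
    rintro v (h1 | h1)
    · exact m.m.AU h1.2
    · exact m.m.AU h1.2
  have h1 := gmin_P1 m.gmin hsub hbal hc
  have h2 := beta_le (fun v => if v ∈ Q2 then κ2 v + (κ1 p + κ2 p) else κ1 v) (Nb G (Q1 ∪ Q2))
  rw [hc] at h2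
  push_cast at hf h2
  linarith

/-- All dense sets of the contraction touch. -/
theorem M4.touch [Finite V] (m : M4 G U h p q a b A B) {Y1 Y2 : Set V} {κ1 κ2 : V → ZMod 2}
    (h1 : Dns (foldG G h p q) (U \ {h, q}) Y1 κ1) (h2 : Dns (foldG G h p q) (U \ {h, q}) Y2 κ2) :
    Touch (foldG G h p q) Y1 Y2 := by
  classical
  obtain ⟨κ1', n2, n3, d1⟩ := m.ctr.dg h1
  obtain ⟨κ2', n2', n3', d2⟩ := m.ctr.dg h2
  -- touching in `G` implies touching in the contraction
  have hlift : Touch G Y1 Y2 → Touch (foldG G h p q) Y1 Y2 := by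
    rintro (⟨v, hv1, hv2⟩ | ⟨u, v, hu, hv, huv⟩)
    · exact Or.inl ⟨v, hv1, hv2⟩
    · refine Or.inr ⟨u, v, hu, hv, foldG_adj.2 ⟨huv.ne, ?_, ?_, ?_, ?_, Or.inl huv⟩⟩
      · exact fun h3 => d1.hY (h3 ▸ hu)
      · exact fun h3 => d2.hY (h3 ▸ hv)
      · exact fun h3 => d1.qY (h3 ▸ hu)
      · exact fun h3 => d2.qY (h3 ▸ hv)
  apply hlift
  have key : ∀ {x : V}, x ∈ Y1 → (x ∈ Y2 ∨ x ∈ Nb G Y2) → Touch G Y1 Y2 := by
    rintro x hx (h3 | ⟨-, u, hu, hux⟩)
    · exact Or.inl ⟨x, hx, h3⟩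
    · exact Or.inr ⟨x, u, hx, hu, hux.symm⟩
  have key' : ∀ {x : V}, x ∈ Y2 → (x ∈ Y1 ∨ x ∈ Nb G Y1) → Touch G Y1 Y2 := by
    rintro x hx (h3 | ⟨-, u, hu, hux⟩)
    · exact Or.inl ⟨x, h3, hx⟩
    · exact Or.inr ⟨u, x, hu, hx, hux⟩
  by_cases a1 : a ∈ Y1
  · exact key a1 (m.covA d2)
  by_cases a2 : a ∈ Y2
  · exact key' a2 (m.covA d1)
  by_cases b1 : b ∈ Y1
  · exact key b1 (m.swapab.covA d2)
  by_cases b2 : b ∈ Y2
  · exact key' b2 (m.swapab.covA d1)
  exact m.tn_touch d1.bal d2.bal (m.claimB d1 a1 b1) (m.claimB d2 a2 b2)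

lemma M4.cod_sub [Finite V] (m : M4 G U h p q a b A B) : cod G h p q ⊆ {a, b} := by
  rintro w ⟨hwh, hpw, hqw⟩
  have hwU := m.gmin.ex.edge_mem w p hpw.symm
  rcases m.m.cover w hwU with h1 | h1 | h1 | h1 | h1
  · exact absurd hqw.symm (m.no_AB h1 m.m.qB)
  · exact absurd hpw (m.no_AB m.m.pA h1)
  · exact Or.inl h1
  · exact Or.inr h1
  · exact absurd h1 hwh

/-- A part of type N contains a vertex adjacent to all three neighbours. -/
lemma M4.exists_centre [Finite V] (m : M4 G U h p q a b A B) {Y : Set V} {κ : V → ZMod 2}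
    (hb : PB G κ Y) (hN : Nb G (Y ∩ A) = {p, a, b}) (hf : fden G (Y ∩ A) = 1) :
    ∃ s ∈ Y ∩ A, G.Adj s p ∧ G.Adj s a ∧ G.Adj s b := by
  classical
  set Q := Y ∩ A with hQ
  have hQU : Q ⊆ U := fun v hv => m.m.AU hv.2
  have hbQ : PB G κ Q := hb.mono Set.inter_subset_left
  have hc : (Nb G Q).ncard = 3 := by
    rw [hN, Set.ncard_insert_of_notMem, Set.ncard_pair m.m.ab]
    rintro (h1 | h1)
    · exact m.ap h1.symm
    · exact m.bp (Set.mem_singleton_iff.1 h1).symm
  have hreal : ∃ s ∈ Q, 3 ≤ (G.neighborSet s).ncard := by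
    by_contra hno
    push Not at hno
    have := fden_le_zero_of_deg (G := G) (Z := Q) (fun x hx => by have := hno x hx; omega)
    omega
  obtain ⟨s, hs, hs3⟩ := hreal
  have huniq : ∀ z ∈ Q, z ≠ s → (G.neighborSet z).ncard ≤ 2 := by
    intro z hz hzs
    by_contra hlt
    push Not at hlt
    exact gmin_no_two_real m.gmin hQU hbQ hc.le hz hs hzs (by omega) hs3
  have hQ' : Q = insert s (Q \ {s}) := by
    rw [Set.insert_sdiff_singleton, Set.insert_eq_of_mem hs]
  have h1 : fden G (Q \ {s}) ≤ 0 := fden_le_zero_of_deg (fun z hz => huniq z hz.1 hz.2)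
  have h2 : fden G Q = fden G (Q \ {s}) + ((G.neighborSet s \ (Q \ {s})).ncard : ℤ) - 2 := by
    conv_lhs => rw [hQ']
    exact fden_insert G (fun hh => hh.2 rfl)
  have h3 : G.neighborSet s \ (Q \ {s}) ⊆ Nb G Q := by
    rintro z ⟨hz, hzQ⟩
    have hsz : G.Adj s z := hz
    exact ⟨fun hh => hzQ ⟨hh, hsz.ne'⟩, s, hs, hsz⟩
  have h4 : 3 ≤ (G.neighborSet s \ (Q \ {s})).ncard := by
    have : (3 : ℤ) ≤ ((G.neighborSet s \ (Q \ {s})).ncard : ℤ) := by linarith
    exact_mod_cast this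
  have h5 : G.neighborSet s \ (Q \ {s}) = Nb G Q :=
    Set.eq_of_subset_of_ncard_le h3 (by omega) (Set.toFinite _)
  have h6 : ∀ v ∈ ({p, a, b} : Set V), G.Adj s v := by
    intro v hv
    rw [← hN, ← h5] at hv
    exact hv.1
  exact ⟨s, hs, h6 p (Or.inl rfl), h6 a (Or.inr (Or.inl rfl)), h6 b (Or.inr (Or.inr rfl))⟩

/-- Two common neighbours: no dense set. -/
lemma M4.no_dense_cod [Finite V] (m : M4 G U h p q a b A B) (hpa : G.Adj p a) (hpb : G.Adj p b)
    (hqa : G.Adj q a) (hqb : G.Adj q b) :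
    ¬ ∃ Y κ, Dns (foldG G h p q) (U \ {h, q}) Y κ := by
  classical
  rintro ⟨Y, κ, hd⟩
  obtain ⟨κ', n2, n3, d⟩ := m.ctr.dg hd
  have ha : a ∉ Y := fun h1 => d.ncod a h1 ⟨hpa, hqa⟩
  have hb : b ∉ Y := fun h1 => d.ncod b h1 ⟨hpb, hqb⟩
  have t := m.claimB d ha hb
  obtain ⟨s, hs, hsp, hsa, hsb⟩ := m.exists_centre d.bal t.nA t.fA
  obtain ⟨s', hs', hs'q, hs'a, hs'b⟩ := m.swap.exists_centre d.bal t.nB t.fB
  apply m.gmin.bad
  have hss' : s ≠ s' := fun h1 => m.notB hs.2 (h1 ▸ hs'.2)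
  have hqs : q ≠ s := fun h1 => m.notB hs.2 (h1 ▸ m.m.qB)
  have hps' : p ≠ s' := fun h1 => m.notB m.m.pA (h1 ▸ hs'.2)
  -- the path `a q s' b`
  let Q : G.Walk a b := Walk.cons hqa.symm (Walk.cons hs'q.symm (Walk.cons hs'b Walk.nil))
  have hQs : Q.support = [a, q, s', b] := by
    simp [Q]
  have hQp : Q.IsPath := by
    rw [Walk.isPath_def, hQs]
    simp only [List.nodup_cons, List.mem_cons, List.not_mem_nil, or_false, not_or,
      List.nodup_nil, not_false_eq_true, and_true, and_self]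
    exact ⟨⟨m.aq, hs'a.ne', m.m.ab⟩, ⟨hs'q.ne', m.bq.symm⟩, hs'b.ne⟩
  have hQw : wt (One V) Q = 1 := by
    simp only [Q, wt_cons, wt_nil]
    show (1 + (1 + (1 + 0)) : ZMod 2) = 1
    decide
  have edge : ∀ {x y : V} (hxy : G.Adj x y), (Walk.cons hxy Walk.nil : G.Walk x y).IsPath ∧
      wt (One V) (Walk.cons hxy Walk.nil : G.Walk x y) = 1 := by
    intro x y hxy
    refine ⟨?_, ?_⟩
    · rw [Walk.cons_isPath_iff]
      refine ⟨Walk.IsPath.nil, ?_⟩
      simp [hxy.ne]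
    · simp only [wt_cons, wt_nil]
      show (1 + 0 : ZMod 2) = 1
      decide
  have esupp : ∀ {x y z : V} (hxy : G.Adj x y),
      z ∈ (Walk.cons hxy Walk.nil : G.Walk x y).support → z = x ∨ z = y := by
    intro x y z hxy hz
    simpa only [Walk.support_cons, Walk.support_nil, List.mem_cons, List.not_mem_nil,
      or_false] using hz
  refine Pool.Agent.Helper41.F2.tok_of_centre (ctr := p) (b2 := a) (b3 := b) (y := s) hpa rfl
    hpb rfl Q (Walk.cons hsp Walk.nil) (Walk.cons hsa Walk.nil) (Walk.cons hsb Walk.nil)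
    ⟨hQp, hQw⟩ (edge hsp) (edge hsa) (edge hsb) m.m.ab hsp.ne hsa.ne hsb.ne ?_ ?_ ?_ ?_ ?_ ?_
  · intro x hx hx'
    rcases esupp hsp hx with h1 | h1
    · exact h1
    · rcases esupp hsa hx' with h2 | h2
      · exact h2
      · exact absurd (h2.symm.trans h1) m.ap
  · intro x hx hx'
    rcases esupp hsp hx with h1 | h1
    · exact h1
    · rcases esupp hsb hx' with h2 | h2
      · exact h2
      · exact absurd (h2.symm.trans h1) m.bp
  · intro x hx hx'
    rcases esupp hsa hx with h1 | h1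
    · exact h1
    · rcases esupp hsb hx' with h2 | h2
      · exact h2
      · exact absurd (h1.symm.trans h2) m.m.ab
  · intro x hx hx'
    rw [hQs] at hx
    simp only [List.mem_cons, List.not_mem_nil, or_false] at hx
    rcases esupp hsp hx' with h1 | h1
    · rw [h1] at hx
      rcases hx with h2 | h2 | h2 | h2
      · exact hsa.ne h2
      · exact hqs h2.symm
      · exact hss' h2
      · exact hsb.ne h2
    · rw [h1] at hx
      rcases hx with h2 | h2 | h2 | h2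
      · exact m.ap h2.symm
      · exact m.pq h2
      · exact hps' h2
      · exact m.bp h2.symm
  · intro x hx hx'
    rw [hQs] at hx
    simp only [List.mem_cons, List.not_mem_nil, or_false] at hx
    rcases esupp hsa hx' with h1 | h1
    · rw [h1] at hx
      rcases hx with h2 | h2 | h2 | h2
      · exact h1.trans h2
      · exact absurd h2.symm hqs
      · exact absurd h2 hss'
      · exact absurd h2 hsb.ne
    · exact h1
  · intro x hx hx'
    rw [hQs] at hx
    simp only [List.mem_cons, List.not_mem_nil, or_false] at hx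
    rcases esupp hsb hx' with h1 | h1
    · rw [h1] at hx
      rcases hx with h2 | h2 | h2 | h2
      · exact absurd h2 hsa.ne
      · exact absurd h2.symm hqs
      · exact absurd h2 hss'
      · exact h1.trans h2
    · exact h1

theorem M4.false [Finite V] (m : M4 G U h p q a b A B) : False := by
  classical
  refine m.ctr.false m.hcut (fun Y1 κ1 Y2 κ2 h1 h2 => m.touch h1 h2) ?_
  by_cases hc : (cod G h p q).ncard ≤ 1
  · exact Or.inl hc
  · right
    have h1 := Set.ncard_le_ncard m.cod_sub (Set.toFinite _)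
    rw [Set.ncard_pair m.m.ab] at h1
    refine ⟨h1, ?_⟩
    have h2 : cod G h p q = {a, b} :=
      Set.eq_of_subset_of_ncard_le m.cod_sub (by rw [Set.ncard_pair m.m.ab]; omega)
        (Set.toFinite _)
    have ha : a ∈ cod G h p q := by rw [h2]; exact Or.inl rfl
    have hb : b ∈ cod G h p q := by rw [h2]; exact Or.inr rfl
    exact m.no_dense_cod ha.2.1 hb.2.1 ha.2.2 hb.2.2

/-- **Case (4).** -/
theorem mix4 [Finite V] (hM : GMin G U) (hm : Mix G U h p q a b A B) {r1 r2 : V}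
    (h1 : r1 ∈ A) (h1p : r1 ≠ p) (h1d : 3 ≤ (G.neighborSet r1).ncard) (h2 : r2 ∈ B)
    (h2q : r2 ≠ q) (h2d : 3 ≤ (G.neighborSet r2).ncard) : False :=
  M4.false ⟨hM, hm, ⟨r1, h1, h1p, h1d⟩, ⟨r2, h2, h2q, h2d⟩⟩

end Pool.Agent.Helper20.HD
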