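import Pool.Agent.Helper20.HD.Defs

/-!
# Mixed cuts with two vertices of degree at least three on both sides: structure and 3-cuts
-/

set_option autoImplicit false

namespace Pool.Agent.Helper20.HD

open SimpleGraph Pool.Agent.Helper57.TOK Pool.Agent.Helper57.TD Pool.Agent.Helper57.TOP
  Pool.Agent.Helper82.TK

variable {V : Type*}

/-- A mixed cut with a second vertex of degree at least three on both sides. -/
structure M4 (G : SimpleGraph V) (U : Set V) (h p q a b : V) (A B : Set V) : Prop where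
  gmin : GMin G U
  m : Mix G U h p q a b A B
  rA : ∃ r ∈ A, r ≠ p ∧ 3 ≤ (G.neighborSet r).ncard
  rB : ∃ r ∈ B, r ≠ q ∧ 3 ≤ (G.neighborSet r).ncard

variable {G : SimpleGraph V} {U : Set V} {h p q a b : V} {A B : Set V}

lemma M4.swap (m : M4 G U h p q a b A B) : M4 G U h q p a b B A :=
  ⟨m.gmin, m.m.swap, m.rB, m.rA⟩

lemma _root_.Pool.Agent.Helper82.TK.Mix.swapab (m : Mix G U h p q a b A B) :
    Mix G U h p q b a A B where
  hand := m.hand
  hU := m.hU
  AU := m.AU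
  BU := m.BU
  AB := m.AB
  hA := m.hA
  hB := m.hB
  ab := m.ab.symm
  pA := m.pA
  qB := m.qB
  A2 := m.A2
  B2 := m.B2
  NA := by rw [m.NA, Set.insert_comm]
  NB := by rw [m.NB, Set.insert_comm]
  cover := fun x hx => by
    rcases m.cover x hx with h1 | h1 | h1 | h1 | h1
    · exact Or.inl h1
    · exact Or.inr (Or.inl h1)
    · exact Or.inr (Or.inr (Or.inr (Or.inl h1)))
    · exact Or.inr (Or.inr (Or.inl h1))
    · exact Or.inr (Or.inr (Or.inr (Or.inr h1)))

lemma M4.swapab (m : M4 G U h p q a b A B) : M4 G U h p q b a A B :=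
  ⟨m.gmin, m.m.swapab, m.rA, m.rB⟩

lemma M4.aN (m : M4 G U h p q a b A B) : a ∈ Nb G A := by rw [m.m.NA]; exact Or.inl rfl

lemma M4.bN (m : M4 G U h p q a b A B) : b ∈ Nb G A := m.swapab.aN

lemma M4.aA (m : M4 G U h p q a b A B) : a ∉ A := m.aN.1

lemma M4.bA (m : M4 G U h p q a b A B) : b ∉ A := m.bN.1

lemma M4.aB (m : M4 G U h p q a b A B) : a ∉ B := m.swap.aA

lemma M4.bB (m : M4 G U h p q a b A B) : b ∉ B := m.swap.bA

lemma M4.notB (m : M4 G U h p q a b A B) {x : V} (hx : x ∈ A) : x ∉ B := fun h1 =>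
  Set.disjoint_left.1 m.m.AB hx h1

lemma M4.aU (m : M4 G U h p q a b A B) : a ∈ U := by
  obtain ⟨-, y, -, hy⟩ := m.aN
  exact m.gmin.ex.edge_mem a y hy.symm

lemma M4.bU (m : M4 G U h p q a b A B) : b ∈ U := m.swapab.aU

lemma M4.pU (m : M4 G U h p q a b A B) : p ∈ U := m.m.AU m.m.pA

lemma M4.qU (m : M4 G U h p q a b A B) : q ∈ U := m.m.BU m.m.qB

lemma M4.pq (m : M4 G U h p q a b A B) : p ≠ q := m.m.hand.ne

lemma M4.ap (m : M4 G U h p q a b A B) : a ≠ p := fun h1 => m.aA (h1 ▸ m.m.pA)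

lemma M4.aq (m : M4 G U h p q a b A B) : a ≠ q := fun h1 => m.aB (h1 ▸ m.m.qB)

lemma M4.bp (m : M4 G U h p q a b A B) : b ≠ p := m.swapab.ap

lemma M4.bq (m : M4 G U h p q a b A B) : b ≠ q := m.swapab.aq

/-- Subsets of `A` have large rest. -/
lemma M4.B_sub (m : M4 G U h p q a b A B) {Q : Set V} (hQ : Q ⊆ A) :
    B ⊆ U \ (Q ∪ Nb G Q) := by
  intro x hx
  refine ⟨m.m.BU hx, ?_⟩
  have hxA : x ∉ A := m.swap.notB hx
  rintro (h1 | ⟨-, y, hy, hyx⟩)
  · exact hxA (hQ h1)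
  · have h2 : x ∈ Nb G A := ⟨hxA, y, hQ hy, hyx⟩
    rw [m.m.NA, ← m.m.NB] at h2
    exact h2.1 hx

lemma M4.ah [Finite V] (m : M4 G U h p q a b A B) : a ≠ h := by
  intro h1
  have h2 : (Nb G A).ncard ≤ 2 := by
    rw [m.m.NA, h1]
    apply ncard_le_two_of (a := h) (b := b)
    rintro x (h2 | h2 | h2)
    · exact Or.inl h2
    · exact Or.inr h2
    · exact Or.inl h2
  have h3 := m.gmin.ex.conn A m.m.AU m.m.A2 h2
  have h4 := Set.ncard_le_ncard (m.B_sub subset_rfl) (Set.toFinite _)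
  have := m.m.B2
  omega

lemma M4.bh [Finite V] (m : M4 G U h p q a b A B) : b ≠ h := m.swapab.ah

lemma M4.nbrA (m : M4 G U h p q a b A B) {x y : V} (hx : x ∈ A) (hxy : G.Adj x y) :
    y ∈ A ∨ y = a ∨ y = b ∨ y = h := by
  by_cases hy : y ∈ A
  · exact Or.inl hy
  · have h1 : y ∈ Nb G A := ⟨hy, x, hx, hxy⟩
    rw [m.m.NA] at h1
    exact Or.inr h1

lemma M4.nbrA' (m : M4 G U h p q a b A B) {x y : V} (hx : x ∈ A) (hxp : x ≠ p)
    (hxy : G.Adj x y) : y ∈ A ∨ y = a ∨ y = b := by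
  rcases m.nbrA hx hxy with h1 | h1 | h1 | h1
  · exact Or.inl h1
  · exact Or.inr (Or.inl h1)
  · exact Or.inr (Or.inr h1)
  · exfalso
    subst h1
    rcases m.m.hand.adj.1 hxy.symm with h2 | h2
    · exact hxp h2
    · exact m.notB hx (h2 ▸ m.m.qB)

lemma M4.no_AB (m : M4 G U h p q a b A B) {x y : V} (hx : x ∈ A) (hy : y ∈ B) :
    ¬ G.Adj x y := by
  intro hxy
  rcases m.nbrA hx hxy with h1 | h1 | h1 | h1
  · exact m.notB h1 hy
  · exact m.aB (h1 ▸ hy)
  · exact m.bB (h1 ▸ hy)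
  · exact m.m.hB (h1 ▸ hy)

lemma M4.npq (m : M4 G U h p q a b A B) : ¬ G.Adj p q := m.no_AB m.m.pA m.m.qB

lemma M4.ctr (m : M4 G U h p q a b A B) : Ctr G U h p q := ⟨m.gmin, m.m.hU, m.m.hand, m.npq⟩

/-- Small quadrants. -/
lemma M4.quad [Finite V] (m : M4 G U h p q a b A B) {Q : Set V} (hQ : Q ⊆ A)
    (h2 : (Nb G Q).ncard ≤ 2) {r : V} (hr : r ∈ Q) : (G.neighborSet r).ncard ≤ 2 := by
  have h1 : Q.ncard ≤ 1 := by
    by_contra hlt
    push Not at hlt
    have h3 := m.gmin.ex.conn Q (hQ.trans m.m.AU) (by omega) h2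
    have h4 := Set.ncard_le_ncard (m.B_sub hQ) (Set.toFinite _)
    have := m.m.B2
    omega
  have h3 : Q = {r} := by
    symm
    apply Set.eq_of_subset_of_ncard_le _ _ (Set.toFinite _)
    · intro x hx
      rw [Set.mem_singleton_iff] at hx
      rw [hx]; exact hr
    · rw [Set.ncard_singleton]; exact h1
  rw [h3, Nb_singleton] at h2
  exact h2

lemma M4.quad' [Finite V] (m : M4 G U h p q a b A B) {Q : Set V} (hQ : Q ⊆ A) {y z : V}
    (h2 : ∀ v ∈ Nb G Q, v = y ∨ v = z) {r : V} (hr : r ∈ Q) : (G.neighborSet r).ncard ≤ 2 :=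
  m.quad hQ (ncard_le_two_of h2) hr

/-- A side of a 3-cut through `p` and `q` which contains a vertex of degree at least three
contains `a` or `b`. -/
lemma M4.side [Finite V] (m : M4 G U h p q a b A B) {x : V} {X X' : Set V} (hX : X ⊆ U)
    (hne : ∀ v ∈ X, v ≠ h ∧ v ≠ p ∧ v ≠ q ∧ v ≠ x)
    (hcov : ∀ v ∈ U, v ∈ X ∨ v ∈ X' ∨ v = h ∨ v = p ∨ v = q ∨ v = x)
    (hno : ∀ u ∈ X, ∀ v ∈ X', ¬ G.Adj u v) (hr : ∃ r ∈ X, 3 ≤ (G.neighborSet r).ncard) :
    a ∈ X ∨ b ∈ X := by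
  by_contra hcon
  push Not at hcon
  obtain ⟨haX, hbX⟩ := hcon
  obtain ⟨r, hrX, hr3⟩ := hr
  have hout : ∀ u ∈ X, ∀ v, G.Adj u v → v ∈ X ∨ v = p ∨ v = q ∨ v = x := by
    intro u hu v huv
    have hvU := m.gmin.ex.edge_mem v u huv.symm
    rcases hcov v hvU with h1 | h1 | h1 | h1 | h1 | h1
    · exact Or.inl h1
    · exact absurd huv (hno u hu v h1)
    · exfalso
      subst h1
      rcases m.m.hand.adj.1 huv.symm with h2 | h2
      · exact (hne u hu).2.1 h2
      · exact (hne u hu).2.2.1 h2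
    · exact Or.inr (Or.inl h1)
    · exact Or.inr (Or.inr (Or.inl h1))
    · exact Or.inr (Or.inr (Or.inr h1))
  rcases m.m.cover r (hX hrX) with h1 | h1 | h1 | h1 | h1
  · have h2 := m.quad' (Q := X ∩ A) Set.inter_subset_right (y := p) (z := x) ?_ ⟨hrX, h1⟩
    · omega
    · rintro v ⟨hv, u, hu, huv⟩
      rcases m.nbrA' hu.2 (hne u hu.1).2.1 huv with h3 | h3 | h3
      · rcases hout u hu.1 v huv with h4 | h4 | h4 | h4
        · exact absurd ⟨h4, h3⟩ hv
        · exact Or.inl h4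
        · exact absurd (h4 ▸ m.m.qB) (m.notB h3)
        · exact Or.inr h4
      · right
        subst h3
        rcases hout u hu.1 v huv with h4 | h4 | h4 | h4
        · exact absurd h4 haX
        · exact absurd h4 m.ap
        · exact absurd h4 m.aq
        · exact h4
      · right
        subst h3
        rcases hout u hu.1 v huv with h4 | h4 | h4 | h4
        · exact absurd h4 hbX
        · exact absurd h4 m.bp
        · exact absurd h4 m.bq
        · exact h4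
  · have h2 := m.swap.quad' (Q := X ∩ B) Set.inter_subset_right (y := q) (z := x) ?_ ⟨hrX, h1⟩
    · omega
    · rintro v ⟨hv, u, hu, huv⟩
      rcases m.swap.nbrA' hu.2 (hne u hu.1).2.2.1 huv with h3 | h3 | h3
      · rcases hout u hu.1 v huv with h4 | h4 | h4 | h4
        · exact absurd ⟨h4, h3⟩ hv
        · exact absurd (h4 ▸ m.m.pA) (m.swap.notB h3)
        · exact Or.inl h4
        · exact Or.inr h4
      · right
        subst h3
        rcases hout u hu.1 v huv with h4 | h4 | h4 | h4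
        · exact absurd h4 haX
        · exact absurd h4 m.ap
        · exact absurd h4 m.aq
        · exact h4
      · right
        subst h3
        rcases hout u hu.1 v huv with h4 | h4 | h4 | h4
        · exact absurd h4 hbX
        · exact absurd h4 m.bp
        · exact absurd h4 m.bq
        · exact h4
  · exact haX (h1 ▸ hrX)
  · exact hbX (h1 ▸ hrX)
  · exact (hne r hrX).1 h1

/-- `a` and `b` on different sides: impossible if the third cut vertex is not in `B`. -/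
lemma M4.split [Finite V] (m : M4 G U h p q a b A B) {x : V} {X1 X2 : Set V}
    (hne1 : ∀ v ∈ X1, v ≠ h ∧ v ≠ p ∧ v ≠ q ∧ v ≠ x)
    (hne2 : ∀ v ∈ X2, v ≠ h ∧ v ≠ p ∧ v ≠ q ∧ v ≠ x)
    (hcov : ∀ v ∈ U, v ∈ X1 ∨ v ∈ X2 ∨ v = h ∨ v = p ∨ v = q ∨ v = x)
    (hno : ∀ u ∈ X1, ∀ v ∈ X2, ¬ G.Adj u v) (ha : a ∈ X1) (hb : b ∈ X2) (hx : x ∉ B) :
    False := by
  obtain ⟨r, hrB, hrq, hr3⟩ := m.rB
  rcases hcov r (m.m.BU hrB) with h1 | h1 | h1 | h1 | h1 | h1
  · have h2 := m.swap.quad' (Q := X1 ∩ B) Set.inter_subset_right (y := q) (z := a) ?_ ⟨h1, hrB⟩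
    · omega
    · rintro v ⟨hv, u, hu, huv⟩
      rcases m.swap.nbrA' hu.2 (hne1 u hu.1).2.2.1 huv with h3 | h3 | h3
      · rcases hcov v (m.m.BU h3) with h4 | h4 | h4 | h4 | h4 | h4
        · exact absurd ⟨h4, h3⟩ hv
        · exact absurd huv (hno u hu.1 v h4)
        · exact absurd (h4 ▸ h3) m.m.hB
        · exact absurd (h4 ▸ m.m.pA) (m.swap.notB h3)
        · exact Or.inl h4
        · exact absurd (h4 ▸ h3) hx
      · exact Or.inr h3
      · exact absurd huv (hno u hu.1 v (h3 ▸ hb))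
  · have h2 := m.swap.quad' (Q := X2 ∩ B) Set.inter_subset_right (y := q) (z := b) ?_ ⟨h1, hrB⟩
    · omega
    · rintro v ⟨hv, u, hu, huv⟩
      rcases m.swap.nbrA' hu.2 (hne2 u hu.1).2.2.1 huv with h3 | h3 | h3
      · rcases hcov v (m.m.BU h3) with h4 | h4 | h4 | h4 | h4 | h4
        · exact absurd huv.symm (hno v h4 u hu.1)
        · exact absurd ⟨h4, h3⟩ hv
        · exact absurd (h4 ▸ h3) m.m.hB
        · exact absurd (h4 ▸ m.m.pA) (m.swap.notB h3)
        · exact Or.inl h4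
        · exact absurd (h4 ▸ h3) hx
      · exact absurd huv.symm (hno v (h3 ▸ ha) u hu.1)
      · exact Or.inr h3
  · exact m.m.hB (h1 ▸ hrB)
  · exact m.notB m.m.pA (h1 ▸ hrB)
  · exact hrq h1
  · exact hx (h1 ▸ hrB)

theorem M4.hcut [Finite V] (m : M4 G U h p q a b A B) : HCut G U h p q := by
  intro x X1 X2 hX1 hX2 hne1 hne2 hdis hcov hno hr1 hr2
  have hno' : ∀ u ∈ X2, ∀ v ∈ X1, ¬ G.Adj u v := fun u hu v hv huv => hno v hv u hu huv.symm
  have hcov' : ∀ v ∈ U, v ∈ X2 ∨ v ∈ X1 ∨ v = h ∨ v = p ∨ v = q ∨ v = x := by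
    intro v hv
    rcases hcov v hv with h1 | h1 | h1
    · exact Or.inr (Or.inl h1)
    · exact Or.inl h1
    · exact Or.inr (Or.inr h1)
  have hd := Set.disjoint_left.1 hdis
  -- one of `a`, `b` in each side
  have hmain : ∀ {a b : V}, M4 G U h p q a b A B → a ∈ X1 → b ∈ X2 → False := by
    intro a b m ha hb
    by_cases hxB : x ∈ B
    · have hxA : x ∉ A := m.swap.notB hxB
      refine m.swap.split (x := x) (X1 := X1) (X2 := X2) ?_ ?_ ?_ hno ha hb hxA
      · exact fun v hv => ⟨(hne1 v hv).1, (hne1 v hv).2.2.1, (hne1 v hv).2.1, (hne1 v hv).2.2.2⟩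
      · exact fun v hv => ⟨(hne2 v hv).1, (hne2 v hv).2.2.1, (hne2 v hv).2.1, (hne2 v hv).2.2.2⟩
      · intro v hv
        rcases hcov v hv with h1 | h1 | h1 | h1 | h1 | h1
        · exact Or.inl h1
        · exact Or.inr (Or.inl h1)
        · exact Or.inr (Or.inr (Or.inl h1))
        · exact Or.inr (Or.inr (Or.inr (Or.inr (Or.inl h1))))
        · exact Or.inr (Or.inr (Or.inr (Or.inl h1)))
        · exact Or.inr (Or.inr (Or.inr (Or.inr (Or.inr h1))))
    · exact m.split hne1 hne2 hcov hno ha hb hxB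
  rcases m.side hX1 hne1 hcov hno hr1 with h1 | h1
  · rcases m.side hX2 hne2 hcov' hno' hr2 with h2 | h2
    · exact hd h1 h2
    · exact hmain m h1 h2
  · rcases m.side hX2 hne2 hcov' hno' hr2 with h2 | h2
    · exact hmain m.swapab h1 h2
    · exact hd h1 h2

end Pool.Agent.Helper20.HD
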