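import Pool.Agent.Helper20.HD.Mix4a

/-!
# Mixed cuts with two vertices of degree at least three on both sides: dense sets
-/

set_option autoImplicit false

namespace Pool.Agent.Helper20.HD

open SimpleGraph Pool.Agent.Helper57.TOK Pool.Agent.Helper57.TD Pool.Agent.Helper57.TOP
  Pool.Agent.Helper82.TK

variable {V : Type*} {G : SimpleGraph V} {U : Set V} {h p q a b : V} {A B : Set V}

/-- A dense set of the contraction, seen in `G`. -/
structure DG (G : SimpleGraph V) (U : Set V) (h p q : V) (Y : Set V) (κ : V → ZMod 2)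
    (n2 n3 : V) : Prop where
  sub : Y ⊆ U
  hY : h ∉ Y
  pY : p ∉ Y
  qY : q ∉ Y
  nb : Nb G Y = {p, q, n2, n3}
  n23 : n2 ≠ n3
  n2p : n2 ≠ p
  n2q : n2 ≠ q
  n2h : n2 ≠ h
  n3p : n3 ≠ p
  n3q : n3 ≠ q
  n3h : n3 ≠ h
  bal : PB G κ Y
  kpq : κ p = κ q
  low : 1 ≤ fden G Y
  top : κ p = κ n2 → κ p = κ n3 → 2 ≤ fden G Y
  ncod : ∀ y ∈ Y, ¬ (G.Adj p y ∧ G.Adj q y)

lemma DG.swap {Y : Set V} {κ : V → ZMod 2} {n2 n3 : V} (d : DG G U h p q Y κ n2 n3) :
    DG G U h q p Y κ n2 n3 where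
  sub := d.sub
  hY := d.hY
  pY := d.qY
  qY := d.pY
  nb := by rw [d.nb, Set.insert_comm]
  n23 := d.n23
  n2p := d.n2q
  n2q := d.n2p
  n2h := d.n2h
  n3p := d.n3q
  n3q := d.n3p
  n3h := d.n3h
  bal := d.bal
  kpq := d.kpq.symm
  low := d.low
  top := fun h1 h2 => d.top (d.kpq.trans h1) (d.kpq.trans h2)
  ncod := fun y hy h1 => d.ncod y hy ⟨h1.2, h1.1⟩

lemma DG.swapn {Y : Set V} {κ : V → ZMod 2} {n2 n3 : V} (d : DG G U h p q Y κ n2 n3) :
    DG G U h p q Y κ n3 n2 where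
  sub := d.sub
  hY := d.hY
  pY := d.pY
  qY := d.qY
  nb := by rw [d.nb, Set.pair_comm n2 n3]
  n23 := d.n23.symm
  n2p := d.n3p
  n2q := d.n3q
  n2h := d.n3h
  n3p := d.n2p
  n3q := d.n2q
  n3h := d.n2h
  bal := d.bal
  kpq := d.kpq
  low := d.low
  top := fun h1 h2 => d.top h2 h1
  ncod := d.ncod

section

variable {Y : Set V} {κ : V → ZMod 2} {n2 n3 : V}

lemma DG.out (d : DG G U h p q Y κ n2 n3) {u v : V} (hu : u ∈ Y) (huv : G.Adj u v) :
    v ∈ Y ∨ v = p ∨ v = q ∨ v = n2 ∨ v = n3 := by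
  by_cases hv : v ∈ Y
  · exact Or.inl hv
  · have h1 : v ∈ Nb G Y := ⟨hv, u, hu, huv⟩
    rw [d.nb] at h1
    exact Or.inr h1

lemma DG.into (d : DG G U h p q Y κ n2 n3) {u v : V} (hu : u ∉ Y) (hv : v ∈ Y)
    (huv : G.Adj u v) : u = p ∨ u = q ∨ u = n2 ∨ u = n3 := by
  rcases d.out hv huv.symm with h1 | h1
  · exact absurd h1 hu
  · exact h1

lemma DG.n2N (d : DG G U h p q Y κ n2 n3) : n2 ∈ Nb G Y := by
  rw [d.nb]; exact Or.inr (Or.inr (Or.inl rfl))

lemma DG.n3N (d : DG G U h p q Y κ n2 n3) : n3 ∈ Nb G Y := d.swapn.n2N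

lemma DG.n2Y (d : DG G U h p q Y κ n2 n3) : n2 ∉ Y := d.n2N.1

lemma DG.n3Y (d : DG G U h p q Y κ n2 n3) : n3 ∉ Y := d.n3N.1

/-- Both other neighbours outside `B`. -/
lemma M4.caseA [Finite V] (m : M4 G U h p q a b A B) (d : DG G U h p q Y κ n2 n3) (ha : a ∈ Y)
    (hb : b ∉ Y) (hbN : b ∉ Nb G Y) (h2 : n2 ∉ B) (h3 : n3 ∉ B) : False := by
  obtain ⟨r, hrB, hrq, hr3⟩ := m.rB
  have hnoN : ∀ v ∈ B, v ≠ q → v ∉ Y → ∀ u ∈ Y, ¬ G.Adj u v := by
    intro v hvB hvq hvY u hu huv
    rcases d.into hvY hu huv.symm with h4 | h4 | h4 | h4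
    · exact m.notB m.m.pA (h4 ▸ hvB)
    · exact hvq h4
    · exact h2 (h4 ▸ hvB)
    · exact h3 (h4 ▸ hvB)
  by_cases hrY : r ∈ Y
  · have h4 := m.swap.quad' (Q := Y ∩ B) Set.inter_subset_right (y := q) (z := a) ?_ ⟨hrY, hrB⟩
    · omega
    · rintro v ⟨hv, u, hu, huv⟩
      have huq : u ≠ q := fun h5 => d.qY (h5 ▸ hu.1)
      rcases m.swap.nbrA' hu.2 huq huv with h5 | h5 | h5
      · left
        by_contra hvq
        by_cases hvY : v ∈ Y
        · exact hv ⟨hvY, h5⟩
        · exact hnoN v h5 hvq hvY u hu.1 huv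
      · exact Or.inr h5
      · exfalso
        subst h5
        exact hbN ⟨hb, u, hu.1, huv⟩
  · have h4 := m.swap.quad' (Q := (B \ Y) \ {q}) (fun v hv => hv.1.1) (y := q) (z := b) ?_
      ⟨⟨hrB, hrY⟩, hrq⟩
    · omega
    · rintro v ⟨hv, u, ⟨⟨huB, huY⟩, huq⟩, huv⟩
      have huq' : u ≠ q := huq
      rcases m.swap.nbrA' huB huq' huv with h5 | h5 | h5
      · left
        by_contra hvq
        by_cases hvY : v ∈ Y
        · exact hnoN u huB huq' huY v hvY huv.symm
        · exact hv ⟨⟨h5, hvY⟩, hvq⟩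
      · exfalso
        subst h5
        exact hnoN u huB huq' huY v ha huv.symm
      · exact Or.inr h5

/-- `beta` of at most three neighbours. -/
lemma M4.fden_part [Finite V] (m : M4 G U h p q a b A B) {Q : Set V} (hQ : Q ⊆ A)
    (hb : PB G κ Q) {x y z : V} (hN : ∀ v ∈ Nb G Q, v = x ∨ v = y ∨ v = z) :
    fden G Q ≤ 0 ∨ (fden G Q ≤ 1 ∧ κ x = κ y ∧ κ x = κ z ∧ x ∈ Nb G Q ∧ y ∈ Nb G Q ∧
      z ∈ Nb G Q ∧ x ≠ y ∧ x ≠ z ∧ y ≠ z) := by
  classical
  by_cases h1 : (Nb G Q).ncard ≤ 2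
  · exact Or.inl (fden_le_zero_of_deg (fun r hr => m.quad hQ h1 hr))
  · push Not at h1
    have hsub : Nb G Q ⊆ {x, y, z} := fun v hv => hN v hv
    have h2 := Set.ncard_le_ncard hsub (Set.toFinite _)
    have h3 : ({x, y, z} : Set V).ncard ≤ 3 := by
      have e1 := Set.ncard_insert_le x ({y, z} : Set V)
      have e2 := ncard_pair_le' y z
      omega
    have heq : Nb G Q = {x, y, z} :=
      Set.eq_of_subset_of_ncard_le hsub (by omega) (Set.toFinite _)
    have hc : (Nb G Q).ncard = 3 := by omega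
    have hf := gmin_P1 m.gmin (hQ.trans m.m.AU) hb hc
    have hxN : x ∈ Nb G Q := by rw [heq]; exact Or.inl rfl
    have hyN : y ∈ Nb G Q := by rw [heq]; exact Or.inr (Or.inl rfl)
    have hzN : z ∈ Nb G Q := by rw [heq]; exact Or.inr (Or.inr rfl)
    have hxy : x ≠ y := by
      rintro rfl
      rw [heq] at hc
      have e1 : ({x, x, z} : Set V) = {x, z} := by simp
      rw [e1] at hc
      have := ncard_pair_le' x z
      omega
    have hxz : x ≠ z := by
      rintro rfl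
      rw [heq] at hc
      have e1 : ({x, y, x} : Set V) = {y, x} := by
        ext v
        simp only [Set.mem_insert_iff, Set.mem_singleton_iff]
        tauto
      rw [e1] at hc
      have := ncard_pair_le' y x
      omega
    have hyz : y ≠ z := by
      rintro rfl
      rw [heq] at hc
      have e1 : ({x, y, y} : Set V) = {x, y} := by simp
      rw [e1] at hc
      have := ncard_pair_le' x y
      omega
    by_cases hm : Mono κ (Nb G Q)
    · rw [beta_of_mono hm, hc] at hf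
      refine Or.inr ⟨by push_cast at hf; linarith, hm x hxN y hyN, hm x hxN z hzN, hxN, hyN, hzN,
        hxy, hxz, hyz⟩
    · rw [beta_of_not_mono hm, hc] at hf
      left
      push_cast at hf
      linarith

lemma EBet_AB (m : M4 G U h p q a b A B) {Q R : Set V} (hQ : Q ⊆ A) (hR : R ⊆ B) :
    EBet G Q R = ∅ := by
  ext e
  constructor
  · rintro ⟨x, hx, y, hy, hxy, -⟩
    exact absurd hxy (m.no_AB (hQ hx) (hR hy))
  · intro h1
    exact absurd h1 (Set.notMem_empty e)

lemma M4.fden_AB [Finite V] (m : M4 G U h p q a b A B) {Q R : Set V} (hQ : Q ⊆ A)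
    (hR : R ⊆ B) : fden G (Q ∪ R) = fden G Q + fden G R := by
  have hd : Disjoint Q R := by
    rw [Set.disjoint_left]
    intro x hx hx'
    exact m.notB (hQ hx) (hR hx')
  have h1 := fden_union_of_disjoint G hd
  rw [EBet_AB m hQ hR, Set.ncard_empty] at h1
  push_cast at h1
  linarith

/-- One of the other neighbours in `A`, the other one in `B`. -/
lemma M4.caseC [Finite V] (m : M4 G U h p q a b A B) (d : DG G U h p q Y κ n2 n3) (ha : a ∈ Y)
    (hb : b ∉ Y) (hbN : b ∉ Nb G Y) (h2 : n2 ∈ A) (h3 : n3 ∈ B) : False := by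
  classical
  -- the decomposition
  have hY : Y = insert a ((Y ∩ A) ∪ (Y ∩ B)) := by
    ext v
    constructor
    · intro hv
      rcases m.m.cover v (d.sub hv) with h4 | h4 | h4 | h4 | h4
      · exact Or.inr (Or.inl ⟨hv, h4⟩)
      · exact Or.inr (Or.inr ⟨hv, h4⟩)
      · exact Or.inl h4
      · exact absurd (h4 ▸ hv) hb
      · exact absurd (h4 ▸ hv) d.hY
    · rintro (h4 | h4 | h4)
      · rw [h4]; exact ha
      · exact h4.1
      · exact h4.1
  have haS : a ∉ (Y ∩ A) ∪ (Y ∩ B) := by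
    rintro (h4 | h4)
    · exact m.aA h4.2
    · exact m.aB h4.2
  have hf := fden_insert G haS
  rw [← hY, m.fden_AB Set.inter_subset_right Set.inter_subset_right] at hf
  -- the two parts
  have hA := m.fden_part (Q := Y ∩ A) Set.inter_subset_right (κ := κ)
    (d.bal.mono Set.inter_subset_left) (x := p) (y := a) (z := n2) (by
      rintro v ⟨hv, u, hu, huv⟩
      have hup : u ≠ p := fun h5 => d.pY (h5 ▸ hu.1)
      rcases m.nbrA' hu.2 hup huv with h5 | h5 | h5
      · rcases d.out hu.1 huv with h6 | h6 | h6 | h6 | h6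
        · exact absurd ⟨h6, h5⟩ hv
        · exact Or.inl h6
        · exact absurd (h6 ▸ m.m.qB) (m.notB h5)
        · exact Or.inr (Or.inr h6)
        · exact absurd (h6 ▸ h3) (m.notB h5)
      · exact Or.inr (Or.inl h5)
      · exfalso
        subst h5
        exact hbN ⟨hb, u, hu.1, huv⟩)
  have hB := m.swap.fden_part (Q := Y ∩ B) Set.inter_subset_right (κ := κ)
    (d.bal.mono Set.inter_subset_left) (x := q) (y := a) (z := n3) (by
      rintro v ⟨hv, u, hu, huv⟩
      have hup : u ≠ q := fun h5 => d.qY (h5 ▸ hu.1)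
      rcases m.swap.nbrA' hu.2 hup huv with h5 | h5 | h5
      · rcases d.out hu.1 huv with h6 | h6 | h6 | h6 | h6
        · exact absurd ⟨h6, h5⟩ hv
        · exact absurd (h6 ▸ h5) (m.notB m.m.pA)
        · exact Or.inl h6
        · exact absurd h5 (m.notB (h6 ▸ h2))
        · exact Or.inr (Or.inr h6)
      · exact Or.inr (Or.inl h5)
      · exfalso
        subst h5
        exact hbN ⟨hb, u, hu.1, huv⟩)
  -- the neighbours of `a`
  set P : Set V := {v | (v = p ∨ v = q) ∧ G.Adj a v} with hP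
  set N2 : Set V := {v | v = n2 ∧ G.Adj a v} with hN2
  set N3 : Set V := {v | v = n3 ∧ G.Adj a v} with hN3
  have hsub : G.neighborSet a \ ((Y ∩ A) ∪ (Y ∩ B)) ⊆ P ∪ (N2 ∪ N3) := by
    rintro v ⟨hv, hvS⟩
    have hav : G.Adj a v := hv
    rcases d.out ha hav with h6 | h6 | h6 | h6 | h6
    · exfalso
      rw [hY] at h6
      rcases h6 with h6 | h6
      · exact hav.ne h6.symm
      · exact hvS h6
    · exact Or.inl ⟨Or.inl h6, hav⟩
    · exact Or.inl ⟨Or.inr h6, hav⟩
    · exact Or.inr (Or.inl ⟨h6, hav⟩)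
    · exact Or.inr (Or.inr ⟨h6, hav⟩)
  have c1 := Set.ncard_le_ncard hsub (Set.toFinite _)
  have c2 := Set.ncard_union_le P (N2 ∪ N3)
  have c3 := Set.ncard_union_le N2 N3
  have hone : ∀ {S : Set V} {z : V}, (∀ v ∈ S, v = z) → S.ncard ≤ 1 := by
    intro S z hS
    have e1 : S ⊆ {z} := fun v hv => hS v hv
    have e2 := Set.ncard_le_ncard e1 (Set.toFinite _)
    rwa [Set.ncard_singleton] at e2
  have hPc : P.ncard ≤ 1 := by
    by_cases h4 : G.Adj p a
    · apply hone (z := p)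
      rintro v ⟨h5 | h5, h6⟩
      · exact h5
      · exfalso
        subst h5
        exact d.ncod a ha ⟨h4, h6.symm⟩
    · apply hone (z := q)
      rintro v ⟨h5 | h5, h6⟩
      · exfalso
        subst h5
        exact h4 h6.symm
      · exact h5
  have hN2c : N2.ncard ≤ 1 := hone (z := n2) (fun v hv => hv.1)
  have hN3c : N3.ncard ≤ 1 := hone (z := n3) (fun v hv => hv.1)
  have hP0 : κ p = κ a → P.ncard = 0 := by
    intro h4
    rw [Set.ncard_eq_zero (Set.toFinite _)]
    ext v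
    constructor
    · rintro ⟨h5 | h5, h6⟩
      · subst h5
        exact absurd h4.symm (d.bal a v ha h6)
      · subst h5
        exact absurd (h4.symm.trans d.kpq) (d.bal a v ha h6)
    · exact fun h5 => absurd h5 (Set.notMem_empty v)
  have hN20 : κ n2 = κ a → N2.ncard = 0 := by
    intro h4
    rw [Set.ncard_eq_zero (Set.toFinite _)]
    ext v
    constructor
    · rintro ⟨h5, h6⟩
      subst h5
      exact absurd h4.symm (d.bal a v ha h6)
    · exact fun h5 => absurd h5 (Set.notMem_empty v)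
  have hN30 : κ n3 = κ a → N3.ncard = 0 := by
    intro h4
    rw [Set.ncard_eq_zero (Set.toFinite _)]
    ext v
    constructor
    · rintro ⟨h5, h6⟩
      subst h5
      exact absurd h4.symm (d.bal a v ha h6)
    · exact fun h5 => absurd h5 (Set.notMem_empty v)
  have hlow := d.low
  have htop := d.top
  have hbin : ∀ x y z : ZMod 2, x ≠ y → z ≠ y → x = z := by decide
  zify at c1 c2 c3 hPc hN2c hN3c hP0 hN20 hN30
  by_cases k1 : κ p = κ a
  · have e1 := hP0 k1
    by_cases k2 : κ n2 = κ a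
    · have e2 := hN20 k2
      by_cases k3 : κ n3 = κ a
      · have e3 := hN30 k3
        rcases hA with hA | hA <;> rcases hB with hB | hB <;> linarith [hA, hB]
      · have hB' : fden G (Y ∩ B) ≤ 0 := by
          rcases hB with hB | hB
          · exact hB
          · exact absurd (hB.2.2.1.symm.trans hB.2.1) k3
        rcases hA with hA | hA <;> linarith [hA]
    · have hA' : fden G (Y ∩ A) ≤ 0 := by
        rcases hA with hA | hA
        · exact hA
        · exact absurd (hA.2.2.1.symm.trans hA.2.1) k2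
      by_cases k3 : κ n3 = κ a
      · have e3 := hN30 k3
        rcases hB with hB | hB <;> linarith [hB]
      · have hB' : fden G (Y ∩ B) ≤ 0 := by
          rcases hB with hB | hB
          · exact hB
          · exact absurd (hB.2.2.1.symm.trans hB.2.1) k3
        linarith
  · have hA' : fden G (Y ∩ A) ≤ 0 := by
      rcases hA with hA | hA
      · exact hA
      · exact absurd hA.2.1 k1
    have hB' : fden G (Y ∩ B) ≤ 0 := by
      rcases hB with hB | hB
      · exact hB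
      · exact absurd (d.kpq.trans hB.2.1) k1
    by_cases k2 : κ n2 = κ a
    · have e2 := hN20 k2
      linarith
    · by_cases k3 : κ n3 = κ a
      · have e3 := hN30 k3
        linarith
      · have e4 := htop (hbin _ _ _ k1 k2) (hbin _ _ _ k1 k3)
        linarith

/-- A dense set which contains `a` contains `b` or has it as neighbour. -/
theorem M4.claimA [Finite V] (m : M4 G U h p q a b A B) (d : DG G U h p q Y κ n2 n3)
    (ha : a ∈ Y) : b ∈ Y ∨ b ∈ Nb G Y := by
  by_contra hcon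
  push Not at hcon
  obtain ⟨hb, hbN⟩ := hcon
  have hUof : ∀ {v : V}, v ∈ Nb G Y → v ∈ U := by
    rintro v ⟨-, u, -, huv⟩
    exact m.gmin.ex.edge_mem v u huv.symm
  have hpos : ∀ {v : V}, v ∈ Nb G Y → v ≠ h → v ∈ A ∨ v ∈ B := by
    intro v hv hvh
    rcases m.m.cover v (hUof hv) with h1 | h1 | h1 | h1 | h1
    · exact Or.inl h1
    · exact Or.inr h1
    · exact absurd ha (h1 ▸ hv.1)
    · exact absurd (h1 ▸ hv) hbN
    · exact absurd h1 hvh
  rcases hpos d.n2N d.n2h with h2 | h2 <;> rcases hpos d.n3N d.n3h with h3 | h3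
  · exact m.caseA d ha hb hbN (m.notB h2) (m.notB h3)
  · exact m.caseC d ha hb hbN h2 h3
  · exact m.caseC d.swapn ha hb hbN h3 h2
  · exact m.swap.caseA d.swap ha hb hbN (m.swap.notB h2) (m.swap.notB h3)

/-- A dense set which contains neither `a` nor `b`. -/
structure TN (G : SimpleGraph V) (p q a b : V) (A B Y : Set V) (κ : V → ZMod 2) : Prop where
  nA : Nb G (Y ∩ A) = {p, a, b}
  nB : Nb G (Y ∩ B) = {q, a, b}
  fA : fden G (Y ∩ A) = 1
  fB : fden G (Y ∩ B) = 1
  ka : κ p = κ a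
  kb : κ p = κ b

theorem M4.claimB [Finite V] (m : M4 G U h p q a b A B) (d : DG G U h p q Y κ n2 n3)
    (ha : a ∉ Y) (hb : b ∉ Y) : TN G p q a b A B Y κ := by
  classical
  have hY : Y = (Y ∩ A) ∪ (Y ∩ B) := by
    ext v
    constructor
    · intro hv
      rcases m.m.cover v (d.sub hv) with h4 | h4 | h4 | h4 | h4
      · exact Or.inl ⟨hv, h4⟩
      · exact Or.inr ⟨hv, h4⟩
      · exact absurd (h4 ▸ hv) ha
      · exact absurd (h4 ▸ hv) hb
      · exact absurd (h4 ▸ hv) d.hY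
    · rintro (h4 | h4)
      · exact h4.1
      · exact h4.1
  have hf : fden G Y = fden G (Y ∩ A) + fden G (Y ∩ B) := by
    conv_lhs => rw [hY]
    exact m.fden_AB Set.inter_subset_right Set.inter_subset_right
  have hNA : ∀ v ∈ Nb G (Y ∩ A), v = p ∨ v = n2 ∨ v = n3 := by
    rintro v ⟨hv, u, hu, huv⟩
    have hup : u ≠ p := fun h5 => d.pY (h5 ▸ hu.1)
    rcases d.out hu.1 huv with h6 | h6 | h6 | h6 | h6
    · exfalso
      rcases m.nbrA' hu.2 hup huv with h5 | h5 | h5
      · exact hv ⟨h6, h5⟩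
      · exact ha (h5 ▸ h6)
      · exact hb (h5 ▸ h6)
    · exact Or.inl h6
    · exact absurd (h6 ▸ huv) (m.no_AB hu.2 m.m.qB)
    · exact Or.inr (Or.inl h6)
    · exact Or.inr (Or.inr h6)
  have hNB : ∀ v ∈ Nb G (Y ∩ B), v = q ∨ v = n2 ∨ v = n3 := by
    rintro v ⟨hv, u, hu, huv⟩
    have hup : u ≠ q := fun h5 => d.qY (h5 ▸ hu.1)
    rcases d.out hu.1 huv with h6 | h6 | h6 | h6 | h6
    · exfalso
      rcases m.swap.nbrA' hu.2 hup huv with h5 | h5 | h5
      · exact hv ⟨h6, h5⟩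
      · exact ha (h5 ▸ h6)
      · exact hb (h5 ▸ h6)
    · exact absurd (h6 ▸ huv.symm) (m.no_AB m.m.pA hu.2)
    · exact Or.inl h6
    · exact Or.inr (Or.inl h6)
    · exact Or.inr (Or.inr h6)
  have hA := m.fden_part (Q := Y ∩ A) Set.inter_subset_right (κ := κ)
    (d.bal.mono Set.inter_subset_left) hNA
  have hB := m.swap.fden_part (Q := Y ∩ B) Set.inter_subset_right (κ := κ)
    (d.bal.mono Set.inter_subset_left) hNB
  have hlow := d.low
  have key : (fden G (Y ∩ A) ≤ 1 ∧ κ p = κ n2 ∧ κ p = κ n3 ∧ p ∈ Nb G (Y ∩ A) ∧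
      n2 ∈ Nb G (Y ∩ A) ∧ n3 ∈ Nb G (Y ∩ A) ∧ p ≠ n2 ∧ p ≠ n3 ∧ n2 ≠ n3) ∧
      (fden G (Y ∩ B) ≤ 1 ∧ κ q = κ n2 ∧ κ q = κ n3 ∧ q ∈ Nb G (Y ∩ B) ∧
      n2 ∈ Nb G (Y ∩ B) ∧ n3 ∈ Nb G (Y ∩ B) ∧ q ≠ n2 ∧ q ≠ n3 ∧ n2 ≠ n3) := by
    rcases hA with hA | hA
    · rcases hB with hB | hB
      · exfalso; linarith
      · exfalso
        have := d.top (d.kpq.trans hB.2.1) (d.kpq.trans hB.2.2.1)
        linarith [hB.1]
    · rcases hB with hB | hB
      · exfalso
        have := d.top hA.2.1 hA.2.2.1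
        linarith [hA.1]
      · exact ⟨hA, hB⟩
  obtain ⟨⟨fA, k2, k3, pN, n2A, n3A, -⟩, ⟨fB, -, -, qN, n2B, n3B, -⟩⟩ := key
  have htop := d.top k2 k3
  -- position of the neighbours
  have hpos : ∀ v, v ∈ Nb G (Y ∩ A) → v ∈ Nb G (Y ∩ B) → v = a ∨ v = b := by
    rintro v ⟨-, u, hu, huv⟩ ⟨-, w, hw, hwv⟩
    have hup : u ≠ p := fun h5 => d.pY (h5 ▸ hu.1)
    have hwq : w ≠ q := fun h5 => d.qY (h5 ▸ hw.1)
    rcases m.nbrA' hu.2 hup huv with h5 | h5 | h5
    · exact absurd hwv.symm (m.no_AB h5 hw.2)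
    · exact Or.inl h5
    · exact Or.inr h5
  have hset : ({n2, n3} : Set V) = {a, b} := by
    rcases hpos n2 n2A n2B with e1 | e1 <;> rcases hpos n3 n3A n3B with e2 | e2
    · exact absurd (e1.trans e2.symm) d.n23
    · rw [e1, e2]
    · rw [e1, e2, Set.pair_comm]
    · exact absurd (e1.trans e2.symm) d.n23
  have hmemA : ∀ v ∈ Nb G (Y ∩ A), v ∈ ({p, a, b} : Set V) := by
    intro v hv
    rcases hNA v hv with h5 | h5
    · exact Or.inl h5
    · right
      rw [← hset]
      exact h5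
  have hmemB : ∀ v ∈ Nb G (Y ∩ B), v ∈ ({q, a, b} : Set V) := by
    intro v hv
    rcases hNB v hv with h5 | h5
    · exact Or.inl h5
    · right
      rw [← hset]
      exact h5
  have hab : ∀ v, v ∈ ({a, b} : Set V) → v = n2 ∨ v = n3 := by
    intro v hv
    rw [← hset] at hv
    exact hv
  refine ⟨?_, ?_, by linarith, by linarith, ?_, ?_⟩
  · apply Set.Subset.antisymm hmemA
    rintro v (h5 | h5)
    · rw [h5]; exact pN
    · rcases hab v h5 with h6 | h6
      · rw [h6]; exact n2A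
      · rw [h6]; exact n3A
  · apply Set.Subset.antisymm hmemB
    rintro v (h5 | h5)
    · rw [h5]; exact qN
    · rcases hab v h5 with h6 | h6
      · rw [h6]; exact n2B
      · rw [h6]; exact n3B
  · rcases hab a (Or.inl rfl) with h6 | h6
    · rw [h6]; exact k2
    · rw [h6]; exact k3
  · rcases hab b (Or.inr rfl) with h6 | h6
    · rw [h6]; exact k2
    · rw [h6]; exact k3

/-- A dense set contains `a` or has it as neighbour. -/
theorem M4.covA [Finite V] (m : M4 G U h p q a b A B) (d : DG G U h p q Y κ n2 n3) :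
    a ∈ Y ∨ a ∈ Nb G Y := by
  by_cases ha : a ∈ Y
  · exact Or.inl ha
  · by_cases hb : b ∈ Y
    · exact m.swapab.claimA d hb
    · right
      have h1 := (m.claimB d ha hb).nA
      have h2 : a ∈ Nb G (Y ∩ A) := by rw [h1]; exact Or.inr (Or.inl rfl)
      obtain ⟨-, u, hu, hua⟩ := h2
      exact ⟨ha, u, hu.1, hua⟩

end

end Pool.Agent.Helper20.HD
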