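import Pool.Agent.Helper20.HD.Mix4
import Pool.Agent.Helper97.SO.Defs

/-!
# Separations of `G - h` with at most two cut vertices
-/

set_option autoImplicit false

namespace Pool.Agent.Helper20.HD

open SimpleGraph Pool.Agent.Helper57.TOK Pool.Agent.Helper57.TD Pool.Agent.Helper57.TOP
  Pool.Agent.Helper82.TK Pool.Agent.Helper97.SO

variable {V : Type*} {G : SimpleGraph V} {U : Set V} {h p q : V}

lemma sepn_symm {H : SimpleGraph V} {U Y N R : Set V} (s : Sepn H U Y N R) : Sepn H U R N Y where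
  YU := s.RU
  NU := s.NU
  RU := s.YU
  cov := fun v hv => by
    rcases s.cov v hv with h1 | h1 | h1
    · exact Or.inr (Or.inr h1)
    · exact Or.inr (Or.inl h1)
    · exact Or.inl h1
  YN := s.NR.symm
  YR := s.YR.symm
  NR := s.YN.symm
  no := fun u hu v hv huv => s.no v hv u hu huv.symm

lemma sepn_nb {H : SimpleGraph V} {U Y N R : Set V} (s : Sepn H U Y N R)
    (he : ∀ u v, H.Adj u v → u ∈ U) {u v : V} (hu : u ∈ Y) (huv : H.Adj u v) : v ∈ Y ∨ v ∈ N := by
  rcases s.cov v (he v u huv.symm) with h1 | h1 | h1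
  · exact Or.inl h1
  · exact Or.inr h1
  · exact absurd huv (s.no u hu v h1)

/-- Both ends of `h` in `Y ∪ N`. -/
lemma no_sep_same [Finite V] (hM : GMin G U) (hU : h ∈ U) (hh : Hand G h p q) {Y N R : Set V}
    (s : Sepn (delV G h) (U \ {h}) Y N R) (hN : N.ncard ≤ 2) {r1 r2 : V} (h1 : r1 ∈ Y)
    (h2 : r2 ∈ R) (d2 : 3 ≤ (G.neighborSet r2).ncard) (hp : p ∉ R) (hq : q ∉ R) : False := by
  classical
  have he : ∀ u v, (delV G h).Adj u v → u ∈ U \ {h} := fun u v huv =>
    ⟨hM.ex.edge_mem u v huv.1, huv.2.1⟩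
  have hhY : h ∉ Y := fun h3 => (s.YU h3).2 rfl
  have hhR : h ∉ R := fun h3 => (s.RU h3).2 rfl
  have hYN := Set.disjoint_left.1 s.YN
  have hYR := Set.disjoint_left.1 s.YR
  have hNR := Set.disjoint_left.1 s.NR
  have hpY : p ∈ Y ∨ p ∈ N := by
    rcases s.cov p ⟨hM.ex.edge_mem p h hh.hp.symm, hh.hp.ne'⟩ with h3 | h3 | h3
    · exact Or.inl h3
    · exact Or.inr h3
    · exact absurd h3 hp
  have hqY : q ∈ Y ∨ q ∈ N := by
    rcases s.cov q ⟨hM.ex.edge_mem q h hh.hq.symm, hh.hq.ne'⟩ with h3 | h3 | h3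
    · exact Or.inl h3
    · exact Or.inr h3
    · exact absurd h3 hq
  have hNb : Nb G (insert h Y) ⊆ N := by
    rintro v ⟨hv, u, hu, huv⟩
    have hvY : v ∉ Y := fun h3 => hv (Or.inr h3)
    have hvh : v ≠ h := fun h3 => hv (Or.inl h3)
    rcases hu with hu | hu
    · rw [hu] at huv
      rcases hh.adj.1 huv with h3 | h3
      · rw [h3] at hvY ⊢
        exact hpY.resolve_left hvY
      · rw [h3] at hvY ⊢
        exact hqY.resolve_left hvY
    · have huh : u ≠ h := fun h3 => hhY (h3 ▸ hu)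
      exact (sepn_nb s he hu ⟨huv, huh, hvh⟩).resolve_left hvY
  have hR : R ⊆ U \ (insert h Y ∪ Nb G (insert h Y)) := by
    intro v hv
    refine ⟨(s.RU hv).1, ?_⟩
    rintro ((h3 | h3) | h3)
    · exact hhR (h3 ▸ hv)
    · exact hYR h3 hv
    · exact hNR (hNb h3) hv
  have hc := hM.ex.conn (insert h Y) (by
    rintro v (h3 | h3)
    · rw [h3]; exact hU
    · exact (s.YU h3).1) (by
      rw [Set.ncard_insert_of_notMem hhY (Set.toFinite _)]
      have : 0 < Y.ncard := (Set.ncard_pos (Set.toFinite _)).2 ⟨r1, h1⟩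
      omega) ((Set.ncard_le_ncard hNb (Set.toFinite _)).trans hN)
  have hR1 : R.ncard ≤ 1 := (Set.ncard_le_ncard hR (Set.toFinite _)).trans hc
  have hRr : ∀ v ∈ R, v = r2 := by
    intro v hv
    by_contra hne
    have h3 : ({v, r2} : Set V) ⊆ R := by
      rintro w (h4 | h4)
      · rw [h4]; exact hv
      · rw [Set.mem_singleton_iff] at h4
        rw [h4]; exact h2
    have h4 := Set.ncard_le_ncard h3 (Set.toFinite _)
    rw [Set.ncard_pair hne] at h4
    omega
  have h3 : G.neighborSet r2 ⊆ N := by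
    intro v hv
    have hrv : G.Adj r2 v := hv
    have hvh : v ≠ h := by
      intro h4
      rw [h4] at hrv
      rcases hh.adj.1 hrv.symm with h5 | h5
      · exact hp (h5 ▸ h2)
      · exact hq (h5 ▸ h2)
    have hrh : r2 ≠ h := fun h4 => hhR (h4 ▸ h2)
    rcases sepn_nb (sepn_symm s) he h2 ⟨hrv, hrh, hvh⟩ with h4 | h4
    · exact absurd (hRr v h4) hrv.ne'
    · exact h4
  have h4 := Set.ncard_le_ncard h3 (Set.toFinite _)
  omega

/-- The side of `p` sees all of `N` and `h`. -/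
lemma nb_side [Finite V] (hM : GMin G U) (hh : Hand G h p q) {Y N R : Set V}
    (s : Sepn (delV G h) (U \ {h}) Y N R) (hN : N.ncard ≤ 2) {r1 r2 : V} (h1 : r1 ∈ Y)
    (h1p : r1 ≠ p) (h2 : r2 ∈ R) (h2q : r2 ≠ q) (hp : p ∈ Y) (hq : q ∈ R) :
    Nb G Y = insert h N ∧ N.ncard = 2 := by
  classical
  have he : ∀ u v, (delV G h).Adj u v → u ∈ U \ {h} := fun u v huv =>
    ⟨hM.ex.edge_mem u v huv.1, huv.2.1⟩
  have hhY : h ∉ Y := fun h3 => (s.YU h3).2 rfl
  have hhR : h ∉ R := fun h3 => (s.RU h3).2 rfl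
  have hhN : h ∉ N := fun h3 => (s.NU h3).2 rfl
  have hYN := Set.disjoint_left.1 s.YN
  have hYR := Set.disjoint_left.1 s.YR
  have hNR := Set.disjoint_left.1 s.NR
  have hsub : Nb G Y ⊆ insert h N := by
    rintro v ⟨hv, u, hu, huv⟩
    by_cases hvh : v = h
    · exact Or.inl hvh
    · right
      have huh : u ≠ h := fun h3 => hhY (h3 ▸ hu)
      exact (sepn_nb s he hu ⟨huv, huh, hvh⟩).resolve_left hv
  have hR : R ⊆ U \ (Y ∪ Nb G Y) := by
    intro v hv
    refine ⟨(s.RU hv).1, ?_⟩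
    rintro (h3 | h3)
    · exact hYR h3 hv
    · rcases hsub h3 with h4 | h4
      · exact hhR (h4 ▸ hv)
      · exact hNR h4 hv
  have hY2 : 2 ≤ Y.ncard := by
    have h3 : ({r1, p} : Set V) ⊆ Y := by
      rintro w (h4 | h4)
      · rw [h4]; exact h1
      · rw [Set.mem_singleton_iff] at h4
        rw [h4]; exact hp
    have h4 := Set.ncard_le_ncard h3 (Set.toFinite _)
    rwa [Set.ncard_pair h1p] at h4
  have hR2 : 2 ≤ R.ncard := by
    have h3 : ({r2, q} : Set V) ⊆ R := by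
      rintro w (h4 | h4)
      · rw [h4]; exact h2
      · rw [Set.mem_singleton_iff] at h4
        rw [h4]; exact hq
    have h4 := Set.ncard_le_ncard h3 (Set.toFinite _)
    rwa [Set.ncard_pair h2q] at h4
  have h3 : 3 ≤ (Nb G Y).ncard := by
    by_contra hlt
    push Not at hlt
    have h4 := hM.ex.conn Y (fun v hv => (s.YU hv).1) hY2 (by omega)
    have h5 := Set.ncard_le_ncard hR (Set.toFinite _)
    omega
  have h4 : (insert h N).ncard = N.ncard + 1 :=
    Set.ncard_insert_of_notMem hhN (Set.toFinite _)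
  have h5 := Set.ncard_le_ncard hsub (Set.toFinite _)
  exact ⟨Set.eq_of_subset_of_ncard_le hsub (by omega) (Set.toFinite _), by omega⟩

/-- **No separation of `G - h` of order at most two with further vertices of degree at least three
on both sides.** -/
theorem no_sep [Finite V] (hM : GMin G U) (hU : h ∈ U) (hh : Hand G h p q) {Y N R : Set V}
    (s : Sepn (delV G h) (U \ {h}) Y N R) (hN : N.ncard ≤ 2) {r1 r2 : V} (h1 : r1 ∈ Y)
    (h1p : r1 ≠ p) (h1q : r1 ≠ q) (d1 : 3 ≤ (G.neighborSet r1).ncard) (h2 : r2 ∈ R)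
    (h2p : r2 ≠ p) (h2q : r2 ≠ q) (d2 : 3 ≤ (G.neighborSet r2).ncard) : False := by
  classical
  have hYR := Set.disjoint_left.1 s.YR
  have main : ∀ {p q : V} {Y R : Set V} {r1 r2 : V}, Hand G h p q →
      Sepn (delV G h) (U \ {h}) Y N R → r1 ∈ Y → r1 ≠ p → 3 ≤ (G.neighborSet r1).ncard →
      r2 ∈ R → r2 ≠ q → 3 ≤ (G.neighborSet r2).ncard → p ∈ Y → q ∈ R → False := by
    intro p q Y R r1 r2 hh s h1 h1p d1 h2 h2q d2 hp hq
    obtain ⟨e1, e2⟩ := nb_side hM hh s hN h1 h1p h2 h2q hp hq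
    obtain ⟨e3, -⟩ := nb_side hM hh.symm (sepn_symm s) hN h2 h2q h1 h1p hq hp
    obtain ⟨a, b, hab, hNab⟩ := Set.ncard_eq_two.1 e2
    have hset : insert h N = {a, b, h} := by
      rw [hNab]
      ext v
      simp only [Set.mem_insert_iff, Set.mem_singleton_iff]
      tauto
    have two : ∀ {X : Set V} {x y : V}, x ∈ X → y ∈ X → x ≠ y → 2 ≤ X.ncard := by
      intro X x y hx hy hxy
      have h3 : ({x, y} : Set V) ⊆ X := by
        rintro w (h4 | h4)
        · rw [h4]; exact hx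
        · rw [Set.mem_singleton_iff] at h4
          rw [h4]; exact hy
      have h4 := Set.ncard_le_ncard h3 (Set.toFinite _)
      rwa [Set.ncard_pair hxy] at h4
    have hm : Mix G U h p q a b Y R := by
      refine ⟨hh, hU, fun v hv => (s.YU hv).1, fun v hv => (s.RU hv).1, s.YR,
        fun h3 => (s.YU h3).2 rfl, fun h3 => (s.RU h3).2 rfl, hab, hp, hq, two h1 hp h1p,
        two h2 hq h2q, by rw [e1, hset], by rw [e3, hset], ?_⟩
      intro x hx
      by_cases hxh : x = h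
      · exact Or.inr (Or.inr (Or.inr (Or.inr hxh)))
      · rcases s.cov x ⟨hx, hxh⟩ with h3 | h3 | h3
        · exact Or.inl h3
        · rw [hNab] at h3
          rcases h3 with h3 | h3
          · exact Or.inr (Or.inr (Or.inl h3))
          · exact Or.inr (Or.inr (Or.inr (Or.inl h3)))
        · exact Or.inr (Or.inl h3)
    exact mix4 hM hm h1 h1p d1 h2 h2q d2
  by_cases hpR : p ∈ R
  · by_cases hqY : q ∈ Y
    · exact main hh.symm s h1 h1q d1 h2 h2p d2 hqY hpR
    · exact no_sep_same hM hU hh (sepn_symm s) hN h2 h1 d1 (fun h3 => hYR h3 hpR) hqY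
  · by_cases hqR : q ∈ R
    · by_cases hpY : p ∈ Y
      · exact main hh s h1 h1p d1 h2 h2q d2 hpY hqR
      · exact no_sep_same hM hU hh (sepn_symm s) hN h2 h1 d1 hpY (fun h3 => hYR h3 hqR)
    · exact no_sep_same hM hU hh s hN h1 h2 d2 hpR hqR

end Pool.Agent.Helper20.HD
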