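import Pool.Agent.Helper20.HD.Contract

/-!
# Both ends of a handle soft, with double links and a common neighbour

`h` is a vertex with the neighbours `p`, `q`; in the link graph `p` has the neighbours `q`, `a`, `b'`
and `q` has the neighbours `p`, `a`, `b`, with double links `p b'` and `q b`, and `G - {a, p, q}` is
balanced. Here the contraction of `h` has no dense sets.
-/

set_option autoImplicit false

namespace Pool.Agent.Helper20.HD

open SimpleGraph Pool.Agent.Helper57.TOK Pool.Agent.Helper57.TD Pool.Agent.Helper57.TOP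
  Pool.Agent.Helper82.TK

variable {V : Type*} {G : SimpleGraph V} {U : Set V} {h p q a b b' : V} {κ0 : V → ZMod 2}

/-- The situation. -/
structure DD (G : SimpleGraph V) (U : Set V) (h p q a b b' : V) (κ0 : V → ZMod 2) : Prop where
  gmin : GMin G U
  hU : h ∈ U
  hand : Hand G h p q
  npq : ¬ G.Adj p q
  hp : ∀ v, G.Adj p v → v = h ∨ v = a ∨ Hand G v p a ∨ v = b' ∨ Hand G v p b'
  hq : ∀ v, G.Adj q v → v = h ∨ v = a ∨ Hand G v q a ∨ v = b ∨ Hand G v q b
  pb : G.Adj p b'
  tp : ∃ t, Hand G t p b'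
  qb : G.Adj q b
  tq : ∃ t, Hand G t q b
  ap : a ≠ p
  aq : a ≠ q
  bp : b ≠ p
  bq' : b' ≠ q
  ab : a ≠ b
  ab' : a ≠ b'
  bb' : b ≠ b'
  ra : 3 ≤ (G.neighborSet a).ncard
  bal : ∀ u v, u ≠ a → u ≠ p → u ≠ q → v ≠ a → v ≠ p → v ≠ q → G.Adj u v → κ0 u ≠ κ0 v

lemma DD.symm (d : DD G U h p q a b b' κ0) : DD G U h q p a b' b κ0 where
  gmin := d.gmin
  hU := d.hU
  hand := d.hand.symm
  npq := fun h1 => d.npq h1.symm
  hp := d.hq
  hq := d.hp
  pb := d.qb
  tp := d.tq
  qb := d.pb
  tq := d.tp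
  ap := d.aq
  aq := d.ap
  bp := d.bq'
  bq' := d.bp
  ab := d.ab'
  ab' := d.ab
  bb' := d.bb'.symm
  ra := d.ra
  bal := fun u v h1 h2 h3 h4 h5 h6 => d.bal u v h1 h3 h2 h4 h6 h5

lemma hand_deg [Finite V] {t x y : V} (ht : Hand G t x y) : (G.neighborSet t).ncard = 2 := by
  rw [ht.nb, Set.ncard_pair ht.ne]

lemma DD.rb [Finite V] (d : DD G U h p q a b b' κ0) : 3 ≤ (G.neighborSet b).ncard := by
  obtain ⟨t, ht⟩ := d.tq
  exact gmin_hand_real d.gmin (d.gmin.ex.edge_mem t q ht.hp) ht.symm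

lemma DD.rp [Finite V] (d : DD G U h p q a b b' κ0) : 3 ≤ (G.neighborSet p).ncard :=
  gmin_hand_real d.gmin d.hU d.hand

lemma DD.npb [Finite V] (d : DD G U h p q a b b' κ0) : ¬ G.Adj p b := by
  intro h1
  have hrb := d.rb
  rcases d.hp b h1 with h2 | h2 | h2 | h2 | h2
  · rw [h2, d.hand.nb] at hrb
    have := ncard_pair_le' p q
    omega
  · exact d.ab h2.symm
  · have := hand_deg h2
    omega
  · exact d.bb' h2
  · have := hand_deg h2
    omega

/-- A side of a 3-cut. -/
structure Side (G : SimpleGraph V) (U : Set V) (h p q x : V) (X : Set V) : Prop where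
  XU : X ⊆ U
  ne : ∀ v ∈ X, v ≠ h ∧ v ≠ p ∧ v ≠ q ∧ v ≠ x
  cl : ∀ u ∈ X, ∀ v, G.Adj u v → v ∈ X ∨ v = p ∨ v = q ∨ v = x
  real : ∃ r ∈ X, 3 ≤ (G.neighborSet r).ncard
  other : ∃ r ∈ U, r ≠ h ∧ r ∉ X ∧ r ≠ p ∧ r ≠ q ∧ r ≠ x

/-- Every cut vertex is seen by a side, not only through vertices of degree two with both
neighbours in the cut. -/
lemma Side.sees [Finite V] (d : DD G U h p q a b b' κ0) {x : V} {X : Set V}
    (s : Side G U h p q x X) {z y w : V} (hz : ∀ v, v = p ∨ v = q ∨ v = x → v = z ∨ v = y ∨ v = w) :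
    ∃ u ∈ X, G.Adj u z ∧ (3 ≤ (G.neighborSet u).ncard ∨ ∃ v ∈ X, G.Adj u v) := by
  classical
  by_contra hcon
  push Not at hcon
  obtain ⟨r, hrX, hr3⟩ := s.real
  set Y : Set V := {v | v ∈ X ∧ (3 ≤ (G.neighborSet v).ncard ∨ ∃ w ∈ X, G.Adj v w)} with hY
  have hrY : r ∈ Y := ⟨hrX, Or.inl hr3⟩
  have hN : ∀ v ∈ Nb G Y, v = y ∨ v = w := by
    rintro v ⟨hv, u, hu, huv⟩
    have h1 : v = p ∨ v = q ∨ v = x := by
      rcases s.cl u hu.1 v huv with h2 | h2
      · exact absurd ⟨h2, Or.inr ⟨u, hu.1, huv.symm⟩⟩ hv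
      · exact h2
    rcases hz v h1 with h2 | h2
    · exfalso
      subst h2
      have h3 := hcon u hu.1 huv
      rcases hu.2 with h4 | ⟨w', h4, h5⟩
      · omega
      · exact h3.2 w' h4 h5
    · exact h2
  have h2 : (Nb G Y).ncard ≤ 2 := ncard_le_two_of hN
  have h1 : Y.ncard ≤ 1 := by
    by_contra hlt
    push Not at hlt
    have h3 := d.gmin.ex.conn Y (fun v hv => s.XU hv.1) (by omega) h2
    obtain ⟨r', hr'U, hr'h, hr'X, hr'⟩ := s.other
    have h4 : ({h, r'} : Set V) ⊆ U \ (Y ∪ Nb G Y) := by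
      rintro v (h5 | h5)
      · subst h5
        refine ⟨d.hU, ?_⟩
        rintro (h6 | ⟨-, u, hu, huv⟩)
        · exact (s.ne _ h6.1).1 rfl
        · rcases d.hand.adj.1 huv.symm with h7 | h7
          · exact (s.ne u hu.1).2.1 h7
          · exact (s.ne u hu.1).2.2.1 h7
      · rw [Set.mem_singleton_iff] at h5
        subst h5
        refine ⟨hr'U, ?_⟩
        rintro (h6 | ⟨-, u, hu, huv⟩)
        · exact hr'X h6.1
        · rcases s.cl u hu.1 _ huv with h7 | h7 | h7 | h7
          · exact hr'X h7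
          · exact hr'.1 h7
          · exact hr'.2.1 h7
          · exact hr'.2.2 h7
    have h5 := Set.ncard_le_ncard h4 (Set.toFinite _)
    rw [Set.ncard_pair hr'h.symm] at h5
    omega
  have h3 : Y = {r} := by
    symm
    apply Set.eq_of_subset_of_ncard_le _ _ (Set.toFinite _)
    · intro v hv
      rw [Set.mem_singleton_iff] at hv
      rw [hv]; exact hrY
    · rw [Set.ncard_singleton]; exact h1
  rw [h3, Nb_singleton] at h2
  omega

lemma Side.p_side [Finite V] (d : DD G U h p q a b b' κ0) {x : V} {X : Set V}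
    (s : Side G U h p q x X) : a ∈ X ∨ b' ∈ X := by
  obtain ⟨u, hu, hup, hu'⟩ := s.sees d (z := p) (y := q) (w := x) (fun v hv => hv)
  have key : ∀ {z : V}, Hand G u p z → z ∈ X := by
    intro z hz
    rcases hu' with h1 | ⟨v, hv, huv⟩
    · have := hand_deg hz
      omega
    · rcases hz.adj.1 huv with h2 | h2
      · exact absurd h2 (s.ne v hv).2.1
      · rw [← h2]; exact hv
  rcases d.hp u hup.symm with h1 | h1 | h1 | h1 | h1
  · exact absurd h1 (s.ne u hu).1
  · exact Or.inl (h1 ▸ hu)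
  · exact Or.inl (key h1)
  · exact Or.inr (h1 ▸ hu)
  · exact Or.inr (key h1)

lemma Side.swap {x : V} {X : Set V} (s : Side G U h p q x X) : Side G U h q p x X where
  XU := s.XU
  ne := fun v hv => ⟨(s.ne v hv).1, (s.ne v hv).2.2.1, (s.ne v hv).2.1, (s.ne v hv).2.2.2⟩
  cl := fun u hu v huv => by
    rcases s.cl u hu v huv with h1 | h1 | h1 | h1
    · exact Or.inl h1
    · exact Or.inr (Or.inr (Or.inl h1))
    · exact Or.inr (Or.inl h1)
    · exact Or.inr (Or.inr (Or.inr h1))
  real := s.real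
  other := by
    obtain ⟨r, h1, h2, h3, h4, h5, h6⟩ := s.other
    exact ⟨r, h1, h2, h3, h5, h4, h6⟩

lemma Side.q_side [Finite V] (d : DD G U h p q a b b' κ0) {x : V} {X : Set V}
    (s : Side G U h p q x X) : a ∈ X ∨ b ∈ X := s.swap.p_side d.symm

/-- Vertices of degree at most two contribute nothing. -/
lemma fden_add_small [Finite V] {Y T : Set V} (hd : ∀ t ∈ T, t ∉ Y)
    (hdeg : ∀ t ∈ T, (G.neighborSet t).ncard ≤ 2) : fden G (Y ∪ T) ≤ fden G Y := by
  have hfin : T.Finite := Set.toFinite _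
  induction T, hfin using Set.Finite.induction_on with
  | empty => simp
  | @insert t T ht hT ih =>
    have h1 := ih (fun x hx => hd x (Or.inr hx)) (fun x hx => hdeg x (Or.inr hx))
    have h2 : t ∉ Y ∪ T := by
      rintro (h3 | h3)
      · exact hd t (Or.inl rfl) h3
      · exact ht h3
    rw [Set.union_insert, fden_insert G h2]
    have h3 := Set.ncard_le_ncard (Set.sdiff_subset (s := G.neighborSet t) (t := Y ∪ T))
      (Set.toFinite _)
    have h4 := hdeg t (Or.inl rfl)
    omega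

/-- The bad 3-cut does not exist. -/
lemma DD.no_cut [Finite V] (d : DD G U h p q a b b' κ0) {x : V} {X1 X2 : Set V}
    (s1 : Side G U h p q x X1) (s2 : Side G U h p q x X2)
    (hd : ∀ v ∈ X1, v ∉ X2)
    (hcov : ∀ v ∈ U, v ∈ X1 ∨ v ∈ X2 ∨ v = h ∨ v = p ∨ v = q ∨ v = x)
    (ha : a ∈ X1) (hb : b ∈ X2) (hb' : b' ∈ X2) : False := by
  classical
  have hra := d.ra
  have hrb := d.rb
  have hrb' := d.symm.rb
  have hrp := d.rp
  have hrq := d.symm.rp
  have hxa : x ≠ a := fun h1 => (s1.ne a ha).2.2.2 h1.symm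
  have hxb : x ≠ b := fun h1 => (s2.ne b hb).2.2.2 h1.symm
  have hxb' : x ≠ b' := fun h1 => (s2.ne b' hb').2.2.2 h1.symm
  have haX2 : a ∉ X2 := hd a ha
  -- no edges between the sides
  have hno : ∀ u ∈ X1, ∀ v ∈ X2, ¬ G.Adj u v := by
    intro u hu v hv huv
    rcases s1.cl u hu v huv with h1 | h1 | h1 | h1
    · exact hd v h1 hv
    · exact (s2.ne v hv).2.1 h1
    · exact (s2.ne v hv).2.2.1 h1
    · exact (s2.ne v hv).2.2.2 h1
  -- `x` is adjacent to neither `p` nor `q`
  have hz : ∀ v, v = p ∨ v = q ∨ v = x → v = x ∨ v = p ∨ v = q := by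
    rintro v (h1 | h1 | h1)
    · exact Or.inr (Or.inl h1)
    · exact Or.inr (Or.inr h1)
    · exact Or.inl h1
  obtain ⟨u1, hu1, hu1x, -⟩ := s1.sees d (z := x) (y := p) (w := q) hz
  obtain ⟨u2, hu2, hu2x, -⟩ := s2.sees d (z := x) (y := p) (w := q) hz
  have hpx : ¬ G.Adj p x := by
    intro h1
    rcases d.hp x h1 with h2 | h2 | h2 | h2 | h2
    · subst h2
      rcases d.hand.adj.1 hu1x.symm with h3 | h3
      · exact (s1.ne u1 hu1).2.1 h3
      · exact (s1.ne u1 hu1).2.2.1 h3
    · exact hxa h2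
    · rcases h2.adj.1 hu2x.symm with h3 | h3
      · exact (s2.ne u2 hu2).2.1 h3
      · exact haX2 (h3 ▸ hu2)
    · exact hxb' h2
    · rcases h2.adj.1 hu1x.symm with h3 | h3
      · exact (s1.ne u1 hu1).2.1 h3
      · exact hd u1 hu1 (h3 ▸ hb')
  have hqx : ¬ G.Adj q x := by
    intro h1
    rcases d.hq x h1 with h2 | h2 | h2 | h2 | h2
    · subst h2
      rcases d.hand.adj.1 hu1x.symm with h3 | h3
      · exact (s1.ne u1 hu1).2.1 h3
      · exact (s1.ne u1 hu1).2.2.1 h3
    · exact hxa h2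
    · rcases h2.adj.1 hu2x.symm with h3 | h3
      · exact (s2.ne u2 hu2).2.2.1 h3
      · exact haX2 (h3 ▸ hu2)
    · exact hxb h2
    · rcases h2.adj.1 hu1x.symm with h3 | h3
      · exact (s1.ne u1 hu1).2.2.1 h3
      · exact hd u1 hu1 (h3 ▸ hb)
  -- vertices of degree two at `p` or `q`
  have hdp : ∀ v, G.Adj p v → v ≠ a → v ≠ b' → (G.neighborSet v).ncard ≤ 2 := by
    intro v hv h1 h2
    rcases d.hp v hv with h3 | h3 | h3 | h3 | h3
    · rw [h3, hand_deg d.hand]
    · exact absurd h3 h1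
    · rw [hand_deg h3]
    · exact absurd h3 h2
    · rw [hand_deg h3]
  have hdq : ∀ v, G.Adj q v → v ≠ a → v ≠ b → (G.neighborSet v).ncard ≤ 2 := by
    intro v hv h1 h2
    rcases d.hq v hv with h3 | h3 | h3 | h3 | h3
    · rw [h3, hand_deg d.hand]
    · exact absurd h3 h1
    · rw [hand_deg h3]
    · exact absurd h3 h2
    · rw [hand_deg h3]
  have hpU : p ∈ U := d.gmin.ex.edge_mem p h d.hand.hp.symm
  have hqU : q ∈ U := d.gmin.ex.edge_mem q h d.hand.hq.symm
  have haU : a ∈ U := s1.XU ha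
  have hxU : x ∈ U := d.gmin.ex.edge_mem x u1 hu1x.symm
  -- the set `W`
  set W : Set V := X2 ∪ ({p, q} ∪ {v | (G.Adj p v ∨ G.Adj q v) ∧ v ≠ a}) with hW
  have hWU : W ⊆ U := by
    rintro v (h1 | (h1 | h1) | ⟨h1 | h1, -⟩)
    · exact s2.XU h1
    · rw [h1]; exact hpU
    · rw [Set.mem_singleton_iff] at h1; rw [h1]; exact hqU
    · exact d.gmin.ex.edge_mem v p h1.symm
    · exact d.gmin.ex.edge_mem v q h1.symm
  have hpW : p ∈ W := Or.inr (Or.inl (Or.inl rfl))
  have hqW : q ∈ W := Or.inr (Or.inl (Or.inr rfl))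
  have hNW : ∀ v ∈ Nb G W, v = a ∨ v = x := by
    rintro v ⟨hv, u, hu, huv⟩
    by_contra hcon
    push Not at hcon
    have hX2 : ∀ u ∈ X2, G.Adj u v → False := by
      intro u hu huv
      rcases s2.cl u hu v huv with h3 | h3 | h3 | h3
      · exact hv (Or.inl h3)
      · exact hv (h3 ▸ hpW)
      · exact hv (h3 ▸ hqW)
      · exact hcon.2 h3
    have hH : ∀ z1 z2, Hand G u z1 z2 → z1 ∈ W → z2 = a ∨ z2 ∈ W → False := by
      intro z1 z2 h3 h4 h5
      rcases h3.adj.1 huv with h6 | h6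
      · exact hv (h6 ▸ h4)
      · rcases h5 with h5 | h5
        · exact hcon.1 (h6.trans h5)
        · exact hv (h6 ▸ h5)
    rcases hu with hu | (hu | hu) | ⟨hu | hu, hua⟩
    · exact hX2 u hu huv
    · rw [hu] at huv
      exact hv (Or.inr (Or.inr ⟨Or.inl huv, hcon.1⟩))
    · rw [Set.mem_singleton_iff] at hu
      rw [hu] at huv
      exact hv (Or.inr (Or.inr ⟨Or.inr huv, hcon.1⟩))
    · rcases d.hp u hu with h3 | h3 | h3 | h3 | h3
      · exact hH p q (h3 ▸ d.hand) hpW (Or.inr hqW)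
      · exact hua h3
      · exact hH p a h3 hpW (Or.inl rfl)
      · exact hX2 u (h3 ▸ hb') huv
      · exact hH p b' h3 hpW (Or.inr (Or.inl hb'))
    · rcases d.hq u hu with h3 | h3 | h3 | h3 | h3
      · exact hH p q (h3 ▸ d.hand) hpW (Or.inr hqW)
      · exact hua h3
      · exact hH q a h3 hqW (Or.inl rfl)
      · exact hX2 u (h3 ▸ hb) huv
      · exact hH q b h3 hqW (Or.inr (Or.inl hb))
  have hW2 : 2 ≤ W.ncard := by
    have h1 : ({p, q} : Set V) ⊆ W := fun v hv => Or.inr (Or.inl hv)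
    have h2 := Set.ncard_le_ncard h1 (Set.toFinite _)
    rwa [Set.ncard_pair d.hand.ne] at h2
  have hWr := d.gmin.ex.conn W hWU hW2 (ncard_le_two_of hNW)
  -- the rest of `X1` has degree at most two
  have hX1 : ∀ v ∈ X1, v ≠ a → (G.neighborSet v).ncard ≤ 2 := by
    intro v hv hva
    by_cases hvW : G.Adj p v ∨ G.Adj q v
    · rcases hvW with h1 | h1
      · exact hdp v h1 hva (fun h2 => hd v hv (h2 ▸ hb'))
      · exact hdq v h1 hva (fun h2 => hd v hv (h2 ▸ hb))
    · apply ncard_le_two_of (a := a) (b := x)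
      intro y hy
      have hvy : G.Adj v y := hy
      by_contra hcon
      push Not at hcon
      rcases s1.cl v hv y hvy with h1 | h1 | h1 | h1
      · -- both `v` and `y` are in the rest of `W`, or `y` is adjacent to `p` or `q`
        by_cases hyW : G.Adj p y ∨ G.Adj q y
        · -- `y` has degree two, neighbours `p` or `q` and `a`
          have hyy : ∀ z1 z2, Hand G y z1 z2 → z1 ∉ X1 → (z2 = a ∨ z2 ∉ X1) → False := by
            intro z1 z2 h3 h4 h5
            rcases h3.adj.1 hvy.symm with h6 | h6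
            · exact h4 (h6 ▸ hv)
            · rcases h5 with h5 | h5
              · exact hva (h6.trans h5)
              · exact h5 (h6 ▸ hv)
          have hp1 : p ∉ X1 := fun h3 => (s1.ne p h3).2.1 rfl
          have hq1 : q ∉ X1 := fun h3 => (s1.ne q h3).2.2.1 rfl
          rcases hyW with h2 | h2
          · rcases d.hp y h2 with h3 | h3 | h3 | h3 | h3
            · exact (s1.ne y h1).1 h3
            · exact hcon.1 h3
            · exact hyy p a h3 hp1 (Or.inl rfl)
            · exact hd y h1 (h3 ▸ hb')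
            · exact hyy p b' h3 hp1 (Or.inr (fun h4 => hd b' h4 hb'))
          · rcases d.hq y h2 with h3 | h3 | h3 | h3 | h3
            · exact (s1.ne y h1).1 h3
            · exact hcon.1 h3
            · exact hyy q a h3 hq1 (Or.inl rfl)
            · exact hd y h1 (h3 ▸ hb)
            · exact hyy q b h3 hq1 (Or.inr (fun h4 => hd b h4 hb))
        · have hmem : ∀ z ∈ X1, z ≠ a → ¬ (G.Adj p z ∨ G.Adj q z) →
              z ∈ U \ (W ∪ Nb G W) := by
            intro z hz hza hzW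
            refine ⟨s1.XU hz, ?_⟩
            rintro ((h3 | (h3 | h3) | ⟨h3, -⟩) | h3)
            · exact hd z hz h3
            · exact (s1.ne z hz).2.1 h3
            · exact (s1.ne z hz).2.2.1 h3
            · exact hzW h3
            · rcases hNW z h3 with h4 | h4
              · exact hza h4
              · exact (s1.ne z hz).2.2.2 h4
          have h3 : ({v, y} : Set V) ⊆ U \ (W ∪ Nb G W) := by
            rintro z (h4 | h4)
            · rw [h4]; exact hmem v hv hva hvW
            · rw [Set.mem_singleton_iff] at h4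
              rw [h4]; exact hmem y h1 hcon.1 hyW
          have h4 := Set.ncard_le_ncard h3 (Set.toFinite _)
          rw [Set.ncard_pair hvy.ne] at h4
          omega
      · exact hvW (Or.inl (h1 ▸ hvy.symm))
      · exact hvW (Or.inr (h1 ▸ hvy.symm))
      · exact hcon.2 h1
  -- the set `Y`
  set Y : Set V := {v | v ∈ X2 ∧ v ≠ b ∧ v ≠ b' ∧ ¬ G.Adj p v ∧ ¬ G.Adj q v} with hY
  have hYU : Y ⊆ U := fun v hv => s2.XU hv.1
  have hYout : ∀ u ∈ Y, ∀ v, G.Adj u v → v ≠ a ∧ v ≠ p ∧ v ≠ q ∧ (v ∈ X2 ∨ v = x) := by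
    intro u hu v huv
    have hvp : v ≠ p := fun h1 => hu.2.2.2.1 (h1 ▸ huv.symm)
    have hvq : v ≠ q := fun h1 => hu.2.2.2.2 (h1 ▸ huv.symm)
    have hva : v ≠ a := fun h1 => hno a ha u hu.1 (h1 ▸ huv.symm)
    refine ⟨hva, hvp, hvq, ?_⟩
    rcases s2.cl u hu.1 v huv with h1 | h1 | h1 | h1
    · exact Or.inl h1
    · exact absurd h1 hvp
    · exact absurd h1 hvq
    · exact Or.inr h1
  have hYb : PB G κ0 Y := by
    intro u v hu huv
    obtain ⟨h1, h2, h3, -⟩ := hYout u hu v huv
    exact d.bal u v (fun h4 => haX2 (h4 ▸ hu.1)) (s2.ne u hu.1).2.1 (s2.ne u hu.1).2.2.1 h1 h2 h3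
      huv
  have hYN : Nb G Y ⊆ {b, b', x} := by
    rintro v ⟨hv, u, hu, huv⟩
    obtain ⟨h1, h2, h3, h4⟩ := hYout u hu v huv
    rcases h4 with h4 | h4
    · by_contra hcon
      have hvb : v ≠ b := fun h5 => hcon (Or.inl h5)
      have hvb' : v ≠ b' := fun h5 => hcon (Or.inr (Or.inl h5))
      -- `v` is adjacent to `p` or `q`
      have h5 : G.Adj p v ∨ G.Adj q v := by
        by_contra h6
        push Not at h6
        exact hv ⟨h4, hvb, hvb', h6.1, h6.2⟩
      have hH : ∀ z1 z2, Hand G v z1 z2 → (z1 = p ∨ z1 = q) → (z2 = a ∨ z2 = b ∨ z2 = b') →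
          False := by
        intro z1 z2 h6 h7 h8
        rcases h6.adj.1 huv.symm with h9 | h9
        · rcases h7 with h7 | h7
          · exact (s2.ne u hu.1).2.1 (h9.trans h7)
          · exact (s2.ne u hu.1).2.2.1 (h9.trans h7)
        · rcases h8 with h8 | h8 | h8
          · exact haX2 (h8 ▸ h9 ▸ hu.1)
          · exact hu.2.1 (h9.trans h8)
          · exact hu.2.2.1 (h9.trans h8)
      rcases h5 with h5 | h5
      · rcases d.hp v h5 with h6 | h6 | h6 | h6 | h6
        · exact (s2.ne v h4).1 h6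
        · exact h1 h6
        · exact hH p a h6 (Or.inl rfl) (Or.inl rfl)
        · exact hvb' h6
        · exact hH p b' h6 (Or.inl rfl) (Or.inr (Or.inr rfl))
      · rcases d.hq v h5 with h6 | h6 | h6 | h6 | h6
        · exact (s2.ne v h4).1 h6
        · exact h1 h6
        · exact hH q a h6 (Or.inr rfl) (Or.inl rfl)
        · exact hvb h6
        · exact hH q b h6 (Or.inr rfl) (Or.inr (Or.inl rfl))
    · exact Or.inr (Or.inr h4)
  have hfY : fden G Y ≤ 1 := by
    have h3 : ({b, b', x} : Set V).ncard ≤ 3 := by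
      have e1 := Set.ncard_insert_le b ({b', x} : Set V)
      have e2 := ncard_pair_le' b' x
      omega
    have h4 := (Set.ncard_le_ncard hYN (Set.toFinite _)).trans h3
    by_cases h5 : (Nb G Y).ncard = 3
    · have h6 := gmin_P1 d.gmin hYU hYb h5
      have h7 := beta_le κ0 (Nb G Y)
      rw [h5] at h7
      push_cast at h7
      linarith
    · have h6 : Y.ncard ≤ 1 := by
        by_contra hlt
        push Not at hlt
        have := gmin_three_le d.gmin hYU hYb (by omega)
        omega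
      have h7 : fden G Y ≤ 0 := by
        apply fden_le_zero_of_deg
        intro v hv
        have h8 : Y = {v} := by
          symm
          apply Set.eq_of_subset_of_ncard_le _ _ (Set.toFinite _)
          · intro w hw
            rw [Set.mem_singleton_iff] at hw
            rw [hw]; exact hv
          · rw [Set.ncard_singleton]; exact h6
        have h9 : (Nb G Y).ncard ≤ 2 := by omega
        rw [h8, Nb_singleton] at h9
        exact h9
      linarith
  -- the count
  set T : Set V := {v | v ∈ U ∧ v ∉ Y ∧ v ≠ x ∧ (G.neighborSet v).ncard ≤ 2} with hT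
  have hS0 : fden G (Y ∪ T) ≤ fden G Y :=
    fden_add_small (fun t ht => ht.2.1) (fun t ht => ht.2.2.2)
  have hcov2 : ∀ v ∈ U, v ∈ Y ∪ T ∨ v = a ∨ v = b ∨ v = b' ∨ v = x ∨ v = p ∨ v = q := by
    intro v hv
    by_contra hcon
    push Not at hcon
    obtain ⟨h1, h2, h3, h4, h5, h6, h7⟩ := hcon
    have hvY : v ∉ Y := fun h8 => h1 (Or.inl h8)
    have hdeg : ¬ (G.neighborSet v).ncard ≤ 2 := fun h8 => h1 (Or.inr ⟨hv, hvY, h5, h8⟩)
    rcases hcov v hv with h8 | h8 | h8 | h8 | h8 | h8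
    · exact hdeg (hX1 v h8 h2)
    · by_cases h9 : G.Adj p v
      · exact hdeg (hdp v h9 h2 h4)
      · by_cases h10 : G.Adj q v
        · exact hdeg (hdq v h10 h2 h3)
        · exact hvY ⟨h8, h3, h4, h9, h10⟩
    · apply hdeg
      rw [h8, hand_deg d.hand]
    · exact h6 h8
    · exact h7 h8
    · exact h5 h8
  have hreal : ∀ v, 3 ≤ (G.neighborSet v).ncard → v ∉ T := by
    intro v hv h1
    have := h1.2.2.2
    omega
  have hnS : ∀ {v : V}, v ∉ Y → v ∉ T → v ∉ Y ∪ T := by
    intro v h1 h2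
    rintro (h3 | h3)
    · exact h1 h3
    · exact h2 h3
  have nb1 : b ∉ Y ∪ T := hnS (fun h1 => h1.2.1 rfl) (hreal b hrb)
  have nb2 : b' ∉ Y ∪ T := hnS (fun h1 => h1.2.2.1 rfl) (hreal b' hrb')
  have nx : x ∉ Y ∪ T := hnS (fun h1 => (s2.ne x h1.1).2.2.2 rfl) (fun h1 => h1.2.2.1 rfl)
  have na : a ∉ Y ∪ T := hnS (fun h1 => haX2 h1.1) (hreal a hra)
  have np : p ∉ Y ∪ T := hnS (fun h1 => (s2.ne p h1.1).2.1 rfl) (hreal p hrp)
  have nq : q ∉ Y ∪ T := hnS (fun h1 => (s2.ne q h1.1).2.2.1 rfl) (hreal q hrq)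
  have hxp : x ≠ p := by
    intro h1
    obtain ⟨u, hu, huh, -⟩ := s1.sees d (z := h) (y := p) (w := q) (by
      rintro v (h2 | h2 | h2)
      · exact Or.inr (Or.inl h2)
      · exact Or.inr (Or.inr h2)
      · exact Or.inr (Or.inl (h2.trans h1)))
    rcases d.hand.adj.1 huh.symm with h3 | h3
    · exact (s1.ne u hu).2.1 h3
    · exact (s1.ne u hu).2.2.1 h3
  have hxq : x ≠ q := by
    intro h1
    obtain ⟨u, hu, huh, -⟩ := s1.sees d (z := h) (y := p) (w := q) (by
      rintro v (h2 | h2 | h2)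
      · exact Or.inr (Or.inl h2)
      · exact Or.inr (Or.inr h2)
      · exact Or.inr (Or.inr (h2.trans h1)))
    rcases d.hand.adj.1 huh.symm with h3 | h3
    · exact (s1.ne u hu).2.1 h3
    · exact (s1.ne u hu).2.2.1 h3
  have step : ∀ {S : Set V} {y : V} {k : ℕ}, y ∉ S → (G.neighborSet y \ S).ncard ≤ k →
      fden G (insert y S) ≤ fden G S + (k : ℤ) - 2 := by
    intro S y k h1 h2
    rw [fden_insert G h1]
    have : ((G.neighborSet y \ S).ncard : ℤ) ≤ (k : ℤ) := by exact_mod_cast h2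
    linarith
  have hmemU : ∀ {u v : V}, G.Adj u v → v ∈ U := fun {u v} huv =>
    d.gmin.ex.edge_mem v u huv.symm
  have npb := d.npb
  have nqb' := d.symm.npb
  have e1 : fden G (insert b (Y ∪ T)) ≤ fden G (Y ∪ T) + ((3 : ℕ) : ℤ) - 2 := by
    apply step nb1
    have h1 : G.neighborSet b \ (Y ∪ T) ⊆ {b', x, q} := by
      rintro v ⟨hv, hvS⟩
      have hbv : G.Adj b v := hv
      rcases hcov2 v (hmemU hbv) with h2 | h2 | h2 | h2 | h2 | h2 | h2
      · exact absurd h2 hvS
      · exact absurd (h2 ▸ hbv.symm) (hno a ha b hb)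
      · exact absurd h2 hbv.ne'
      · exact Or.inl h2
      · exact Or.inr (Or.inl h2)
      · exact absurd (h2 ▸ hbv.symm) npb
      · exact Or.inr (Or.inr h2)
    refine (Set.ncard_le_ncard h1 (Set.toFinite _)).trans ?_
    have f1 := Set.ncard_insert_le b' ({x, q} : Set V)
    have f2 := ncard_pair_le' x q
    omega
  have e2 : fden G (insert b' (insert b (Y ∪ T))) ≤
      fden G (insert b (Y ∪ T)) + ((2 : ℕ) : ℤ) - 2 := by
    apply step
    · rintro (h1 | h1)
      · exact d.bb' h1.symm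
      · exact nb2 h1
    · apply ncard_le_two_of (a := x) (b := p)
      rintro v ⟨hv, hvS⟩
      have hbv : G.Adj b' v := hv
      rcases hcov2 v (hmemU hbv) with h2 | h2 | h2 | h2 | h2 | h2 | h2
      · exact absurd (Or.inr h2) hvS
      · exact absurd (h2 ▸ hbv.symm) (hno a ha b' hb')
      · exact absurd (Or.inl h2) hvS
      · exact absurd h2 hbv.ne'
      · exact Or.inl h2
      · exact Or.inr h2
      · exact absurd (h2 ▸ hbv.symm) nqb'
  have e3 : fden G (insert x (insert b' (insert b (Y ∪ T)))) ≤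
      fden G (insert b' (insert b (Y ∪ T))) + ((1 : ℕ) : ℤ) - 2 := by
    apply step
    · rintro (h1 | h1 | h1)
      · exact hxb' h1
      · exact hxb h1
      · exact nx h1
    · have h1 : G.neighborSet x \ (insert b' (insert b (Y ∪ T))) ⊆ {a} := by
        rintro v ⟨hv, hvS⟩
        have hbv : G.Adj x v := hv
        rcases hcov2 v (hmemU hbv) with h2 | h2 | h2 | h2 | h2 | h2 | h2
        · exact absurd (Or.inr (Or.inr h2)) hvS
        · exact h2
        · exact absurd (Or.inr (Or.inl h2)) hvS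
        · exact absurd (Or.inl h2) hvS
        · exact absurd h2 hbv.ne'
        · exact absurd (h2 ▸ hbv.symm) hpx
        · exact absurd (h2 ▸ hbv.symm) hqx
      have h2 := Set.ncard_le_ncard h1 (Set.toFinite _)
      rwa [Set.ncard_singleton] at h2
  have e4 : fden G (insert a (insert x (insert b' (insert b (Y ∪ T))))) ≤
      fden G (insert x (insert b' (insert b (Y ∪ T)))) + ((2 : ℕ) : ℤ) - 2 := by
    apply step
    · rintro (h1 | h1 | h1 | h1)
      · exact hxa h1.symm
      · exact d.ab' h1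
      · exact d.ab h1
      · exact na h1
    · apply ncard_le_two_of (a := p) (b := q)
      rintro v ⟨hv, hvS⟩
      have hbv : G.Adj a v := hv
      rcases hcov2 v (hmemU hbv) with h2 | h2 | h2 | h2 | h2 | h2 | h2
      · exact absurd (Or.inr (Or.inr (Or.inr h2))) hvS
      · exact absurd h2 hbv.ne'
      · exact absurd (Or.inr (Or.inr (Or.inl h2))) hvS
      · exact absurd (Or.inr (Or.inl h2)) hvS
      · exact absurd (Or.inl h2) hvS
      · exact Or.inl h2
      · exact Or.inr h2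
  have e5 : fden G (insert p (insert a (insert x (insert b' (insert b (Y ∪ T)))))) ≤
      fden G (insert a (insert x (insert b' (insert b (Y ∪ T))))) + ((0 : ℕ) : ℤ) - 2 := by
    apply step
    · rintro (h1 | h1 | h1 | h1 | h1)
      · exact d.ap h1.symm
      · exact hxp h1.symm
      · exact d.pb.ne h1
      · exact d.bp h1.symm
      · exact np h1
    · rw [Nat.le_zero, Set.ncard_eq_zero (Set.toFinite _)]
      ext v
      constructor
      · rintro ⟨hv, hvS⟩
        have hbv : G.Adj p v := hv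
        rcases hcov2 v (hmemU hbv) with h2 | h2 | h2 | h2 | h2 | h2 | h2
        · exact absurd (Or.inr (Or.inr (Or.inr (Or.inr h2)))) hvS
        · exact absurd (Or.inl h2) hvS
        · exact absurd (Or.inr (Or.inr (Or.inr (Or.inl h2)))) hvS
        · exact absurd (Or.inr (Or.inr (Or.inl h2))) hvS
        · exact absurd (Or.inr (Or.inl h2)) hvS
        · exact absurd h2 hbv.ne'
        · exact absurd (h2 ▸ hbv) d.npq
      · exact fun h1 => absurd h1 (Set.notMem_empty v)
  have e6 : fden G (insert q (insert p (insert a (insert x (insert b' (insert b (Y ∪ T))))))) ≤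
      fden G (insert p (insert a (insert x (insert b' (insert b (Y ∪ T)))))) +
        ((0 : ℕ) : ℤ) - 2 := by
    apply step
    · rintro (h1 | h1 | h1 | h1 | h1 | h1)
      · exact d.hand.ne h1.symm
      · exact d.aq h1.symm
      · exact hxq h1.symm
      · exact d.bq' h1.symm
      · exact d.qb.ne h1
      · exact nq h1
    · rw [Nat.le_zero, Set.ncard_eq_zero (Set.toFinite _)]
      ext v
      constructor
      · rintro ⟨hv, hvS⟩
        have hbv : G.Adj q v := hv
        rcases hcov2 v (hmemU hbv) with h2 | h2 | h2 | h2 | h2 | h2 | h2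
        · exact absurd (Or.inr (Or.inr (Or.inr (Or.inr (Or.inr h2))))) hvS
        · exact absurd (Or.inr (Or.inl h2)) hvS
        · exact absurd (Or.inr (Or.inr (Or.inr (Or.inr (Or.inl h2))))) hvS
        · exact absurd (Or.inr (Or.inr (Or.inr (Or.inl h2)))) hvS
        · exact absurd (Or.inr (Or.inr (Or.inl h2))) hvS
        · exact absurd (Or.inl h2) hvS
        · exact absurd h2 hbv.ne'
      · exact fun h1 => absurd h1 (Set.notMem_empty v)
  have hall : insert q (insert p (insert a (insert x (insert b' (insert b (Y ∪ T)))))) = U := by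
    ext v
    constructor
    · rintro (h1 | h1 | h1 | h1 | h1 | h1 | h1 | h1)
      · rw [h1]; exact hqU
      · rw [h1]; exact hpU
      · rw [h1]; exact haU
      · rw [h1]; exact hxU
      · rw [h1]; exact s2.XU hb'
      · rw [h1]; exact s2.XU hb
      · exact hYU h1
      · exact h1.1
    · intro hv
      rcases hcov2 v hv with h2 | h2 | h2 | h2 | h2 | h2 | h2
      · exact Or.inr (Or.inr (Or.inr (Or.inr (Or.inr (Or.inr h2)))))
      · exact Or.inr (Or.inr (Or.inl h2))
      · exact Or.inr (Or.inr (Or.inr (Or.inr (Or.inr (Or.inl h2)))))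
      · exact Or.inr (Or.inr (Or.inr (Or.inr (Or.inl h2))))
      · exact Or.inr (Or.inr (Or.inr (Or.inl h2)))
      · exact Or.inr (Or.inl h2)
      · exact Or.inl h2
  rw [hall] at e6
  have hrho : rho G U = G.edgeSet.ncard := by
    unfold rho
    congr 1
    ext e
    induction e using Sym2.ind with
    | _ u v =>
      rw [mem_EAt, SimpleGraph.mem_edgeSet]
      constructor
      · exact fun h1 => h1.1
      · exact fun h1 => ⟨h1, Or.inl (d.gmin.ex.edge_mem u v h1)⟩
  have hdens := d.gmin.ex.dens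
  rw [odG_one] at hdens
  have hfU : fden G U = (G.edgeSet.ncard : ℤ) - 2 * (U.ncard : ℤ) := by
    unfold fden
    rw [hrho]
  push_cast at e1 e2 e3 e4 e5 e6
  have hdens' : 2 * (U.ncard : ℤ) ≤ (G.edgeSet.ncard : ℤ) + 2 := by exact_mod_cast hdens
  linarith

theorem DD.hcut [Finite V] (d : DD G U h p q a b b' κ0) : HCut G U h p q := by
  intro x X1 X2 hX1 hX2 hne1 hne2 hdis hcov hno hr1 hr2
  have hd := Set.disjoint_left.1 hdis
  have mk : ∀ {X X' : Set V}, X ⊆ U → X' ⊆ U → (∀ v ∈ X, v ≠ h ∧ v ≠ p ∧ v ≠ q ∧ v ≠ x) →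
      (∀ v ∈ X', v ≠ h ∧ v ≠ p ∧ v ≠ q ∧ v ≠ x) → (∀ v ∈ X, v ∉ X') →
      (∀ v ∈ U, v ∈ X ∨ v ∈ X' ∨ v = h ∨ v = p ∨ v = q ∨ v = x) →
      (∀ u ∈ X, ∀ v ∈ X', ¬ G.Adj u v) → (∃ r ∈ X, 3 ≤ (G.neighborSet r).ncard) →
      (∃ r ∈ X', 3 ≤ (G.neighborSet r).ncard) → Side G U h p q x X := by
    intro X X' h1 h1' h2 h2' h3 h4 h5 h6 h7
    refine ⟨h1, h2, ?_, h6, ?_⟩
    · intro u hu v huv
      rcases h4 v (d.gmin.ex.edge_mem v u huv.symm) with h8 | h8 | h8 | h8 | h8 | h8
      · exact Or.inl h8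
      · exact absurd huv (h5 u hu v h8)
      · exfalso
        subst h8
        rcases d.hand.adj.1 huv.symm with h9 | h9
        · exact (h2 u hu).2.1 h9
        · exact (h2 u hu).2.2.1 h9
      · exact Or.inr (Or.inl h8)
      · exact Or.inr (Or.inr (Or.inl h8))
      · exact Or.inr (Or.inr (Or.inr h8))
    · obtain ⟨r, hr, -⟩ := h7
      have h8 := h2' r hr
      exact ⟨r, h1' hr, h8.1, fun h9 => h3 r h9 hr, h8.2.1, h8.2.2.1, h8.2.2.2⟩
  have hcov' : ∀ v ∈ U, v ∈ X2 ∨ v ∈ X1 ∨ v = h ∨ v = p ∨ v = q ∨ v = x := by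
    intro v hv
    rcases hcov v hv with h1 | h1 | h1
    · exact Or.inr (Or.inl h1)
    · exact Or.inl h1
    · exact Or.inr (Or.inr h1)
  have s1 := mk hX1 hX2 hne1 hne2 (fun v h1 h2 => hd h1 h2) hcov hno hr1 hr2
  have s2 := mk hX2 hX1 hne2 hne1 (fun v h1 h2 => hd h2 h1) hcov'
    (fun u hu v hv huv => hno v hv u hu huv.symm) hr2 hr1
  by_cases ha1 : a ∈ X1
  · have ha2 : a ∉ X2 := fun h1 => hd ha1 h1
    exact d.no_cut s1 s2 (fun v h1 h2 => hd h1 h2) hcov ha1
      ((s2.q_side d).resolve_left ha2) ((s2.p_side d).resolve_left ha2)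
  · have hb1 := (s1.q_side d).resolve_left ha1
    have hb1' := (s1.p_side d).resolve_left ha1
    have ha2 : a ∈ X2 := by
      rcases s2.p_side d with h1 | h1
      · exact h1
      · exact absurd h1 (fun h2 => hd hb1' h2)
    exact d.no_cut s2 s1 (fun v h1 h2 => hd h2 h1) hcov' ha2 hb1 hb1'

end Pool.Agent.Helper20.HD
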