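import Pool.Agent.Helper20.HD.SoftDD
import Pool.Agent.Helper20.HD.Mix4

/-!
# Both ends of a handle soft, with double links and a common neighbour: conclusion
-/

set_option autoImplicit false

namespace Pool.Agent.Helper20.HD

open SimpleGraph Pool.Agent.Helper57.TOK Pool.Agent.Helper57.TD Pool.Agent.Helper57.TOP
  Pool.Agent.Helper82.TK

variable {V : Type*} {G : SimpleGraph V} {U : Set V} {h p q a b b' : V} {κ0 : V → ZMod 2}

lemma DD.ctr (d : DD G U h p q a b b' κ0) : Ctr G U h p q := ⟨d.gmin, d.hU, d.hand, d.npq⟩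

/-- A dense set does not contain `b`. -/
lemma DD.b_notMem [Finite V] (d : DD G U h p q a b b' κ0) {Y : Set V} {κ : V → ZMod 2}
    {n2 n3 : V} (g : DG G U h p q Y κ n2 n3) : b ∉ Y := by
  classical
  intro hb
  obtain ⟨t, ht⟩ := d.tq
  have hrb := d.rb
  have k1 := g.bal b q hb d.qb.symm
  have htY : t ∉ Y := by
    intro h1
    have k2 := g.bal t q h1 ht.hp
    have k3 := g.bal t b h1 ht.hq
    revert k1 k2 k3
    generalize κ t = x
    generalize κ q = y
    generalize κ b = z
    revert x y z; decide
  -- it is enough to treat `t = n2`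
  have main : ∀ {n3 : V}, DG G U h p q Y κ t n3 → False := by
    intro n3 g
    have htU : t ∈ U := d.gmin.ex.edge_mem t q ht.hp
    have hpU : p ∈ U := d.gmin.ex.edge_mem p h d.hand.hp.symm
    -- no vertex of degree at least three in the rest
    have hsmall : ∀ v ∈ U, v ∉ Y → v ≠ t → v ≠ p → v ≠ q → v ≠ n3 → v ≠ h →
        (G.neighborSet v).ncard ≤ 2 := by
      intro v hvU h1 h2 h3 h4 h5 h6
      by_contra hlt
      push Not at hlt
      refine d.hcut n3 (insert t Y) (U \ (insert t (insert p (insert q (insert n3 (insert h Y))))))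
        ?_ Set.sdiff_subset ?_ ?_ ?_ ?_ ?_ ⟨b, Or.inr hb, hrb⟩ ⟨v, ⟨hvU, ?_⟩, by omega⟩
      · rintro w (h7 | h7)
        · rw [h7]; exact htU
        · exact g.sub h7
      · rintro w (h7 | h7)
        · rw [h7]; exact ⟨g.n2h, g.n2p, g.n2q, g.n23⟩
        · exact ⟨fun h8 => g.hY (h8 ▸ h7), fun h8 => g.pY (h8 ▸ h7), fun h8 => g.qY (h8 ▸ h7),
            fun h8 => g.n3Y (h8 ▸ h7)⟩
      · rintro w ⟨-, hw⟩
        refine ⟨fun h8 => hw ?_, fun h8 => hw ?_, fun h8 => hw ?_, fun h8 => hw ?_⟩
        · rw [h8]; exact Or.inr (Or.inr (Or.inr (Or.inr (Or.inl rfl))))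
        · rw [h8]; exact Or.inr (Or.inl rfl)
        · rw [h8]; exact Or.inr (Or.inr (Or.inl rfl))
        · rw [h8]; exact Or.inr (Or.inr (Or.inr (Or.inl rfl)))
      · rw [Set.disjoint_left]
        rintro w hw ⟨-, hw'⟩
        rcases hw with h7 | h7
        · exact hw' (Or.inl h7)
        · exact hw' (Or.inr (Or.inr (Or.inr (Or.inr (Or.inr h7)))))
      · intro w hw
        by_cases h7 : w ∈ insert t (insert p (insert q (insert n3 (insert h Y))))
        · rcases h7 with h7 | h7 | h7 | h7 | h7 | h7
          · exact Or.inl (Or.inl h7)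
          · exact Or.inr (Or.inr (Or.inr (Or.inl h7)))
          · exact Or.inr (Or.inr (Or.inr (Or.inr (Or.inl h7))))
          · exact Or.inr (Or.inr (Or.inr (Or.inr (Or.inr h7))))
          · exact Or.inr (Or.inr (Or.inl h7))
          · exact Or.inl (Or.inr h7)
        · exact Or.inr (Or.inl ⟨hw, h7⟩)
      · rintro u hu w ⟨-, hw⟩ huw
        rcases hu with h7 | h7
        · rw [h7] at huw
          rcases ht.adj.1 huw with h8 | h8
          · exact hw (by rw [h8]; exact Or.inr (Or.inr (Or.inl rfl)))
          · exact hw (by rw [h8]; exact Or.inr (Or.inr (Or.inr (Or.inr (Or.inr hb)))))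
        · rcases g.out h7 huw with h8 | h8 | h8 | h8 | h8
          · exact hw (Or.inr (Or.inr (Or.inr (Or.inr (Or.inr h8)))))
          · exact hw (by rw [h8]; exact Or.inr (Or.inl rfl))
          · exact hw (by rw [h8]; exact Or.inr (Or.inr (Or.inl rfl)))
          · exact hw (by rw [h8]; exact Or.inl rfl)
          · exact hw (by rw [h8]; exact Or.inr (Or.inr (Or.inr (Or.inl rfl))))
      · rintro (h7 | h7 | h7 | h7 | h7 | h7)
        · exact h2 h7
        · exact h3 h7
        · exact h4 h7
        · exact h5 h7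
        · exact h6 h7
        · exact h1 h7
    -- the colouring
    refine gmin_ind3 d.gmin q n3
      (fun v => if v ∈ Y then κ v else if v = p then κ p else if v = t then κ b + 1
        else κ p + 1) ?_
    have hne1 : ∀ x : ZMod 2, x ≠ x + 1 := by decide
    have hkey : ∀ u v, u ∈ Y → v ≠ q → v ≠ n3 → G.Adj u v →
        (if u ∈ Y then κ u else if u = p then κ p else if u = t then κ b + 1 else κ p + 1) ≠
        (if v ∈ Y then κ v else if v = p then κ p else if v = t then κ b + 1 else κ p + 1) := by
      intro u v hu hvq hvn huv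
      rw [if_pos hu]
      rcases g.out hu huv with h8 | h8 | h8 | h8 | h8
      · rw [if_pos h8]; exact g.bal u v hu huv
      · rw [h8, if_neg g.pY, if_pos rfl]
        rw [h8] at huv
        exact g.bal u p hu huv
      · exact absurd h8 hvq
      · rw [h8] at huv ⊢
        have h9 : u = b := by
          rcases ht.adj.1 huv.symm with h9 | h9
          · exact absurd (h9 ▸ hu) g.qY
          · exact h9
        rw [if_neg g.n2Y, if_neg g.n2p, if_pos rfl, h9]
        exact hne1 _
      · exact absurd h8 hvn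
    have hkey2 : ∀ u v, u ∉ Y → v ∉ Y → u = p → v ≠ q → v ≠ n3 → G.Adj u v →
        (if u ∈ Y then κ u else if u = p then κ p else if u = t then κ b + 1 else κ p + 1) ≠
        (if v ∈ Y then κ v else if v = p then κ p else if v = t then κ b + 1 else κ p + 1) := by
      intro u v hu hv hup hvq hvn huv
      have h8 : v ≠ p := fun h9 => huv.ne (hup.trans h9.symm)
      have h9 : v ≠ t := by
        intro h9
        rw [h9, hup] at huv
        rcases ht.adj.1 huv.symm with h10 | h10
        · exact d.hand.ne h10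
        · exact d.bp h10.symm
      rw [if_neg hu, if_pos hup, if_neg hv, if_neg h8, if_neg h9]
      exact hne1 _
    intro u v huq hun hvq hvn huv
    by_cases hu : u ∈ Y
    · exact hkey u v hu hvq hvn huv
    by_cases hv : v ∈ Y
    · exact (hkey v u hv huq hun huv.symm).symm
    by_cases hup : u = p
    · exact hkey2 u v hu hv hup hvq hvn huv
    by_cases hvp : v = p
    · exact (hkey2 v u hv hu hvp huq hun huv.symm).symm
    exfalso
    -- `u` and `v` are of degree two
    have hkey3 : ∀ u v, u ∉ Y → v ∉ Y → u ≠ p → v ≠ p → u ≠ q → v ≠ q → u = t ∨ u = h →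
        G.Adj u v → False := by
      intro u v hu hv hup hvp huq hvq h8 huv
      rcases h8 with h8 | h8
      · rw [h8] at huv
        rcases ht.adj.1 huv with h9 | h9
        · exact hvq h9
        · exact hv (h9 ▸ hb)
      · rw [h8] at huv
        rcases d.hand.adj.1 huv with h9 | h9
        · exact hvp h9
        · exact hvq h9
    by_cases h8 : u = t ∨ u = h
    · exact hkey3 u v hu hv hup hvp huq hvq h8 huv
    by_cases h9 : v = t ∨ v = h
    · exact hkey3 v u hv hu hvp hup hvq huq h9 huv.symm
    push Not at h8 h9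
    have huU := d.gmin.ex.edge_mem u v huv
    have hvU := d.gmin.ex.edge_mem v u huv.symm
    have e1 := hsmall u huU hu h8.1 hup huq hun h8.2
    have e2 := hsmall v hvU hv h9.1 hvp hvq hvn h9.2
    have e3 := d.gmin.ex.deg2 u huU
    obtain ⟨x, y, hxy⟩ := exists_hand (G := G) (h := u) (by omega)
    have e4 : 3 ≤ (G.neighborSet v).ncard := by
      rcases hxy.adj.1 huv with h10 | h10
      · rw [h10]; exact gmin_hand_real d.gmin huU hxy
      · rw [h10]; exact gmin_hand_real d.gmin huU hxy.symm
    omega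
  have htN : t ∈ Nb G Y := ⟨htY, b, hb, ht.hq.symm⟩
  rw [g.nb] at htN
  rcases htN with h1 | h1 | h1 | h1
  · have h2 := d.rp
    rw [← h1, hand_deg ht] at h2
    omega
  · exact ht.hp.ne h1
  · exact main (h1 ▸ g)
  · rw [Set.mem_singleton_iff] at h1
    exact main (h1 ▸ g.swapn)

/-- A balanced set with at most three neighbours. -/
lemma gmin_part [Finite V] (hM : GMin G U) {Q : Set V} (hQ : Q ⊆ U) {κ : V → ZMod 2}
    (hb : PB G κ Q) {x y z : V} (hN : ∀ v ∈ Nb G Q, v = x ∨ v = y ∨ v = z) :
    fden G Q ≤ 0 ∨ (fden G Q ≤ 1 ∧ κ x = κ y ∧ κ x = κ z) := by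
  classical
  by_cases h1 : (Nb G Q).ncard ≤ 2
  · left
    have h6 : Q.ncard ≤ 1 := by
      by_contra hlt
      push Not at hlt
      have := gmin_three_le hM hQ hb (by omega)
      omega
    apply fden_le_zero_of_deg
    intro v hv
    have h8 : Q = {v} := by
      symm
      apply Set.eq_of_subset_of_ncard_le _ _ (Set.toFinite _)
      · intro w hw
        rw [Set.mem_singleton_iff] at hw
        rw [hw]; exact hv
      · rw [Set.ncard_singleton]; exact h6
    rw [h8, Nb_singleton] at h1
    exact h1
  · push Not at h1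
    have hsub : Nb G Q ⊆ {x, y, z} := fun v hv => hN v hv
    have h2 := Set.ncard_le_ncard hsub (Set.toFinite _)
    have h3 : ({x, y, z} : Set V).ncard ≤ 3 := by
      have e1 := Set.ncard_insert_le x ({y, z} : Set V)
      have e2 := ncard_pair_le' y z
      omega
    have heq : Nb G Q = {x, y, z} :=
      Set.eq_of_subset_of_ncard_le hsub (by omega) (Set.toFinite _)
    have hc : (Nb G Q).ncard = 3 := by omega
    have hf := gmin_P1 hM hQ hb hc
    by_cases hm : Mono κ (Nb G Q)
    · rw [beta_of_mono hm, hc] at hf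
      rw [heq] at hm
      exact Or.inr ⟨by push_cast at hf; linarith, hm x (Or.inl rfl) y (Or.inr (Or.inl rfl)),
        hm x (Or.inl rfl) z (Or.inr (Or.inr rfl))⟩
    · rw [beta_of_not_mono hm, hc] at hf
      left
      push_cast at hf
      linarith

/-- A dense set contains `a`, and `q` is adjacent to `a`. -/
lemma DD.qa [Finite V] (d : DD G U h p q a b b' κ0) {Y : Set V} {κ : V → ZMod 2}
    {n2 n3 : V} (g : DG G U h p q Y κ n2 n3) : a ∈ Y ∧ G.Adj q a := by
  classical
  by_contra hcon
  have hb := d.b_notMem g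
  have hqY : ∀ u ∈ Y, G.Adj q u → Hand G u q a ∨ Hand G u q b := by
    intro u hu hqu
    rcases d.hq u hqu with h1 | h1 | h1 | h1 | h1
    · exact absurd (h1 ▸ hu) g.hY
    · exact absurd ⟨h1 ▸ hu, h1 ▸ hqu⟩ hcon
    · exact Or.inl h1
    · exact absurd (h1 ▸ hu) hb
    · exact Or.inr h1
  set Q : Set V := {u | u ∈ Y ∧ G.Adj q u} with hQ
  set Z : Set V := {u | u ∈ Y ∧ ¬ G.Adj q u} with hZ
  have hZU : Z ⊆ U := fun v hv => g.sub hv.1
  have hZb : PB G κ Z := g.bal.mono (fun v hv => hv.1)
  have hYZ : Y = Z ∪ Q := by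
    ext v
    constructor
    · intro hv
      by_cases h1 : G.Adj q v
      · exact Or.inr ⟨hv, h1⟩
      · exact Or.inl ⟨hv, h1⟩
    · rintro (h1 | h1)
      · exact h1.1
      · exact h1.1
  have hQd : ∀ u ∈ Q, (G.neighborSet u).ncard ≤ 2 := by
    intro u hu
    rcases hqY u hu.1 hu.2 with h1 | h1
    · rw [hand_deg h1]
    · rw [hand_deg h1]
  by_cases hs : ∃ s ∈ Y, Hand G s q a ∧ a ∈ Y
  · obtain ⟨s, hsY, hs, haY⟩ := hs
    have hsQ : s ∈ Q := ⟨hsY, hs.hp.symm⟩
    have hsZ : s ∉ Z := fun h1 => h1.2 hs.hp.symm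
    have hY2 : Y = insert s (Z ∪ (Q \ {s})) := by
      rw [hYZ]
      ext v
      constructor
      · rintro (h1 | h1)
        · exact Or.inr (Or.inl h1)
        · by_cases h2 : v = s
          · exact Or.inl h2
          · exact Or.inr (Or.inr ⟨h1, h2⟩)
      · rintro (h1 | h1 | h1)
        · rw [h1]; exact Or.inr hsQ
        · exact Or.inl h1
        · exact Or.inr h1.1
    have hsS : s ∉ Z ∪ (Q \ {s}) := by
      rintro (h1 | h1)
      · exact hsZ h1
      · exact h1.2 rfl
    have hra := d.ra
    have haZ : a ∈ Z := by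
      refine ⟨haY, fun h1 => ?_⟩
      rcases hqY a haY h1 with h2 | h2
      · exact h2.hq.ne rfl
      · have := hand_deg h2
        omega
    have e1 := fden_insert G hsS
    rw [← hY2] at e1
    have e2 : (G.neighborSet s \ (Z ∪ (Q \ {s}))).ncard ≤ 1 := by
      have h1 : G.neighborSet s \ (Z ∪ (Q \ {s})) ⊆ {q} := by
        rintro v ⟨hv, hvS⟩
        rcases hs.adj.1 hv with h2 | h2
        · exact h2
        · exact absurd (Or.inl (h2 ▸ haZ)) hvS
      have h2 := Set.ncard_le_ncard h1 (Set.toFinite _)
      rwa [Set.ncard_singleton] at h2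
    have e3 : fden G (Z ∪ (Q \ {s})) ≤ fden G Z := by
      apply fden_add_small
      · exact fun u hu h1 => h1.2 hu.1.2
      · exact fun u hu => hQd u hu.1
    have hlow := g.low
    have hZ2 : 2 ≤ fden G Z := by
      have : ((G.neighborSet s \ (Z ∪ (Q \ {s}))).ncard : ℤ) ≤ 1 := by exact_mod_cast e2
      linarith
    have hN : ∀ v ∈ Nb G Z, v = p ∨ v = n2 ∨ v = n3 ∨ v = s := by
      rintro v ⟨hv, u, hu, huv⟩
      rcases g.out hu.1 huv with h1 | h1 | h1 | h1 | h1
      · have h2 : G.Adj q v := by
          by_contra h2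
          exact hv ⟨h1, h2⟩
        right; right; right
        rcases hqY v h1 h2 with h3 | h3
        · exact gmin_hand_unique d.gmin (g.sub h1) h3 (g.sub hsY) hs
        · exfalso
          rcases h3.adj.1 huv.symm with h4 | h4
          · exact g.qY (h4 ▸ hu.1)
          · exact hb (h4 ▸ hu.1)
      · exact Or.inl h1
      · exact absurd (h1 ▸ huv.symm) hu.2
      · exact Or.inr (Or.inl h1)
      · exact Or.inr (Or.inr (Or.inl h1))
    have hks : κ s ≠ κ p := by
      rw [g.kpq]
      exact g.bal s q hsY hs.hp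
    have hsub : Nb G Z ⊆ {p, n2, n3, s} := fun v hv => hN v hv
    have h2 := Set.ncard_le_ncard hsub (Set.toFinite _)
    have h3 : ({p, n2, n3, s} : Set V).ncard ≤ 4 := by
      have f0 := Set.ncard_insert_le p ({n2, n3, s} : Set V)
      have f1 := Set.ncard_insert_le n2 ({n3, s} : Set V)
      have f2 := ncard_pair_le' n3 s
      omega
    by_cases h4 : (Nb G Z).ncard = 4
    · have heq : Nb G Z = {p, n2, n3, s} :=
        Set.eq_of_subset_of_ncard_le hsub (by omega) (Set.toFinite _)
      have hm : ¬ Mono κ (Nb G Z) := by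
        intro hm
        rw [heq] at hm
        exact hks (hm s (Or.inr (Or.inr (Or.inr rfl))) p (Or.inl rfl))
      have h5 := gmin_P2 d.gmin hZU hZb h4
      rw [beta_of_not_mono hm, h4] at h5
      push_cast at h5
      linarith
    · by_cases h5 : (Nb G Z).ncard = 3
      · have h6 := gmin_P1 d.gmin hZU hZb h5
        have h7 := beta_le κ (Nb G Z)
        rw [h5] at h7
        push_cast at h7
        linarith
      · have h6 : Z.ncard ≤ 1 := by
          by_contra hlt
          push Not at hlt
          have := gmin_three_le d.gmin hZU hZb (by omega)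
          omega
        have h7 : fden G Z ≤ 0 := by
          apply fden_le_zero_of_deg
          intro v hv
          have h8 : Z = {v} := by
            symm
            apply Set.eq_of_subset_of_ncard_le _ _ (Set.toFinite _)
            · intro w hw
              rw [Set.mem_singleton_iff] at hw
              rw [hw]; exact hv
            · rw [Set.ncard_singleton]; exact h6
          have h9 : (Nb G Z).ncard ≤ 2 := by omega
          rw [h8, Nb_singleton] at h9
          exact h9
        linarith
  · have hN : ∀ v ∈ Nb G Z, v = p ∨ v = n2 ∨ v = n3 := by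
      rintro v ⟨hv, u, hu, huv⟩
      rcases g.out hu.1 huv with h1 | h1 | h1 | h1 | h1
      · exfalso
        have h2 : G.Adj q v := by
          by_contra h2
          exact hv ⟨h1, h2⟩
        rcases hqY v h1 h2 with h3 | h3
        · rcases h3.adj.1 huv.symm with h4 | h4
          · exact g.qY (h4 ▸ hu.1)
          · exact hs ⟨v, h1, h3, h4 ▸ hu.1⟩
        · rcases h3.adj.1 huv.symm with h4 | h4
          · exact g.qY (h4 ▸ hu.1)
          · exact hb (h4 ▸ hu.1)
      · exact Or.inl h1
      · exact absurd (h1 ▸ huv.symm) hu.2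
      · exact Or.inr (Or.inl h1)
      · exact Or.inr (Or.inr h1)
    have e3 : fden G Y ≤ fden G Z := by
      conv_lhs => rw [hYZ]
      apply fden_add_small
      · exact fun u hu h1 => h1.2 hu.2
      · exact hQd
    have hlow := g.low
    rcases gmin_part d.gmin hZU hZb hN with h1 | ⟨h1, h2, h3⟩
    · linarith
    · have := g.top h2 h3
      linarith

/-- No dense sets. -/
theorem DD.no_dense [Finite V] (d : DD G U h p q a b b' κ0) :
    ¬ ∃ Y κ, Dns (foldG G h p q) (U \ {h, q}) Y κ := by
  rintro ⟨Y, κ, hd⟩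
  obtain ⟨κ', n2, n3, g⟩ := d.ctr.dg hd
  obtain ⟨ha, hqa⟩ := d.qa g
  obtain ⟨-, hpa⟩ := d.symm.qa g.swap
  exact g.ncod a ha ⟨hpa, hqa⟩

/-- **Both ends soft with double links and a common neighbour: impossible.** -/
theorem DD.false [Finite V] (d : DD G U h p q a b b' κ0) : False := by
  refine d.ctr.false d.hcut (fun Y1 κ1 Y2 κ2 h1 _ => absurd ⟨Y1, κ1, h1⟩ d.no_dense) (Or.inl ?_)
  have h1 : cod G h p q ⊆ {a} := by
    rintro w ⟨hwh, hpw, hqw⟩
    rcases d.hp w hpw with h1 | h1 | h1 | h1 | h1
    · exact absurd h1 hwh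
    · exact h1
    · exfalso
      rcases h1.adj.1 hqw.symm with h2 | h2
      · exact d.hand.ne h2.symm
      · exact d.aq h2.symm
    · exact absurd (h1 ▸ hqw) d.symm.npb
    · exfalso
      rcases h1.adj.1 hqw.symm with h2 | h2
      · exact d.hand.ne h2.symm
      · exact d.bq' h2.symm
  have h2 := Set.ncard_le_ncard h1 (Set.toFinite _)
  rwa [Set.ncard_singleton] at h2

end Pool.Agent.Helper20.HD
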