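import Pool.Agent.Helper20.HD.Defs
import Pool.Agent.Helper51.W2.FoldH

/-!
# Contraction of a handle: connectivity, index, counts (helper51)
-/

set_option autoImplicit false

namespace Pool.Agent.Helper20.HD

open SimpleGraph Pool.Agent.Helper57.TOK Pool.Agent.Helper57.TD Pool.Agent.Helper57.TOP
  Pool.Agent.Helper82.TK Pool.Agent.Helper51.W2

variable {V : Type*} {G : SimpleGraph V} {U : Set V} {h p q : V}

lemma Ctr.pU (c : Ctr G U h p q) : p ∈ U := c.gmin.ex.edge_mem p h c.hand.hp.symm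

lemma Ctr.qU (c : Ctr G U h p q) : q ∈ U := c.gmin.ex.edge_mem q h c.hand.hq.symm

/-- A set of the contraction with two neighbours does not contain `p`. -/
lemma Ctr.conn_p [Finite V] (c : Ctr G U h p q) {Y : Set V} (hY : Y ⊆ U \ {h, q})
    (hY2 : 2 ≤ Y.ncard) (hN : (Nb (foldG G h p q) Y).ncard ≤ 2)
    (hr : 2 ≤ ((U \ {h, q}) \ (Y ∪ Nb (foldG G h p q) Y)).ncard) : p ∉ Y := by
  classical
  intro hp
  have hph : p ≠ h := c.hand.hp.ne.symm
  have hqY : q ∉ Y := fun h1 => (hY h1).2 (Or.inr rfl)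
  have hhY : h ∉ Y := fun h1 => (hY h1).2 (Or.inl rfl)
  have hN' : Nb G (insert h (insert q Y)) ⊆ Nb (foldG G h p q) Y := by
    rintro v ⟨hv, u, hu, huv⟩
    have hvh : v ≠ h := fun h1 => hv (Or.inl h1)
    have hvq : v ∉ insert q Y := fun h1 => hv (Or.inr h1)
    rw [mem_Nb_foldG_of_mem c.hand.ne hph hp hqY hhY]
    refine ⟨⟨hvq, ?_⟩, hvh⟩
    rcases hu with rfl | hu
    · rcases c.hand.adj.1 huv with h1 | h1
      · exact absurd (Or.inr (h1 ▸ hp)) hvq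
      · exact absurd (Or.inl h1) hvq
    · exact ⟨u, hu, huv⟩
  have h1 := c.gmin.ex.conn (insert h (insert q Y)) (by
    rintro x (rfl | rfl | hx)
    · exact c.hU
    · exact c.qU
    · exact (hY hx).1) (hY2.trans (Set.ncard_le_ncard (fun x hx => Or.inr (Or.inr hx))
      (Set.toFinite _))) ((Set.ncard_le_ncard hN' (Set.toFinite _)).trans hN)
  have h2 : (U \ {h, q}) \ (Y ∪ Nb (foldG G h p q) Y) ⊆
      U \ (insert h (insert q Y) ∪ Nb G (insert h (insert q Y))) := by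
    rintro x ⟨⟨hx1, hx2⟩, hx3⟩
    refine ⟨hx1, ?_⟩
    rintro ((h3 | h3 | h3) | h3)
    · exact hx2 (Or.inl h3)
    · exact hx2 (Or.inr h3)
    · exact hx3 (Or.inl h3)
    · exact hx3 (Or.inr (hN' h3))
  have h3 := Set.ncard_le_ncard h2 (Set.toFinite _)
  omega

/-- The two handles become parallel. -/
lemma Ctr.hands (c : Ctr G U h p q) {z z' x : V} (hz : Hand G z p x) (hz' : Hand G z' q x)
    (hzh : z ≠ h) (hzh' : z' ≠ h) (hzq : z ≠ q) (hzp' : z' ≠ p) (hxq : x ≠ q) (hxh : x ≠ h) :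
    Hand (foldG G h p q) z p x ∧ Hand (foldG G h p q) z' p x := by
  have hph : p ≠ h := c.hand.hp.ne.symm
  have hpq : p ≠ q := c.hand.ne
  have hzp : z ≠ p := hz.hp.ne
  have hzq' : z' ≠ q := hz'.hp.ne
  have hzx : z ≠ x := hz.hq.ne
  have hzx' : z' ≠ x := hz'.hq.ne
  refine ⟨⟨hz.ne, ?_⟩, ⟨hz.ne, ?_⟩⟩
  · ext v
    rw [SimpleGraph.mem_neighborSet, foldG_adj]
    constructor
    · rintro ⟨h1, h2, h3, h4, h5, h6 | ⟨h6, -⟩ | ⟨h6, -⟩⟩
      · exact hz.adj.1 h6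
      · exact absurd h6 hzp
      · exact Or.inl h6
    · rintro (rfl | h1)
      · exact ⟨hzp, hzh, hph, hzq, hpq, Or.inl hz.hp⟩
      · rw [Set.mem_singleton_iff] at h1
        subst h1
        exact ⟨hzx, hzh, hxh, hzq, hxq, Or.inl hz.hq⟩
  · ext v
    rw [SimpleGraph.mem_neighborSet, foldG_adj]
    constructor
    · rintro ⟨h1, h2, h3, h4, h5, h6 | ⟨h6, -⟩ | ⟨h6, -⟩⟩
      · rcases hz'.adj.1 h6 with h7 | h7
        · exact absurd h7 h5
        · exact Or.inr h7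
      · exact absurd h6 hzp'
      · exact Or.inl h6
    · rintro (rfl | h1)
      · exact ⟨hzp', hzh', hph, hzq', hpq, Or.inr (Or.inr ⟨rfl, hz'.hp.symm⟩)⟩
      · rw [Set.mem_singleton_iff] at h1
        subst h1
        exact ⟨hzx', hzh', hxh, hzq', hxq, Or.inl hz'.hq⟩

/-- Connectivity of the contraction. -/
lemma Ctr.conn [Finite V] (c : Ctr G U h p q) (hcut : HCut G U h p q) {Y : Set V}
    (hY : Y ⊆ U \ {h, q}) (hY2 : 2 ≤ Y.ncard) (hN : (Nb (foldG G h p q) Y).ncard ≤ 2)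
    (hr : 2 ≤ ((U \ {h, q}) \ (Y ∪ Nb (foldG G h p q) Y)).ncard) :
    ∃ h1 h2 x, h1 ≠ h2 ∧ Hand (foldG G h p q) h1 p x ∧ Hand (foldG G h p q) h2 p x ∧
      (Y = {h1, h2} ∨ (U \ {h, q}) \ (Y ∪ Nb (foldG G h p q) Y) = {h1, h2}) := by
  classical
  set G1 := foldG G h p q with hG1
  have hph : p ≠ h := c.hand.hp.ne.symm
  have hpq : p ≠ q := c.hand.ne
  have hqh : q ≠ h := c.hand.hq.ne.symm
  have hmem : ∀ u v, G1.Adj u v → u ∈ U \ {h, q} :=
    fold_edge_mem c.gmin.ex.edge_mem c.pU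
  have hpY : p ∉ Y := c.conn_p hY hY2 hN hr
  set R : Set V := (U \ {h, q}) \ (Y ∪ Nb G1 Y) with hR
  have hRU : R ⊆ U \ {h, q} := fun x hx => hx.1
  have hRN : Nb G1 R ⊆ Nb G1 Y := by
    rintro v ⟨hv, u, hu, huv⟩
    by_contra hvN
    have hvU := hmem v u huv.symm
    have hvY : v ∉ Y := fun h1 => hu.2 (Or.inr ⟨fun h2 => hu.2 (Or.inl h2), v, h1, huv.symm⟩)
    exact hv ⟨hvU, by rintro (h1 | h1); exacts [hvY h1, hvN h1]⟩
  have hpR : p ∉ R := by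
    refine c.conn_p hRU hr ((Set.ncard_le_ncard hRN (Set.toFinite _)).trans hN) ?_
    refine hY2.trans (Set.ncard_le_ncard ?_ (Set.toFinite _))
    intro y hy
    refine ⟨hY hy, ?_⟩
    rintro (h1 | h1)
    · exact h1.2 (Or.inl hy)
    · exact (hRN h1).1 hy
  have hpU1 : p ∈ U \ {h, q} := ⟨c.pU, by rintro (h1 | h1); exacts [hph h1, hpq h1]⟩
  have hpN : p ∈ Nb G1 Y := by
    by_contra h1
    exact hpR ⟨hpU1, by rintro (h2 | h2); exacts [hpY h2, h1 h2]⟩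
  -- the second neighbour
  obtain ⟨x, hxN, hNx⟩ : ∃ x, x ∈ Nb G1 Y ∧ ∀ v ∈ Nb G1 Y, v = p ∨ v = x := by
    by_cases h1 : ∃ x ∈ Nb G1 Y, x ≠ p
    · obtain ⟨x, hx, hxp⟩ := h1
      refine ⟨x, hx, ?_⟩
      have h2 : ({p, x} : Set V) ⊆ Nb G1 Y := by
        rintro v (rfl | hv)
        · exact hpN
        · rw [Set.mem_singleton_iff] at hv; rw [hv]; exact hx
      have h3 : ({p, x} : Set V) = Nb G1 Y := by
        refine Set.eq_of_subset_of_ncard_le h2 ?_ (Set.toFinite _)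
        rw [Set.ncard_pair (Ne.symm hxp)]
        exact hN
      intro v hv
      rw [← h3] at hv
      exact hv
    · push Not at h1
      exact ⟨p, hpN, fun v hv => Or.inl (h1 v hv)⟩
  have hxU : x ∈ U \ {h, q} := by
    obtain ⟨-, u, -, hux⟩ := hxN
    exact hmem x u hux.symm
  have hxh : x ≠ h := fun h1 => hxU.2 (Or.inl h1)
  have hxq : x ≠ q := fun h1 => hxU.2 (Or.inr h1)
  have hxY : x ∉ Y := hxN.1
  have hxR : x ∉ R := fun h1 => h1.2 (Or.inr hxN)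
  have hcov : ∀ v ∈ U, v ∈ Y ∨ v ∈ R ∨ v = h ∨ v = p ∨ v = q ∨ v = x := by
    intro v hv
    by_cases h1 : v = h
    · tauto
    by_cases h2 : v = q
    · tauto
    by_cases h3 : v ∈ Y
    · tauto
    by_cases h4 : v ∈ Nb G1 Y
    · rcases hNx v h4 with h5 | h5 <;> tauto
    · right; left
      exact ⟨⟨hv, by rintro (h5 | h5); exacts [h1 h5, h2 h5]⟩, by
        rintro (h5 | h5); exacts [h3 h5, h4 h5]⟩
  have hoY : ∀ v ∈ Y, v ≠ h ∧ v ≠ p ∧ v ≠ q ∧ v ≠ x := fun v hv =>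
    ⟨fun h1 => (hY hv).2 (Or.inl h1), fun h1 => hpY (h1 ▸ hv), fun h1 => (hY hv).2 (Or.inr h1),
      fun h1 => hxY (h1 ▸ hv)⟩
  have hoR : ∀ v ∈ R, v ≠ h ∧ v ≠ p ∧ v ≠ q ∧ v ≠ x := fun v hv =>
    ⟨fun h1 => (hRU hv).2 (Or.inl h1), fun h1 => hpR (h1 ▸ hv), fun h1 => (hRU hv).2 (Or.inr h1),
      fun h1 => hxR (h1 ▸ hv)⟩
  have hYR : ∀ a ∈ Y, ∀ b ∈ R, ¬ G.Adj a b := by
    intro a ha b hb hab
    obtain ⟨a1, a2, a3, -⟩ := hoY a ha
    obtain ⟨b1, b2, b3, -⟩ := hoR b hb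
    have h1 : G1.Adj a b := fold_adj_of c.hand a2 a3 a1 b3 hab
    exact hb.2 (Or.inr ⟨fun h2 => hb.2 (Or.inl h2), a, ha, h1⟩)
  have hdis : Disjoint Y R := Set.disjoint_left.2 (fun v hv h1 => h1.2 (Or.inl hv))
  -- the side without vertices of degree three
  have main : ∀ X : Set V, X ⊆ U → (∀ v ∈ X, v ≠ h ∧ v ≠ p ∧ v ≠ q ∧ v ≠ x) → 2 ≤ X.ncard →
      (∀ u ∈ X, ∀ v, G.Adj u v → v ∈ X ∨ v = p ∨ v = q ∨ v = x) →
      (¬ ∃ r ∈ X, 3 ≤ (G.neighborSet r).ncard) →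
      ∃ h1 h2, h1 ≠ h2 ∧ Hand G1 h1 p x ∧ Hand G1 h2 p x ∧ X = {h1, h2} := by
    intro X hXU hoX hX2 hXN hXr
    obtain ⟨z, z', hzz, hXe, hz, hz'⟩ := handles_pair c.gmin c.hU c.hand hXU
      (fun h1 => (hoX h h1).1 rfl) hX2 hXN (fun u hu => by
        by_contra h1
        exact hXr ⟨u, hu, by omega⟩)
    have hzX : z ∈ X := by rw [hXe]; exact Or.inl rfl
    have hzX' : z' ∈ X := by rw [hXe]; exact Or.inr rfl
    obtain ⟨a1, a2⟩ := c.hands hz hz' (hoX z hzX).1 (hoX z' hzX').1 (hoX z hzX).2.2.1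
      (hoX z' hzX').2.1 hxq hxh
    exact ⟨z, z', hzz, a1, a2, hXe⟩
  have hYN : ∀ u ∈ Y, ∀ v, G.Adj u v → v ∈ Y ∨ v = p ∨ v = q ∨ v = x := by
    intro u hu v huv
    obtain ⟨a1, a2, a3, -⟩ := hoY u hu
    by_cases hvY : v ∈ Y
    · exact Or.inl hvY
    by_cases hvq : v = q
    · exact Or.inr (Or.inr (Or.inl hvq))
    have h1 : G1.Adj u v := fold_adj_of c.hand a2 a3 a1 hvq huv
    rcases hNx v ⟨hvY, u, hu, h1⟩ with h2 | h2
    · exact Or.inr (Or.inl h2)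
    · exact Or.inr (Or.inr (Or.inr h2))
  have hRN' : ∀ u ∈ R, ∀ v, G.Adj u v → v ∈ R ∨ v = p ∨ v = q ∨ v = x := by
    intro u hu v huv
    have hvU := c.gmin.ex.edge_mem v u huv.symm
    rcases hcov v hvU with h1 | h1 | h1 | h1 | h1 | h1
    · exact absurd huv.symm (hYR v h1 u hu)
    · exact Or.inl h1
    · exfalso
      subst h1
      rcases c.hand.adj.1 huv.symm with h2 | h2
      · exact (hoR u hu).2.1 h2
      · exact (hoR u hu).2.2.1 h2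
    · exact Or.inr (Or.inl h1)
    · exact Or.inr (Or.inr (Or.inl h1))
    · exact Or.inr (Or.inr (Or.inr h1))
  by_cases hYr : ∃ r ∈ Y, 3 ≤ (G.neighborSet r).ncard
  · have hRr : ¬ ∃ r ∈ R, 3 ≤ (G.neighborSet r).ncard := fun hRr =>
      hcut x Y R (fun v hv => (hY hv).1) (fun v hv => (hRU hv).1) hoY hoR hdis hcov hYR hYr hRr
    obtain ⟨h1, h2, h3, h4, h5, h6⟩ := main R (fun v hv => (hRU hv).1) hoR hr hRN' hRr
    exact ⟨h1, h2, x, h3, h4, h5, Or.inr h6⟩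
  · obtain ⟨h1, h2, h3, h4, h5, h6⟩ := main Y (fun v hv => (hY hv).1) hoY hY2 hYN hYr
    exact ⟨h1, h2, x, h3, h4, h5, Or.inl h6⟩

/-- Connectivity (up to parallel handles), index, degrees of the contraction. -/
theorem Ctr.preD [Finite V] (c : Ctr G U h p q) (hcut : HCut G U h p q) :
    PreD (foldG G h p q) (U \ {h, q}) p where
  pU := ⟨c.pU, by rintro (h1 | h1); exacts [c.hand.hp.ne.symm h1, c.hand.ne h1]⟩
  edge_mem := fold_edge_mem c.gmin.ex.edge_mem c.pU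
  deg2 := fold_deg2 c.gmin c.hU c.hand c.npq
  idx := fun z1 z2 h1 h2 κ => fold_idxp (gmin_ind3 c.gmin) c.hand c.npq z1 z2 h1 h2 κ
  idxp := fun κ hκ => fold_index2 (gmin_ind3 c.gmin) c.hand c.npq p κ
    (fun u v h1 h2 h3 => hκ u v h1 h1 h2 h2 h3)
  conn := fun _ hY hY2 hN hr => c.conn hcut hY hY2 hN hr

theorem Ctr.card_edges [Finite V] (c : Ctr G U h p q) :
    (foldG G h p q).edgeSet.ncard + (cod G h p q).ncard + 2 = G.edgeSet.ncard :=
  fold_edges c.gmin.ex.edge_mem c.hU c.hand c.npq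

theorem Ctr.card_U [Finite V] (c : Ctr G U h p q) : (U \ {h, q}).ncard + 2 = U.ncard := by
  classical
  have h1 : ({h, q} : Set V) ⊆ U := by
    rintro x (rfl | hx)
    · exact c.hU
    · rw [Set.mem_singleton_iff] at hx; rw [hx]; exact c.qU
  have h2 := Set.ncard_sdiff_add_ncard_of_subset h1 (Set.toFinite _)
  rw [Set.ncard_pair c.hand.hq.ne] at h2
  exact h2

theorem Ctr.lift [Finite V] (c : Ctr G U h p q) (hT : HasTOK4s (foldG G h p q) (One V)) :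
    HasTOK4s G (One V) :=
  HasTOK4s.of_foldG (c := One V) (c' := One V) c.hand.ne c.hand.hp c.hand.hq rfl
    (fun _ _ _ _ => rfl) (fun _ _ _ _ _ => rfl) (fun _ _ _ _ _ => rfl) hT

end Pool.Agent.Helper20.HD
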